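import Mathlib
import Pool.Agent.H90.FKS.TwoDefs

/-!
# Level three: lower bounds for the head and for the acceptance probabilities

`e` is an edge of size three with vertices `u` (own leaf), `v` (centre), `w` (other leaf).
Everything is multiplied by `c = 7 / 3`.
-/

set_option autoImplicit false
set_option linter.unusedSectionVars false
set_option linter.unusedVariables false

namespace H70.FKS

open Finset H4.FKS H34.FKS H90.FKS

variable {V E : Type} [Fintype V] [DecidableEq V] [DecidableEq E] [Fintype E]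

/-- Mass of the edges of size three at `t`. -/
noncomputable def p3 (H : E → Finset V) (x : E → ℝ) (t : V) : ℝ :=
  ∑ f with ((H f).card = 3 ∧ t ∈ H f), x f

theorem p3_nonneg {H : E → Finset V} {x : E → ℝ} (hx : ∀ e, 0 ≤ x e) (t : V) : 0 ≤ p3 H x t :=
  sum_nonneg fun f _ => hx f

/-- Own mass is part of `p3`. -/
theorem le_p3 {H : E → Finset V} {x : E → ℝ} (hx : ∀ e, 0 ≤ x e) {e : E} (he : (H e).card = 3)
    {t : V} (ht : t ∈ H e) : x e ≤ p3 H x t :=
  single_le_sum (f := x) (fun f _ => hx f) (mem_filter.2 ⟨mem_univ _, he, ht⟩)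

/-- The masses of the sizes two, three and of the larger edges present. -/
theorem mass_split {H : E → Finset V} {x : E → ℝ} (hx : ∀ e, 0 ≤ x e)
    (hdeg : ∀ v, ∑ f with v ∈ H f, x f ≤ 1) {R' : Finset E} (hR' : ∀ f ∈ R', 3 < (H f).card)
    (t : V) : ∑ f ∈ R' with t ∈ H f, x f + p3 H x t + a2 H x t ≤ 1 := by
  classical
  refine le_trans ?_ (hdeg t)
  unfold p3 a2
  rw [← sum_union, ← sum_union]
  · apply sum_le_sum_of_subset_of_nonneg
    · intro f hf
      simp only [mem_union, mem_filter, mem_univ, true_and] at hf ⊢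
      rcases hf with (h | h) | h
      · exact h.2
      · exact h.2
      · exact h.2
    · exact fun f _ _ => hx f
  · rw [disjoint_left]
    intro f hf hf'
    simp only [mem_union, mem_filter, mem_univ, true_and] at hf hf'
    rcases hf with h | h
    · have := hR' f h.1
      omega
    · omega
  · rw [disjoint_left]
    intro f hf hf'
    simp only [mem_filter, mem_univ, true_and] at hf hf'
    have := hR' f hf.1
    omega

/-- The `F`-mass at a vertex. -/
theorem Fmass_le {H : E → Finset V} {x : E → ℝ} (hx : ∀ e, 0 ≤ x e) {F : Finset E}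
    (hF : ∀ f ∈ F, (H f).card = 3) (t : V) : ∑ f ∈ F with t ∈ H f, x f ≤ p3 H x t := by
  unfold p3
  apply sum_le_sum_of_subset_of_nonneg
  · intro f hf
    simp only [mem_filter, mem_univ, true_and] at hf ⊢
    exact ⟨hF f hf.1, hf.2⟩
  · exact fun f _ _ => hx f

/-- The `F`-mass at a leaf of `e`, away from the centre. -/
theorem Fmass_leaf {H : E → Finset V} {x : E → ℝ} (hx : ∀ e, 0 ≤ x e) {F : Finset E}
    (hF : ∀ f ∈ F, (H f).card = 3) {e : E} (he : e ∈ F) {t v : V} (ht : t ∈ H e)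
    (hv : v ∈ H e) : ∑ f ∈ F with (t ∈ H f ∧ v ∉ H f), x f ≤ p3 H x t - x e := by
  have h1 : ∑ f ∈ F with (t ∈ H f ∧ v ∉ H f), x f + x e ≤ ∑ f ∈ F with t ∈ H f, x f := by
    have h2 : e ∉ F.filter (fun f => t ∈ H f ∧ v ∉ H f) := by
      intro h
      exact (mem_filter.1 h).2.2 hv
    rw [add_comm, ← sum_insert h2]
    apply sum_le_sum_of_subset_of_nonneg
    · intro f hf
      rcases mem_insert.1 hf with rfl | h
      · exact mem_filter.2 ⟨he, ht⟩
      · exact mem_filter.2 ⟨(mem_filter.1 h).1, (mem_filter.1 h).2.1⟩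
    · exact fun f _ _ => hx f
  linarith [Fmass_le hx hF t]

/-- **`F`-part.** -/
theorem Fpart {H : E → Finset V} {x : E → ℝ} (hx : ∀ e, 0 ≤ x e) {c : ℝ} (hc : 0 < c)
    {F : Finset E} (hF : ∀ f ∈ F, (H f).card = 3) {κ s : E → ℝ}
    (hs : ∀ f ∈ F, s f ≤ (1 + κ f) * (x f / c)) {e : E} (he : e ∈ F) {u v w : V}
    (hu : u ∈ H e) (hv : v ∈ H e) (hw : w ∈ H e)
    (hcov : ∀ t ∈ H e, t = u ∨ t = v ∨ t = w) {Ru Rw : ℝ} (hRu0 : 0 ≤ Ru) (hRw0 : 0 ≤ Rw)
    (hRu : ∀ f ∈ F, u ∈ H f → 1 + κ f ≤ Ru) (hRw : ∀ f ∈ F, w ∈ H f → 1 + κ f ≤ Rw) :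
    c * ∑ f ∈ F with ¬ Disjoint (H e) (H f), s f ≤
      ∑ f ∈ F with v ∈ H f, x f + ∑ f ∈ F with v ∈ H f, κ f * x f +
        Ru * (p3 H x u - x e) + Rw * (p3 H x w - x e) := by
  classical
  have h1 : c * ∑ f ∈ F with ¬ Disjoint (H e) (H f), s f ≤
      ∑ f ∈ F with v ∈ H f, x f + ∑ f ∈ F with v ∈ H f, κ f * x f +
        Ru * ∑ f ∈ F with (u ∈ H f ∧ v ∉ H f), x f +
        Rw * ∑ f ∈ F with (w ∈ H f ∧ v ∉ H f), x f := by
    simp only [sum_filter, mul_sum]
    rw [← sum_add_distrib, ← sum_add_distrib, ← sum_add_distrib]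
    refine sum_le_sum fun f hf => ?_
    have hsf : c * s f ≤ x f + κ f * x f := by
      have h2 := mul_le_mul_of_nonneg_left (hs f hf) hc.le
      refine h2.trans (le_of_eq ?_)
      field_simp
    by_cases hvf : v ∈ H f
    · have hd : ¬ Disjoint (H e) (H f) := not_disjoint_iff.2 ⟨v, hv, hvf⟩
      simp only [hd, hvf, not_false_eq_true, if_true, not_true_eq_false, and_false, if_false,
        mul_zero, add_zero]
      exact hsf
    · simp only [hvf, if_false, not_false_eq_true, and_true, zero_add, add_zero]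
      by_cases hd : Disjoint (H e) (H f)
      · rw [if_neg (not_not.2 hd), mul_zero]
        have h3 : 0 ≤ Ru * (if u ∈ H f then x f else 0) := by
          apply mul_nonneg hRu0
          split_ifs
          · exact hx f
          · exact le_rfl
        have h4 : 0 ≤ Rw * (if w ∈ H f then x f else 0) := by
          apply mul_nonneg hRw0
          split_ifs
          · exact hx f
          · exact le_rfl
        linarith
      · rw [if_pos hd]
        obtain ⟨t, ht, htf⟩ := not_disjoint_iff.1 hd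
        rcases hcov t ht with rfl | rfl | rfl
        · rw [if_pos htf]
          have h3 := mul_le_mul_of_nonneg_right (hRu f hf htf) (hx f)
          have h4 : 0 ≤ Rw * (if w ∈ H f then x f else 0) := by
            apply mul_nonneg hRw0
            split_ifs
            · exact hx f
            · exact le_rfl
          linarith
        · exact absurd htf hvf
        · rw [if_pos htf]
          have h3 := mul_le_mul_of_nonneg_right (hRw f hf htf) (hx f)
          have h4 : 0 ≤ Ru * (if u ∈ H f then x f else 0) := by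
            apply mul_nonneg hRu0
            split_ifs
            · exact hx f
            · exact le_rfl
          linarith
  have h2 := mul_le_mul_of_nonneg_left (Fmass_leaf hx hF he hu hv) hRu0
  have h3 := mul_le_mul_of_nonneg_left (Fmass_leaf hx hF he hw hv) hRw0
  linarith

/-- Mass of the edges of size at least five which meet `e` but not in the centre `v`. -/
noncomputable def T5 (H : E → Finset V) (x : E → ℝ) (R' : Finset E) (e : E) (v : V) : ℝ :=
  ∑ f ∈ R' with (4 < (H f).card ∧ v ∉ H f ∧ ¬ Disjoint (H e) (H f)), x f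

theorem T5_nonneg {H : E → Finset V} {x : E → ℝ} (hx : ∀ e, 0 ≤ x e) (R' : Finset E) (e : E)
    (v : V) : 0 ≤ T5 H x R' e v :=
  sum_nonneg fun f _ => hx f

/-- The large edges of `T5` fit into the leaves. -/
theorem T5_le {H : E → Finset V} {x : E → ℝ} (hx : ∀ e, 0 ≤ x e)
    (hdeg : ∀ v, ∑ f with v ∈ H f, x f ≤ 1) {R' : Finset E} (hR' : ∀ f ∈ R', 3 < (H f).card)
    {e : E} {u v w : V} (hcov : ∀ t ∈ H e, t = u ∨ t = v ∨ t = w) :
    T5 H x R' e v ≤ (1 - p3 H x u - a2 H x u) + (1 - p3 H x w - a2 H x w) := by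
  classical
  have h1 := mass_split hx hdeg hR' u
  have h2 := mass_split hx hdeg hR' w
  have h3 : T5 H x R' e v ≤ ∑ f ∈ R' with u ∈ H f, x f + ∑ f ∈ R' with w ∈ H f, x f := by
    unfold T5
    simp only [sum_filter]
    rw [← sum_add_distrib]
    refine sum_le_sum fun f hf => ?_
    have hxf := hx f
    split_ifs with h4 h5 h6 h7 h8
    · linarith
    · linarith
    · linarith
    · exfalso
      obtain ⟨t, ht, htf⟩ := not_disjoint_iff.1 h4.2.2
      rcases hcov t ht with rfl | rfl | rfl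
      · exact h5 htf
      · exact h4.2.1 htf
      · exact h7 htf
    all_goals linarith
  linarith

/-- **Head.** -/
theorem head_three {H : E → Finset V} {x : E → ℝ} (hx : ∀ e, 0 ≤ x e)
    (hdeg : ∀ v, ∑ f with v ∈ H f, x f ≤ 1) {c C c2 : ℝ} (hc : 0 < c) (hC : 0 < C)
    (hC2 : C ≤ c2) {F R' : Finset E} (hF : ∀ f ∈ F, (H f).card = 3)
    (hR' : ∀ f ∈ R', 3 < (H f).card) {κ s y1 : E → ℝ}
    (hs : ∀ f ∈ F, s f ≤ (1 + κ f) * (x f / c)) (hy1 : ∀ f ∈ R', y1 f ≤ x f / C)
    (hy2 : ∀ f ∈ R', 4 < (H f).card → y1 f ≤ x f / c2) {e : E} (he : e ∈ F) {u v w : V}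
    (hu : u ∈ H e) (hv : v ∈ H e) (hw : w ∈ H e)
    (hcov : ∀ t ∈ H e, t = u ∨ t = v ∨ t = w) {Ru Rw : ℝ} (hRu0 : 0 ≤ Ru) (hRw0 : 0 ≤ Rw)
    (hRu : ∀ f ∈ F, u ∈ H f → 1 + κ f ≤ Ru) (hRw : ∀ f ∈ F, w ∈ H f → 1 + κ f ≤ Rw) :
    2 * c - 6 * (c / C) + 2 * (c / C) * (a2 H x u + a2 H x v + a2 H x w) +
      (2 * (c / C) - 1) * ∑ f ∈ F with v ∈ H f, x f + 4 * (c / C) * x e +
      (2 * (c / C) - Ru) * (p3 H x u - x e) + (2 * (c / C) - Rw) * (p3 H x w - x e) +
      2 * (c / C - c / c2) * T5 H x R' e v - ∑ f ∈ F with v ∈ H f, κ f * x f ≤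
      c * (2 * (1 - ∑ f ∈ R' with ¬ Disjoint (H e) (H f), y1 f) -
        ∑ f ∈ F with ¬ Disjoint (H e) (H f), s f) := by
  classical
  have hFp := Fpart hx hc hF hs he hu hv hw hcov hRu0 hRw0 hRu hRw
  have hC2' : 0 < c2 := hC.trans_le hC2
  -- the large edges
  have h1 : ∑ f ∈ R' with ¬ Disjoint (H e) (H f), y1 f ≤
      1 / C * (∑ f ∈ R' with u ∈ H f, x f + ∑ f ∈ R' with v ∈ H f, x f +
        ∑ f ∈ R' with w ∈ H f, x f) - (1 / C - 1 / c2) * T5 H x R' e v := by
    unfold T5
    have e1 : ∀ a b d t : ℝ, 1 / C * (a + b + d) - (1 / C - 1 / c2) * t =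
        1 / C * a + 1 / C * b + 1 / C * d - (1 / C - 1 / c2) * t := by
      intro a b d t; ring
    rw [e1]
    simp only [sum_filter, mul_sum]
    rw [← sum_add_distrib, ← sum_add_distrib, ← sum_sub_distrib]
    refine sum_le_sum fun f hf => ?_
    have hxf := hx f
    have hxC : 0 ≤ 1 / C * x f := mul_nonneg (by positivity) hxf
    have hy1' : y1 f ≤ 1 / C * x f := by
      have := hy1 f hf
      have e2 : x f / C = 1 / C * x f := by ring
      linarith
    have hnn : ∀ t : V, 0 ≤ 1 / C * (if t ∈ H f then x f else 0) := by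
      intro t
      split_ifs
      · exact hxC
      · simp
    have hU := hnn u
    have hVV := hnn v
    have hWW := hnn w
    by_cases hd : Disjoint (H e) (H f)
    · have hT' : ¬ (4 < (H f).card ∧ v ∉ H f ∧ ¬ Disjoint (H e) (H f)) := fun h => h.2.2 hd
      rw [if_neg (not_not.2 hd), if_neg hT', mul_zero]
      linarith
    · rw [if_pos hd]
      have hone : 1 / C * x f ≤ 1 / C * (if u ∈ H f then x f else 0) +
          1 / C * (if v ∈ H f then x f else 0) + 1 / C * (if w ∈ H f then x f else 0) := by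
        obtain ⟨t, ht, htf⟩ := not_disjoint_iff.1 hd
        rcases hcov t ht with rfl | rfl | rfl
        · rw [if_pos htf]; linarith
        · rw [if_pos htf]; linarith
        · rw [if_pos htf]; linarith
      by_cases hT : 4 < (H f).card ∧ v ∉ H f ∧ ¬ Disjoint (H e) (H f)
      · rw [if_pos hT]
        have := hy2 f hf hT.1
        have e2 : x f / c2 = 1 / c2 * x f := by ring
        rw [e2] at this
        nlinarith
      · rw [if_neg hT, mul_zero]
        linarith
  have hmu := mass_split hx hdeg hR' u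
  have hmv := mass_split hx hdeg hR' v
  have hmw := mass_split hx hdeg hR' w
  have hXv := Fmass_le hx hF v
  have hg : 0 < c / C := div_pos hc hC
  have h2 := mul_le_mul_of_nonneg_left h1 hc.le
  set S1 := ∑ f ∈ R' with ¬ Disjoint (H e) (H f), y1 f
  set ru := ∑ f ∈ R' with u ∈ H f, x f
  set rv := ∑ f ∈ R' with v ∈ H f, x f
  set rw' := ∑ f ∈ R' with w ∈ H f, x f
  set Xv := ∑ f ∈ F with v ∈ H f, x f
  set T := T5 H x R' e v
  have h3 : c * (1 / C * (ru + rv + rw') - (1 / C - 1 / c2) * T) =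
      c / C * (ru + rv + rw') - (c / C - c / c2) * T := by
    field_simp
  rw [h3] at h2
  have h4 : c / C * (ru + rv + rw') ≤ c / C * (3 - (a2 H x u + a2 H x v + a2 H x w) -
      p3 H x u - Xv - p3 H x w) := mul_le_mul_of_nonneg_left (by linarith) hg.le
  nlinarith

/-- **Acceptance of a request at both leaves** (edges of size four avoiding the centre may be
deleted). -/
theorem acc_both {H : E → Finset V} {x : E → ℝ} (hx : ∀ e, 0 ≤ x e)
    (hdeg : ∀ v, ∑ f with v ∈ H f, x f ≤ 1) {c C c2 : ℝ} (hc : 0 < c) (hC : 0 < C)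
    (hC2 : 0 < c2) {F R' : Finset E} (hF : ∀ f ∈ F, (H f).card = 3)
    (hR' : ∀ f ∈ R', 3 < (H f).card) {κ s y1 : E → ℝ}
    (hs : ∀ f ∈ F, s f ≤ (1 + κ f) * (x f / c)) (hy1 : ∀ f ∈ R', y1 f ≤ x f / C)
    (hy2 : ∀ f ∈ R', 4 < (H f).card → y1 f ≤ x f / c2) {e : E} (he : e ∈ F) {u v w : V}
    (hu : u ∈ H e) (hv : v ∈ H e) (hw : w ∈ H e)
    (hcov : ∀ t ∈ H e, t = u ∨ t = v ∨ t = w) {Ru Rw : ℝ} (hRu0 : 0 ≤ Ru) (hRw0 : 0 ≤ Rw)
    (hRu : ∀ f ∈ F, u ∈ H f → 1 + κ f ≤ Ru) (hRw : ∀ f ∈ F, w ∈ H f → 1 + κ f ≤ Rw) :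
    c - (∑ f ∈ F with v ∈ H f, x f + ∑ f ∈ F with v ∈ H f, κ f * x f) -
      Ru * (p3 H x u - x e) - Rw * (p3 H x w - x e) -
      c / C * (1 - ∑ f ∈ F with v ∈ H f, x f - a2 H x v) - c / c2 * T5 H x R' e v ≤
      c * (1 - ∑ f ∈ F with ¬ Disjoint (H e) (H f), s f -
        ∑ f ∈ R' with (¬ Disjoint (H e) (H f) ∧ ¬ ((H f).card = 4 ∧ v ∉ H f)), y1 f) := by
  classical
  have hFp := Fpart hx hc hF hs he hu hv hw hcov hRu0 hRw0 hRu hRw
  have h1 : ∑ f ∈ R' with (¬ Disjoint (H e) (H f) ∧ ¬ ((H f).card = 4 ∧ v ∉ H f)), y1 f ≤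
      1 / C * ∑ f ∈ R' with v ∈ H f, x f + 1 / c2 * T5 H x R' e v := by
    unfold T5
    simp only [sum_filter, mul_sum]
    rw [← sum_add_distrib]
    refine sum_le_sum fun f hf => ?_
    have hxf := hx f
    have hxC : 0 ≤ 1 / C * x f := mul_nonneg (by positivity) hxf
    have hxc2 : 0 ≤ 1 / c2 * x f := mul_nonneg (by positivity) hxf
    have hy1' : y1 f ≤ 1 / C * x f := by
      have := hy1 f hf
      have e2 : x f / C = 1 / C * x f := by ring
      linarith
    by_cases hvf : v ∈ H f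
    · rw [if_pos hvf]
      split_ifs <;> linarith
    · rw [if_neg hvf]
      by_cases hcond : ¬ Disjoint (H e) (H f) ∧ ¬ ((H f).card = 4 ∧ v ∉ H f)
      · have h4 : 4 < (H f).card := by
          have := hR' f hf
          by_contra hlt
          exact hcond.2 ⟨by omega, hvf⟩
        rw [if_pos hcond, if_pos ⟨h4, hvf, hcond.1⟩]
        have := hy2 f hf h4
        have e2 : x f / c2 = 1 / c2 * x f := by ring
        linarith
      · rw [if_neg hcond]
        split_ifs <;> linarith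
  have hmv := mass_split hx hdeg hR' v
  have hXv := Fmass_le hx hF v
  have hg : 0 < c / C := div_pos hc hC
  have h2 := mul_le_mul_of_nonneg_left h1 hc.le
  set S1 := ∑ f ∈ R' with (¬ Disjoint (H e) (H f) ∧ ¬ ((H f).card = 4 ∧ v ∉ H f)), y1 f
  set rv := ∑ f ∈ R' with v ∈ H f, x f
  set Xv := ∑ f ∈ F with v ∈ H f, x f
  set T := T5 H x R' e v
  have h3 : c * (1 / C * rv + 1 / c2 * T) = c / C * rv + c / c2 * T := by
    field_simp
  rw [h3] at h2
  have h4 : c / C * rv ≤ c / C * (1 - Xv - a2 H x v) :=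
    mul_le_mul_of_nonneg_left (by linarith) hg.le
  nlinarith

/-- **Acceptance of a request at the own leaf** (edges of size four meeting `e` only in `u` may
be deleted). -/
theorem acc_own {H : E → Finset V} {x : E → ℝ} (hx : ∀ e, 0 ≤ x e)
    (hdeg : ∀ v, ∑ f with v ∈ H f, x f ≤ 1) {c C c2 : ℝ} (hc : 0 < c) (hC : 0 < C)
    (hC2 : 0 < c2) {F R' : Finset E} (hF : ∀ f ∈ F, (H f).card = 3)
    (hR' : ∀ f ∈ R', 3 < (H f).card) {κ s y1 : E → ℝ}
    (hs : ∀ f ∈ F, s f ≤ (1 + κ f) * (x f / c)) (hy1 : ∀ f ∈ R', y1 f ≤ x f / C)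
    (hy2 : ∀ f ∈ R', 4 < (H f).card → y1 f ≤ x f / c2) {e : E} (he : e ∈ F) {u v w : V}
    (hu : u ∈ H e) (hv : v ∈ H e) (hw : w ∈ H e)
    (hcov : ∀ t ∈ H e, t = u ∨ t = v ∨ t = w) {Ru Rw : ℝ} (hRu0 : 0 ≤ Ru) (hRw0 : 0 ≤ Rw)
    (hRu : ∀ f ∈ F, u ∈ H f → 1 + κ f ≤ Ru) (hRw : ∀ f ∈ F, w ∈ H f → 1 + κ f ≤ Rw) :
    c - (∑ f ∈ F with v ∈ H f, x f + ∑ f ∈ F with v ∈ H f, κ f * x f) -
      Ru * (p3 H x u - x e) - Rw * (p3 H x w - x e) -
      c / C * (1 - ∑ f ∈ F with v ∈ H f, x f - a2 H x v) - c / c2 * T5 H x R' e v -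
      c / C * (1 - p3 H x w - a2 H x w) ≤
      c * (1 - ∑ f ∈ F with ¬ Disjoint (H e) (H f), s f -
        ∑ f ∈ R' with (¬ Disjoint (H e) (H f) ∧ ¬ ((H f).card = 4 ∧ H e ∩ H f = {u})),
          y1 f) := by
  classical
  have hFp := Fpart hx hc hF hs he hu hv hw hcov hRu0 hRw0 hRu hRw
  have h1 : ∑ f ∈ R' with (¬ Disjoint (H e) (H f) ∧ ¬ ((H f).card = 4 ∧ H e ∩ H f = {u})),
      y1 f ≤ 1 / C * ∑ f ∈ R' with v ∈ H f, x f + 1 / c2 * T5 H x R' e v +
        1 / C * ∑ f ∈ R' with w ∈ H f, x f := by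
    unfold T5
    simp only [sum_filter, mul_sum]
    rw [← sum_add_distrib, ← sum_add_distrib]
    refine sum_le_sum fun f hf => ?_
    have hxf := hx f
    have hxC : 0 ≤ 1 / C * x f := mul_nonneg (by positivity) hxf
    have hxc2 : 0 ≤ 1 / c2 * x f := mul_nonneg (by positivity) hxf
    have hy1' : y1 f ≤ 1 / C * x f := by
      have := hy1 f hf
      have e2 : x f / C = 1 / C * x f := by ring
      linarith
    by_cases hvf : v ∈ H f
    · rw [if_pos hvf]
      split_ifs <;> linarith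
    · by_cases hwf : w ∈ H f
      · rw [if_pos hwf]
        split_ifs <;> linarith
      · rw [if_neg hvf, if_neg hwf]
        by_cases hcond : ¬ Disjoint (H e) (H f) ∧ ¬ ((H f).card = 4 ∧ H e ∩ H f = {u})
        · have h3 : H e ∩ H f = {u} := by
            obtain ⟨t, ht, htf⟩ := not_disjoint_iff.1 hcond.1
            have h4 : ∀ t ∈ H e, t ∈ H f → t = u := by
              intro t ht htf
              rcases hcov t ht with h | h | h
              · exact h
              · exact absurd (h ▸ htf) hvf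
              · exact absurd (h ▸ htf) hwf
            ext t'
            rw [mem_inter, mem_singleton]
            constructor
            · exact fun h => h4 t' h.1 h.2
            · rintro rfl
              refine ⟨hu, ?_⟩
              rw [← h4 t ht htf]
              exact htf
          have h4 : 4 < (H f).card := by
            have := hR' f hf
            by_contra hlt
            exact hcond.2 ⟨by omega, h3⟩
          rw [if_pos hcond, if_pos ⟨h4, hvf, hcond.1⟩]
          have := hy2 f hf h4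
          have e2 : x f / c2 = 1 / c2 * x f := by ring
          linarith
        · rw [if_neg hcond]
          split_ifs <;> linarith
  have hmv := mass_split hx hdeg hR' v
  have hmw := mass_split hx hdeg hR' w
  have hXv := Fmass_le hx hF v
  have hg : 0 < c / C := div_pos hc hC
  have h2 := mul_le_mul_of_nonneg_left h1 hc.le
  set S1 := ∑ f ∈ R' with (¬ Disjoint (H e) (H f) ∧ ¬ ((H f).card = 4 ∧ H e ∩ H f = {u})), y1 f
  set rv := ∑ f ∈ R' with v ∈ H f, x f
  set rw' := ∑ f ∈ R' with w ∈ H f, x f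
  set Xv := ∑ f ∈ F with v ∈ H f, x f
  set T := T5 H x R' e v
  have h3 : c * (1 / C * rv + 1 / c2 * T + 1 / C * rw') =
      c / C * rv + c / c2 * T + c / C * rw' := by
    field_simp
  rw [h3] at h2
  have h4 : c / C * rv ≤ c / C * (1 - Xv - a2 H x v) :=
    mul_le_mul_of_nonneg_left (by linarith) hg.le
  have h5 : c / C * rw' ≤ c / C * (1 - p3 H x w - a2 H x w) :=
    mul_le_mul_of_nonneg_left (by linarith) hg.le
  nlinarith

/-- Inflation of the edges of size three at a vertex. -/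
theorem one_add_kap3_le {H : E → Finset V} {x : E → ℝ} (hx : ∀ e, 0 ≤ x e) {f : E}
    (hf : (H f).card = 3) {t : V} (ht : t ∈ H f) :
    1 + kap3 H x f ≤ 500 / 477 + 1577 / 5000 * a2 H x t ∧ 1 + kap3 H x f ≤ 1000 / 931 := by
  refine ⟨?_, by linarith [kap3_le hx hf]⟩
  have h1 := charge_le hx hf ht
  have h2 := charge_nonneg (H := H) hx f
  have h3 := charge_le' hx hf
  have h4 := phi_le_mul (a2_nonneg (H := H) hx t)
  have h5 := phi_le (a2_nonneg (H := H) hx t)
  have h6 := a2_nonneg (H := H) hx t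
  unfold kap3
  set P := ∑ v ∈ H f, phi (a2 H x v)
  set b := a2 H x t
  have h7 : P ≤ 7 / 25 * b + 46 / 1000 := by linarith
  have e1 : 1 + (1 / (1 - P) - 1) = 1 / (1 - P) := by ring
  rw [e1, div_le_iff₀ (by linarith)]
  nlinarith

end H70.FKS
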