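import Mathlib
import Pool.Agent.H70.FKS.ThreeLow
import Pool.Agent.H76.FKS.ThreeDefs

/-!
# Level three: the domain of the parameters and the lower bounds in the units of `ThreeDefs`
-/

set_option autoImplicit false
set_option linter.unusedSectionVars false
set_option linter.unusedVariables false

namespace H70.FKS

open Finset H4.FKS H34.FKS H90.FKS H76.FKS

variable {V E : Type} [Fintype V] [DecidableEq V] [DecidableEq E] [Fintype E]

theorem phi_le_min {t : ℝ} (ht : 0 ≤ t) : phi t ≤ min (7 / 25 * t) (23 / 1000) :=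
  le_min (phi_le_mul ht) (phi_le ht)

theorem min_small (b : ℝ) : min (7 / 25 * b) (23 / 1000) ≤ 23 / 1000 := min_le_right _ _

/-- Inflation at a vertex. -/
theorem kap3_Rb {H : E → Finset V} {x : E → ℝ} (hx : ∀ e, 0 ≤ x e) {f : E}
    (hf : (H f).card = 3) {t : V} (ht : t ∈ H f) : 1 + kap3 H x f ≤ Rb (a2 H x t) := by
  have h1 := charge_le hx hf ht
  have h2 := phi_le_min (a2_nonneg (H := H) hx t)
  have h3 := min_small (a2 H x t)
  have h4 := charge_le' hx hf
  unfold kap3 Rb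
  set P := ∑ v ∈ H f, phi (a2 H x v)
  set m := min (7 / 25 * a2 H x t) (23 / 1000)
  have e1 : 1 + (1 / (1 - P) - 1) = 1 / (1 - P) := by ring
  rw [e1]
  apply one_div_le_one_div_of_le
  · linarith
  · linarith

theorem Rb_nonneg (b : ℝ) : 0 ≤ Rb b := by
  unfold Rb
  have := min_small b
  apply div_nonneg zero_le_one
  linarith

/-- Third vertex. -/
theorem third {S : Finset V} (hS : S.card = 3) {u v : V} (hu : u ∈ S) (hv : v ∈ S)
    (huv : u ≠ v) : ∃ w, u ≠ w ∧ v ≠ w ∧ S = {u, v, w} := by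
  have h1 : ((S.erase u).erase v).card = 1 := by
    rw [card_erase_of_mem (mem_erase.2 ⟨huv.symm, hv⟩), card_erase_of_mem hu, hS]
  obtain ⟨w, hw⟩ := card_eq_one.1 h1
  have hw' : w ∈ (S.erase u).erase v := by rw [hw]; exact mem_singleton_self w
  obtain ⟨h2, h3⟩ := mem_erase.1 hw'
  obtain ⟨h4, h5⟩ := mem_erase.1 h3
  refine ⟨w, h4.symm, h2.symm, ?_⟩
  have h6 : insert v ((S.erase u).erase v) = S.erase u :=
    insert_erase (mem_erase.2 ⟨huv.symm, hv⟩)
  have h7 : insert u (S.erase u) = S := insert_erase hu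
  rw [← h7, ← h6, hw]

section dom

variable {H : E → Finset V} {x : E → ℝ} {F R' : Finset E}

/-- `F`-mass at a vertex. -/
noncomputable def XF (H : E → Finset V) (x : E → ℝ) (F : Finset E) (v : V) : ℝ :=
  ∑ f ∈ F with v ∈ H f, x f

/-- Inflation of the star at a vertex. -/
noncomputable def KF (H : E → Finset V) (x : E → ℝ) (F : Finset E) (v : V) : ℝ :=
  ∑ f ∈ F with v ∈ H f, kap3 H x f * x f

/-- The parameters of an edge and its centre are in the domain. -/
theorem dom_three (hx : ∀ e, 0 ≤ x e) (hdeg : ∀ v, ∑ f with v ∈ H f, x f ≤ 1)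
    (hF : ∀ f ∈ F, (H f).card = 3) (hR' : ∀ f ∈ R', 3 < (H f).card) {e : E} (he : e ∈ F)
    (hxe : x e ≠ 0) {u v w : V} (huv : u ≠ v) (huw : u ≠ w) (hvw : v ≠ w)
    (hH : H e = {u, v, w}) :
    Dom (XF H x F v) (x e) (p3 H x u - x e) (p3 H x w - x e) (a2 H x u) (a2 H x v) (a2 H x w)
      (T5 H x R' e v) (kap3 H x e) (KF H x F v) := by
  have hu : u ∈ H e := by rw [hH]; simp
  have hv : v ∈ H e := by rw [hH]; simp
  have hw : w ∈ H e := by rw [hH]; simp
  have hxX : x e ≤ XF H x F v :=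
    single_le_sum (f := x) (fun f _ => hx f) (mem_filter.2 ⟨he, hv⟩)
  have hm := mass_split (R' := ∅) hx hdeg (by simp)
  have hmu := hm u
  have hmv := hm v
  have hmw := hm w
  simp only [filter_empty, sum_empty, zero_add] at hmu hmv hmw
  have hXp : XF H x F v ≤ p3 H x v := Fmass_le hx hF v
  have hpu := le_p3 hx (hF e he) hu
  have hpw := le_p3 hx (hF e he) hw
  refine ⟨hx e, hxX, lt_of_lt_of_le (lt_of_le_of_ne (hx e) (Ne.symm hxe)) hxX, by linarith,
    by linarith, a2_nonneg hx u, a2_nonneg hx v, a2_nonneg hx w, by linarith, by linarith,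
    by linarith, T5_nonneg hx R' e v, kap3_nonneg hx (hF e he), ?_, ?_, ?_⟩
  · unfold kap3
    have h1 : ∑ t ∈ H e, phi (a2 H x t) ≤ min (7 / 25 * a2 H x u) (23 / 1000) +
        min (7 / 25 * a2 H x v) (23 / 1000) + min (7 / 25 * a2 H x w) (23 / 1000) := by
      rw [hH, sum_insert (by simp [huv, huw]), sum_insert (by simp [hvw]), sum_singleton]
      have := phi_le_min (a2_nonneg (H := H) hx u)
      have := phi_le_min (a2_nonneg (H := H) hx v)
      have := phi_le_min (a2_nonneg (H := H) hx w)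
      linarith
    have h2 := min_small (a2 H x u)
    have h3 := min_small (a2 H x v)
    have h4 := min_small (a2 H x w)
    have h5 := charge_le' hx (hF e he)
    have h6 : 1 / (1 - ∑ t ∈ H e, phi (a2 H x t)) ≤ 1 / (1 - (min (7 / 25 * a2 H x u) (23 / 1000) +
        min (7 / 25 * a2 H x v) (23 / 1000) + min (7 / 25 * a2 H x w) (23 / 1000))) := by
      apply one_div_le_one_div_of_le
      · linarith
      · linarith
    linarith
  · exact sum_nonneg fun f hf =>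
      mul_nonneg (kap3_nonneg hx (hF f (mem_filter.1 hf).1)) (hx f)
  · unfold KF XF
    rw [sum_mul]
    refine sum_le_sum fun f hf => ?_
    obtain ⟨hfF, hfv⟩ := mem_filter.1 hf
    have h1 := kap3_Rb hx (hF f hfF) hfv
    have h2 := mul_le_mul_of_nonneg_left (show kap3 H x f ≤ Rb (a2 H x v) - 1 by linarith) (hx f)
    linarith

/-- **Head**, in the units of `ThreeDefs`. -/
theorem head_c (hx : ∀ e, 0 ≤ x e) (hdeg : ∀ v, ∑ f with v ∈ H f, x f ≤ 1)
    (hF : ∀ f ∈ F, (H f).card = 3) (hR' : ∀ f ∈ R', 3 < (H f).card) {y1 : E → ℝ}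
    (hy1 : ∀ f ∈ R', y1 f ≤ x f / (117 / 37))
    (hy2 : ∀ f ∈ R', 4 < (H f).card → y1 f ≤ x f / (21 / 5)) {e : E} (he : e ∈ F) {u v w : V}
    (huv : u ≠ v) (huw : u ≠ w) (hvw : v ≠ w) (hH : H e = {u, v, w}) :
    hlow (XF H x F v) (x e) (p3 H x u - x e) (p3 H x w - x e) (a2 H x u) (a2 H x v) (a2 H x w)
      (T5 H x R' e v) - KF H x F v ≤
    7 / 3 * (2 * (1 - ∑ f ∈ R' with ¬ Disjoint (H e) (H f), y1 f) -
        ∑ f ∈ F with ¬ Disjoint (H e) (H f), (1 + kap3 H x f) * (x f / (7 / 3))) := by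
  have hu : u ∈ H e := by rw [hH]; simp
  have hv : v ∈ H e := by rw [hH]; simp
  have hw : w ∈ H e := by rw [hH]; simp
  have hcov : ∀ t ∈ H e, t = u ∨ t = v ∨ t = w := by
    intro t ht
    rw [hH] at ht
    simpa using ht
  have h1 := head_three hx hdeg (c := 7 / 3) (C := 117 / 37) (c2 := 21 / 5) (by norm_num)
    (by norm_num) (by norm_num) hF hR' (κ := kap3 H x)
    (s := fun f => (1 + kap3 H x f) * (x f / (7 / 3))) (fun f _ => le_rfl) hy1 hy2 he hu hv hw
    hcov (Rb_nonneg (a2 H x u)) (Rb_nonneg (a2 H x w))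
    (fun f hf h => kap3_Rb hx (hF f hf) h) (fun f hf h => kap3_Rb hx (hF f hf) h)
  refine le_trans (le_of_eq ?_) h1
  unfold hlow XF KF
  norm_num

/-- **Acceptance at both leaves**, in the units of `ThreeDefs`. -/
theorem acc2_c (hx : ∀ e, 0 ≤ x e) (hdeg : ∀ v, ∑ f with v ∈ H f, x f ≤ 1)
    (hF : ∀ f ∈ F, (H f).card = 3) (hR' : ∀ f ∈ R', 3 < (H f).card) {s y1 : E → ℝ}
    (hs : ∀ f ∈ F, s f ≤ (1 + kap3 H x f) * (x f / (7 / 3)))
    (hy1 : ∀ f ∈ R', y1 f ≤ x f / (117 / 37))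
    (hy2 : ∀ f ∈ R', 4 < (H f).card → y1 f ≤ x f / (21 / 5)) {e : E} (he : e ∈ F) {u v w : V}
    (huv : u ≠ v) (huw : u ≠ w) (hvw : v ≠ w) (hH : H e = {u, v, w}) :
    alow2 (XF H x F v) (p3 H x u - x e) (p3 H x w - x e) (a2 H x u) (a2 H x v) (a2 H x w)
      (T5 H x R' e v) (KF H x F v) ≤
    7 / 3 * (1 - ∑ f ∈ F with ¬ Disjoint (H e) (H f), s f -
        ∑ f ∈ R' with (¬ Disjoint (H e) (H f) ∧ ¬ ((H f).card = 4 ∧ v ∉ H f)), y1 f) := by
  have hu : u ∈ H e := by rw [hH]; simp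
  have hv : v ∈ H e := by rw [hH]; simp
  have hw : w ∈ H e := by rw [hH]; simp
  have hcov : ∀ t ∈ H e, t = u ∨ t = v ∨ t = w := by
    intro t ht
    rw [hH] at ht
    simpa using ht
  have h1 := acc_both hx hdeg (c := 7 / 3) (C := 117 / 37) (c2 := 21 / 5) (by norm_num)
    (by norm_num) (by norm_num) hF hR' (κ := kap3 H x) hs hy1 hy2 he hu hv hw
    hcov (Rb_nonneg (a2 H x u)) (Rb_nonneg (a2 H x w))
    (fun f hf h => kap3_Rb hx (hF f hf) h) (fun f hf h => kap3_Rb hx (hF f hf) h)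
  refine le_trans (le_of_eq ?_) h1
  unfold alow2 XF KF
  norm_num

/-- **Acceptance at the own leaf**, in the units of `ThreeDefs`. -/
theorem acc1_c (hx : ∀ e, 0 ≤ x e) (hdeg : ∀ v, ∑ f with v ∈ H f, x f ≤ 1)
    (hF : ∀ f ∈ F, (H f).card = 3) (hR' : ∀ f ∈ R', 3 < (H f).card) {s y1 : E → ℝ}
    (hs : ∀ f ∈ F, s f ≤ (1 + kap3 H x f) * (x f / (7 / 3)))
    (hy1 : ∀ f ∈ R', y1 f ≤ x f / (117 / 37))
    (hy2 : ∀ f ∈ R', 4 < (H f).card → y1 f ≤ x f / (21 / 5)) {e : E} (he : e ∈ F) {u v w : V}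
    (huv : u ≠ v) (huw : u ≠ w) (hvw : v ≠ w) (hH : H e = {u, v, w}) :
    alow (XF H x F v) (x e) (p3 H x u - x e) (p3 H x w - x e) (a2 H x u) (a2 H x v) (a2 H x w)
      (T5 H x R' e v) (KF H x F v) ≤
    7 / 3 * (1 - ∑ f ∈ F with ¬ Disjoint (H e) (H f), s f -
        ∑ f ∈ R' with (¬ Disjoint (H e) (H f) ∧ ¬ ((H f).card = 4 ∧ H e ∩ H f = {u})),
          y1 f) := by
  have hu : u ∈ H e := by rw [hH]; simp
  have hv : v ∈ H e := by rw [hH]; simp
  have hw : w ∈ H e := by rw [hH]; simp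
  have hcov : ∀ t ∈ H e, t = u ∨ t = v ∨ t = w := by
    intro t ht
    rw [hH] at ht
    simpa using ht
  have h1 := acc_own hx hdeg (c := 7 / 3) (C := 117 / 37) (c2 := 21 / 5) (by norm_num)
    (by norm_num) (by norm_num) hF hR' (κ := kap3 H x) hs hy1 hy2 he hu hv hw
    hcov (Rb_nonneg (a2 H x u)) (Rb_nonneg (a2 H x w))
    (fun f hf h => kap3_Rb hx (hF f hf) h) (fun f hf h => kap3_Rb hx (hF f hf) h)
  refine le_trans (le_of_eq ?_) h1
  unfold alow XF KF
  norm_num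
  ring

end dom

end H70.FKS
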