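import Mathlib
import Pool.Agent.H70.FKS.ThreeDom

/-!
# Level three: the head of an edge
-/

set_option autoImplicit false
set_option linter.unusedSectionVars false
set_option linter.unusedVariables false

namespace H70.FKS

open Finset H4.FKS H34.FKS H90.FKS H76.FKS

variable {V E : Type} [Fintype V] [DecidableEq V] [DecidableEq E] [Fintype E]

/-- The head `2 l_e - Yh_e`. -/
noncomputable def Hh3 (H : E → Finset V) (x : E → ℝ) (F R' : Finset E) (y1 : E → ℝ)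
    (e : E) : ℝ :=
  2 * (1 - ∑ f ∈ R' with ¬ Disjoint (H e) (H f), y1 f) -
    ∑ f ∈ F with ¬ Disjoint (H e) (H f), (1 + kap3 H x f) * (x f / (7 / 3))

/-- The thinned demand. -/
noncomputable def s3 (H : E → Finset V) (x z : E → ℝ) (e : E) : ℝ :=
  (1 + kap3 H x e - z e) * (x e / (7 / 3))

/-- Statement of the clique bound (proved in `H4/FKS/ThreeClique.lean`). -/
def CliqueThree : Prop :=
  ∀ {V E : Type} [Fintype V] [DecidableEq V] [DecidableEq E] [Fintype E] {H : E → Finset V}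
    {x : E → ℝ}, (∀ e, 0 ≤ x e) → (∀ v, ∑ f with v ∈ H f, x f ≤ 1) → ∀ {rep : E → V},
    (∀ e, x e ≠ 0 → rep e ∈ H e) → (∀ e f, x e ≠ 0 → x f ≠ 0 → rep e = rep f → e = f) →
    ∀ {F R' : Finset E}, (∀ f ∈ F, (H f).card = 3) → (∀ f ∈ R', 3 < (H f).card) →
    ∀ {y1 z : E → ℝ}, (∀ f ∈ R', y1 f ≤ x f / (117 / 37)) →
    (∀ f ∈ R', 4 < (H f).card → y1 f ≤ x f / (21 / 5)) →
    (∀ e ∈ F, 0 ≤ z e ∧ z e ≤ 7 / 40) →
    (∀ e ∈ F, x e ≠ 0 → ∀ v ∈ H e, v ≠ rep e →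
      num (XF H x F v) (kap3 H x e) (KF H x F v) (7 / 3 * Hh3 H x F R' y1 e) ≤
        z e * (av (XF H x F v) + 7 / 3 * Hh3 H x F R' y1 e)) →
    (∀ e ∈ F, Hh3 H x F R' y1 e ≤ 1) → ∀ {C : Finset E}, C ⊆ F →
    (∀ a ∈ C, 0 < s3 H x z a) → (∀ a ∈ C, ∀ b ∈ C, ¬ Disjoint (H a) (H b)) →
    ∑ a ∈ C, s3 H x z a / (2 * (1 - ∑ f ∈ R' with ¬ Disjoint (H a) (H f), y1 f) -
      ∑ f ∈ F with ¬ Disjoint (H a) (H f), s3 H x z f) ≤ 1

end H70.FKS
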