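import Mathlib
import Pool.Agent.H70.FKS.ThreeLow
import Pool.Agent.H76.FKS.ThreeDefs

/-!
# Level three: the charges of the edges of size four
-/

set_option autoImplicit false
set_option linter.unusedSectionVars false
set_option linter.unusedVariables false

namespace H70.FKS

open Finset H4.FKS H34.FKS H90.FKS H76.FKS

variable {V E : Type} [Fintype V] [DecidableEq V] [DecidableEq E] [Fintype E]

/-- Charge of the edge `g` of size four. -/
noncomputable def Phi4 (H : E → Finset V) (x : E → ℝ) (rep : E → V) (g : E) : ℝ :=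
  ∑ e with ((H e).card = 3 ∧ x e ≠ 0 ∧ rep e ∈ H g),
      max (x e * om (x e)) (x e * ps (x e)) +
    ∑ t ∈ H g, ∑ e with ((H e).card = 3 ∧ x e ≠ 0 ∧ t ∈ H e ∧ rep e ≠ t),
      x e * ps (p3 H x t)

/-- Inflation of the edges of size four. -/
noncomputable def kap4 (H : E → Finset V) (x : E → ℝ) (rep : E → V) (g : E) : ℝ :=
  if x g = 0 then 0 else 37 / 36 * Phi4 H x rep g

theorem om_nonneg_ch (x : ℝ) : 0 ≤ om x := by
  unfold om
  have := le_max_left 0 (1 - x / (9 / 100))
  positivity

theorem ps_nonneg_ch (t : ℝ) : 0 ≤ ps t := le_max_left _ _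

theorem om_le_ch {x : ℝ} (hx : 0 ≤ x) : om x ≤ 23 / 100 := by
  unfold om
  have h : max 0 (1 - x / (9 / 100)) ≤ 1 := max_le (by norm_num) (by
    have : 0 ≤ x / (9 / 100) := by positivity
    linarith)
  linarith

theorem ps_le_ch {t : ℝ} (ht : 0 ≤ t) : ps t ≤ 23 / 100 := by
  unfold ps
  exact max_le (by norm_num) (by linarith)

theorem ps_anti {s t : ℝ} (h : s ≤ t) : ps t ≤ ps s := by
  unfold ps
  exact max_le_max le_rfl (by linarith)

/-- Charge of a vertex without owner. -/
theorem charge_free {q P : ℝ} (hq : 0 ≤ q) (hqP : q ≤ P) : q * ps P ≤ 9 / 2500 := by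
  unfold ps
  rcases le_total (3 / 50 - P / 4) 0 with h | h
  · rw [max_eq_left h]
    norm_num
  · rw [max_eq_right h]
    nlinarith [sq_nonneg (P - 3 / 25), mul_le_mul_of_nonneg_right hqP h]

/-- Charge of a vertex with an owner of mass `x`. -/
theorem charge_owned {x q P : ℝ} (hx : 0 ≤ x) (hq : 0 ≤ q) (hqP : x + q ≤ P) :
    max (x * om x) (x * ps x) + q * ps P ≤ 39 / 5000 := by
  have hqx : q * ps P ≤ 9 / 2500 := charge_free hq (by linarith)
  have hq2 : q * ps P ≤ (6 / 25 - x) ^ 2 / 16 := by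
    unfold ps
    rcases le_total (3 / 50 - P / 4) 0 with h | h
    · rw [max_eq_left h]
      have := sq_nonneg (6 / 25 - x)
      linarith
    · rw [max_eq_right h]
      have h1 : q * (3 / 50 - P / 4) ≤ (P - x) * (3 / 50 - P / 4) :=
        mul_le_mul_of_nonneg_right (by linarith) h
      nlinarith [sq_nonneg (2 * P - x - 6 / 25)]
  have hA : x * om x + q * ps P ≤ 39 / 5000 := by
    have h1 : om x = 23 / 100 * max 0 (1 - x / (9 / 100)) := rfl
    rcases le_total (1 - x / (9 / 100)) 0 with h | h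
    · rw [h1, max_eq_left h]
      linarith
    · rw [h1, max_eq_right h]
      have h2 : x * (23 / 100 * (1 - x / (9 / 100))) + (6 / 25 - x) ^ 2 / 16 ≤ 39 / 5000 := by
        nlinarith [sq_nonneg (x - 1 / 25)]
      linarith
  have hB : x * ps x + q * ps P ≤ 39 / 5000 := by
    have h1 : ps x = max 0 (3 / 50 - x / 4) := rfl
    rcases le_total (3 / 50 - x / 4) 0 with h | h
    · rw [h1, max_eq_left h]
      linarith
    · rw [h1, max_eq_right h]
      have h2 : x * (3 / 50 - x / 4) + (6 / 25 - x) ^ 2 / 16 ≤ 39 / 5000 := by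
        nlinarith [sq_nonneg (x - 2 / 25)]
      linarith
  rcases le_total (x * om x) (x * ps x) with h | h
  · rw [max_eq_right h]
    exact hB
  · rw [max_eq_left h]
    exact hA

theorem Phi4_nonneg {H : E → Finset V} {x : E → ℝ} (hx : ∀ e, 0 ≤ x e) (rep : E → V) (g : E) :
    0 ≤ Phi4 H x rep g := by
  unfold Phi4
  refine add_nonneg (sum_nonneg fun e _ => ?_)
    (sum_nonneg fun t _ => sum_nonneg fun e _ => mul_nonneg (hx e) (ps_nonneg_ch _))
  exact le_trans (mul_nonneg (hx e) (om_nonneg_ch _)) (le_max_left _ _)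

/-- Charge of the vertex `t`. -/
theorem charge_vertex {H : E → Finset V} {x : E → ℝ} (hx : ∀ e, 0 ≤ x e) {rep : E → V}
    (hrep : ∀ e, x e ≠ 0 → rep e ∈ H e)
    (hinj : ∀ e f, x e ≠ 0 → x f ≠ 0 → rep e = rep f → e = f) (t : V) :
    ∑ e with ((H e).card = 3 ∧ x e ≠ 0 ∧ rep e = t), max (x e * om (x e)) (x e * ps (x e)) +
      ∑ e with ((H e).card = 3 ∧ x e ≠ 0 ∧ t ∈ H e ∧ rep e ≠ t), x e * ps (p3 H x t) ≤
        39 / 5000 ∧
    ((∀ e, (H e).card = 3 → x e ≠ 0 → rep e ≠ t) →
      ∑ e with ((H e).card = 3 ∧ x e ≠ 0 ∧ rep e = t), max (x e * om (x e)) (x e * ps (x e)) +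
        ∑ e with ((H e).card = 3 ∧ x e ≠ 0 ∧ t ∈ H e ∧ rep e ≠ t), x e * ps (p3 H x t) ≤
          9 / 2500) := by
  classical
  set q := ∑ e with ((H e).card = 3 ∧ x e ≠ 0 ∧ t ∈ H e ∧ rep e ≠ t), x e with hq
  have hq0 : 0 ≤ q := sum_nonneg fun e _ => hx e
  have e1 : ∑ e with ((H e).card = 3 ∧ x e ≠ 0 ∧ t ∈ H e ∧ rep e ≠ t), x e * ps (p3 H x t) =
      q * ps (p3 H x t) := by rw [hq, sum_mul]
  rw [e1]
  by_cases h : ∃ o, (H o).card = 3 ∧ x o ≠ 0 ∧ rep o = t
  · obtain ⟨o, ho1, ho2, ho3⟩ := h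
    have e2 : univ.filter (fun e => (H e).card = 3 ∧ x e ≠ 0 ∧ rep e = t) = {o} := by
      ext e
      simp only [mem_filter, mem_univ, true_and, mem_singleton]
      constructor
      · rintro ⟨_, h2, h3⟩
        exact hinj e o h2 ho2 (h3.trans ho3.symm)
      · rintro rfl
        exact ⟨ho1, ho2, ho3⟩
    have hto : t ∈ H o := ho3 ▸ hrep o ho2
    have h3 : x o + q ≤ p3 H x t := by
      have h4 : o ∉ univ.filter (fun e => (H e).card = 3 ∧ x e ≠ 0 ∧ t ∈ H e ∧ rep e ≠ t) := by
        intro h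
        exact (mem_filter.1 h).2.2.2.2 ho3
      rw [hq, ← sum_insert h4]
      unfold p3
      apply sum_le_sum_of_subset_of_nonneg
      · intro f hf
        rcases mem_insert.1 hf with rfl | h
        · exact mem_filter.2 ⟨mem_univ _, ho1, hto⟩
        · have h5 := (mem_filter.1 h).2
          exact mem_filter.2 ⟨mem_univ _, h5.1, h5.2.2.1⟩
      · exact fun f _ _ => hx f
    rw [e2, sum_singleton]
    refine ⟨charge_owned (hx o) hq0 h3, fun h => absurd ho3 (h o ho1 ho2)⟩
  · have e2 : univ.filter (fun e => (H e).card = 3 ∧ x e ≠ 0 ∧ rep e = t) = ∅ := by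
      ext e
      simp only [mem_filter, mem_univ, true_and, notMem_empty, iff_false]
      exact fun h' => h ⟨e, h'⟩
    have h3 : q ≤ p3 H x t := by
      rw [hq]
      unfold p3
      apply sum_le_sum_of_subset_of_nonneg
      · intro f hf
        have h5 := (mem_filter.1 hf).2
        exact mem_filter.2 ⟨mem_univ _, h5.1, h5.2.2.1⟩
      · exact fun f _ _ => hx f
    rw [e2, sum_empty, zero_add]
    have h4 := charge_free hq0 h3
    exact ⟨by linarith, fun _ => h4⟩

/-- Absolute bound. -/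
theorem Phi4_le {H : E → Finset V} {x : E → ℝ} (hx : ∀ e, 0 ≤ x e) {rep : E → V}
    (hrep : ∀ e, x e ≠ 0 → rep e ∈ H e)
    (hinj : ∀ e f, x e ≠ 0 → x f ≠ 0 → rep e = rep f → e = f) {g : E}
    (hg : (H g).card = 4) (hxg : x g ≠ 0) : Phi4 H x rep g ≤ 1 / 37 := by
  classical
  have e1 : ∑ e with ((H e).card = 3 ∧ x e ≠ 0 ∧ rep e ∈ H g),
      max (x e * om (x e)) (x e * ps (x e)) =
      ∑ t ∈ H g, ∑ e with ((H e).card = 3 ∧ x e ≠ 0 ∧ rep e = t),
        max (x e * om (x e)) (x e * ps (x e)) := by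
    rw [← sum_biUnion]
    · apply sum_congr _ fun _ _ => rfl
      ext e
      simp only [mem_filter, mem_univ, true_and, mem_biUnion]
      constructor
      · rintro ⟨h1, h2, h3⟩
        exact ⟨rep e, h3, h1, h2, rfl⟩
      · rintro ⟨t, ht, h1, h2, h3⟩
        exact ⟨h1, h2, h3 ▸ ht⟩
    · intro s _ t _ hst
      rw [Function.onFun, disjoint_left]
      intro e he he'
      exact hst ((mem_filter.1 he).2.2.2.symm.trans (mem_filter.1 he').2.2.2)
  unfold Phi4
  rw [e1, ← sum_add_distrib, ← add_sum_erase _ _ (hrep g hxg)]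
  have h1 := (charge_vertex hx hrep hinj (rep g)).2 (by
    intro e he1 he2 he3
    have := hinj e g he2 hxg he3
    subst this
    omega)
  have h2 := sum_le_card_nsmul ((H g).erase (rep g))
    (fun t => ∑ e with ((H e).card = 3 ∧ x e ≠ 0 ∧ rep e = t),
        max (x e * om (x e)) (x e * ps (x e)) +
      ∑ e with ((H e).card = 3 ∧ x e ≠ 0 ∧ t ∈ H e ∧ rep e ≠ t), x e * ps (p3 H x t))
    (39 / 5000) (fun t _ => (charge_vertex hx hrep hinj t).1)
  rw [card_erase_of_mem (hrep g hxg), hg, nsmul_eq_mul] at h2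
  norm_num at h2 ⊢
  linarith

/-- Linear bound. -/
theorem Phi4_le_mul {H : E → Finset V} {x : E → ℝ} (hx : ∀ e, 0 ≤ x e) {rep : E → V}
    (hrep : ∀ e, x e ≠ 0 → rep e ∈ H e) (g : E) :
    Phi4 H x rep g ≤ 23 / 100 * bsm H x 4 g := by
  classical
  unfold Phi4 bsm
  simp only [sum_filter]
  rw [sum_comm, ← sum_add_distrib, mul_sum]
  refine sum_le_sum fun e _ => ?_
  by_cases h : (H e).card = 3 ∧ x e ≠ 0
  · obtain ⟨h1, h2⟩ := h
    have hxe := hx e
    have h3 : max (x e * om (x e)) (x e * ps (x e)) ≤ 23 / 100 * x e := by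
      apply max_le
      · have := mul_le_mul_of_nonneg_left (om_le_ch hxe) hxe
        linarith
      · have := mul_le_mul_of_nonneg_left (ps_le_ch hxe) hxe
        linarith
    have h4 : ∑ t ∈ H g, (if (H e).card = 3 ∧ x e ≠ 0 ∧ t ∈ H e ∧ rep e ≠ t then
        x e * ps (p3 H x t) else 0) ≤
        ∑ t ∈ H g, (if t ∈ H e ∧ rep e ≠ t then 23 / 100 * x e else 0) := by
      refine sum_le_sum fun t _ => ?_
      by_cases h5 : t ∈ H e ∧ rep e ≠ t
      · rw [if_pos ⟨h1, h2, h5.1, h5.2⟩, if_pos h5]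
        have := mul_le_mul_of_nonneg_left (ps_le_ch (p3_nonneg hx t (H := H))) hxe
        linarith
      · rw [if_neg h5, if_neg (fun h6 => h5 h6.2.2)]
    have h5 : (if (H e).card = 3 ∧ x e ≠ 0 ∧ rep e ∈ H g then
        max (x e * om (x e)) (x e * ps (x e)) else 0) ≤
        ∑ t ∈ H g, (if rep e = t then 23 / 100 * x e else 0) := by
      rw [sum_ite_eq]
      by_cases h6 : rep e ∈ H g
      · rw [if_pos ⟨h1, h2, h6⟩, if_pos h6]
        exact h3
      · rw [if_neg h6, if_neg (fun h7 => h6 h7.2.2)]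
    have h6 : ∑ t ∈ H g, (if rep e = t then 23 / 100 * x e else 0) +
        ∑ t ∈ H g, (if t ∈ H e ∧ rep e ≠ t then 23 / 100 * x e else 0) =
        23 / 100 * (x e * ((H g ∩ H e).card : ℝ)) := by
      rw [← sum_add_distrib]
      have h7 : ∀ t ∈ H g, (if rep e = t then 23 / 100 * x e else 0) +
          (if t ∈ H e ∧ rep e ≠ t then 23 / 100 * x e else 0) =
          if t ∈ H e then 23 / 100 * x e else 0 := by
        intro t _
        by_cases h8 : rep e = t
        · have h9 : t ∈ H e := h8 ▸ hrep e h2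
          simp [h8, h9]
        · by_cases h9 : t ∈ H e
          · simp [h8, h9]
          · simp [h8, h9]
      rw [sum_congr rfl h7, ← sum_filter, sum_const, nsmul_eq_mul, filter_mem_eq_inter]
      ring
    have h7 : (if (H e).card < 4 then x e * ((H g ∩ H e).card : ℝ) else 0) =
        x e * ((H g ∩ H e).card : ℝ) := if_pos (by omega)
    rw [h7]
    linarith
  · have h1 : (if (H e).card = 3 ∧ x e ≠ 0 ∧ rep e ∈ H g then
        max (x e * om (x e)) (x e * ps (x e)) else 0) = 0 :=
      if_neg (fun h6 => h ⟨h6.1, h6.2.1⟩)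
    have h2 : ∑ t ∈ H g, (if (H e).card = 3 ∧ x e ≠ 0 ∧ t ∈ H e ∧ rep e ≠ t then
        x e * ps (p3 H x t) else 0) = 0 :=
      sum_eq_zero fun t _ => if_neg (fun h6 => h ⟨h6.1, h6.2.1⟩)
    rw [h1, h2]
    have h3 : 0 ≤ (if (H e).card < 4 then x e * ((H g ∩ H e).card : ℝ) else 0) := by
      split_ifs
      · exact mul_nonneg (hx e) (Nat.cast_nonneg _)
      · exact le_rfl
    linarith

/-- **Charges.** `π1`: requests at the own leaf, `π2`: requests at both leaves. -/
theorem charge_four {H : E → Finset V} {x : E → ℝ} (hx : ∀ e, 0 ≤ x e) {rep : E → V}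
    {F : Finset E} (hF : ∀ f ∈ F, (H f).card = 3) {π1 π2 : E → ℝ} {v w : E → V}
    (hcov : ∀ e ∈ F, x e ≠ 0 → rep e ∈ H e ∧ v e ∈ H e ∧ w e ∈ H e ∧ w e ≠ rep e ∧
      ∀ t ∈ H e, t = rep e ∨ t = v e ∨ t = w e)
    (h1 : ∀ e ∈ F, 0 ≤ π1 e ∧ π1 e ≤ x e * max 0 (om (x e) - ps (p3 H x (w e))))
    (h2 : ∀ e ∈ F, 0 ≤ π2 e ∧ π2 e ≤ x e * ps (p3 H x (w e))) (g : E) :
    ∑ e ∈ F with (¬ Disjoint (H e) (H g) ∧ ((H g).card = 4 ∧ H e ∩ H g = {rep e})), π1 e +
      ∑ e ∈ F with (¬ Disjoint (H e) (H g) ∧ ((H g).card = 4 ∧ v e ∉ H g)), π2 e ≤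
      Phi4 H x rep g := by
  classical
  have key : ∀ e ∈ F,
      (if ¬ Disjoint (H e) (H g) ∧ ((H g).card = 4 ∧ H e ∩ H g = {rep e}) then π1 e else 0) +
      (if ¬ Disjoint (H e) (H g) ∧ ((H g).card = 4 ∧ v e ∉ H g) then π2 e else 0) ≤
      (if (H e).card = 3 ∧ x e ≠ 0 ∧ rep e ∈ H g then
        max (x e * om (x e)) (x e * ps (x e)) else 0) +
      ∑ t ∈ H g, (if (H e).card = 3 ∧ x e ≠ 0 ∧ t ∈ H e ∧ rep e ≠ t then
        x e * ps (p3 H x t) else 0) := by
    intro e he
    have hxe := hx e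
    have hR0 : 0 ≤ (if (H e).card = 3 ∧ x e ≠ 0 ∧ rep e ∈ H g then
        max (x e * om (x e)) (x e * ps (x e)) else 0) := by
      split_ifs
      · exact le_trans (mul_nonneg hxe (om_nonneg_ch _)) (le_max_left _ _)
      · exact le_rfl
    have hR1t : ∀ t ∈ H g, 0 ≤ (if (H e).card = 3 ∧ x e ≠ 0 ∧ t ∈ H e ∧ rep e ≠ t then
        x e * ps (p3 H x t) else 0) := by
      intro t _
      split_ifs
      · exact mul_nonneg hxe (ps_nonneg_ch _)
      · exact le_rfl
    have hR1 := sum_nonneg hR1t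
    by_cases hx0 : x e = 0
    · have a1 : π1 e = 0 := le_antisymm (by have := (h1 e he).2; rwa [hx0, zero_mul] at this)
        (h1 e he).1
      have a2 : π2 e = 0 := le_antisymm (by have := (h2 e he).2; rwa [hx0, zero_mul] at this)
        (h2 e he).1
      rw [a1, a2, ite_self, ite_self, zero_add]
      exact add_nonneg hR0 hR1
    · obtain ⟨c1, c2, c3, c4, c5⟩ := hcov e he hx0
      have hcard := hF e he
      have hvr : v e ≠ rep e := by
        intro h
        have hsub : H e ⊆ {rep e, w e} := by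
          intro t ht
          rcases c5 t ht with h6 | h6 | h6
          · simp [h6]
          · rw [h] at h6
            simp [h6]
          · simp [h6]
        have h7 := card_le_card hsub
        have h8 := card_le_two (a := rep e) (b := w e)
        omega
      have hw3 : x e ≤ p3 H x (w e) := le_p3 hx hcard c3
      by_cases hA : ¬ Disjoint (H e) (H g) ∧ ((H g).card = 4 ∧ H e ∩ H g = {rep e})
      · rw [if_pos hA]
        have hrg : rep e ∈ H g := by
          have : rep e ∈ H e ∩ H g := by rw [hA.2.2]; exact mem_singleton_self _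
          exact (mem_inter.1 this).2
        have hpos : (if (H e).card = 3 ∧ x e ≠ 0 ∧ rep e ∈ H g then
            max (x e * om (x e)) (x e * ps (x e)) else 0) =
            max (x e * om (x e)) (x e * ps (x e)) := if_pos ⟨hcard, hx0, hrg⟩
        rw [hpos]
        have h5 : (if ¬ Disjoint (H e) (H g) ∧ ((H g).card = 4 ∧ v e ∉ H g) then π2 e else 0) ≤
            π2 e := by
          split_ifs
          · exact le_rfl
          · exact (h2 e he).1
        have h6 : π1 e + π2 e ≤ max (x e * om (x e)) (x e * ps (x e)) := by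
          have h7 := (h1 e he).2
          have h8 := (h2 e he).2
          have h9 : ps (p3 H x (w e)) ≤ ps (x e) := ps_anti hw3
          have h10 : max 0 (om (x e) - ps (p3 H x (w e))) + ps (p3 H x (w e)) ≤
              max (om (x e)) (ps (x e)) := by
            rcases le_total (om (x e) - ps (p3 H x (w e))) 0 with h | h
            · rw [max_eq_left h, zero_add]
              exact h9.trans (le_max_right _ _)
            · rw [max_eq_right h]
              have := le_max_left (om (x e)) (ps (x e))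
              linarith
          have h11 := mul_le_mul_of_nonneg_left h10 hxe
          rw [mul_max_of_nonneg _ _ hxe] at h11
          linarith
        linarith
      · rw [if_neg hA, zero_add]
        by_cases hB : ¬ Disjoint (H e) (H g) ∧ ((H g).card = 4 ∧ v e ∉ H g)
        · rw [if_pos hB]
          have hwg : w e ∈ H g := by
            by_contra hwg
            apply hA
            refine ⟨hB.1, hB.2.1, ?_⟩
            obtain ⟨t, ht1, ht2⟩ := not_disjoint_iff.1 hB.1
            have hall : ∀ t, t ∈ H e → t ∈ H g → t = rep e := by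
              intro t ht1 ht2
              rcases c5 t ht1 with h6 | h6 | h6
              · exact h6
              · exact absurd (h6 ▸ ht2) hB.2.2
              · exact absurd (h6 ▸ ht2) hwg
            ext s
            simp only [mem_inter, mem_singleton]
            constructor
            · rintro ⟨hs1, hs2⟩
              exact hall s hs1 hs2
            · rintro rfl
              have := hall t ht1 ht2
              subst this
              exact ⟨ht1, ht2⟩
          have h5 : x e * ps (p3 H x (w e)) ≤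
              ∑ t ∈ H g, (if (H e).card = 3 ∧ x e ≠ 0 ∧ t ∈ H e ∧ rep e ≠ t then
                x e * ps (p3 H x t) else 0) := by
            have h6 := single_le_sum hR1t hwg
            rw [if_pos ⟨hcard, hx0, c3, c4.symm⟩] at h6
            exact h6
          have h7 := (h2 e he).2
          linarith
        · rw [if_neg hB]
          exact add_nonneg hR0 hR1
  unfold Phi4
  rw [sum_filter, sum_filter, ← sum_add_distrib]
  refine (sum_le_sum key).trans ?_
  have e1 : ∑ t ∈ H g, ∑ e with ((H e).card = 3 ∧ x e ≠ 0 ∧ t ∈ H e ∧ rep e ≠ t),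
      x e * ps (p3 H x t) = ∑ e, ∑ t ∈ H g,
        (if (H e).card = 3 ∧ x e ≠ 0 ∧ t ∈ H e ∧ rep e ≠ t then
          x e * ps (p3 H x t) else 0) := by
    rw [sum_comm]
    exact sum_congr rfl fun t _ => sum_filter _ _
  rw [e1, sum_filter, ← sum_add_distrib]
  apply sum_le_sum_of_subset_of_nonneg (subset_univ F)
  intro e _ _
  refine add_nonneg ?_ (sum_nonneg fun t _ => ?_)
  · split_ifs
    · exact le_trans (mul_nonneg (hx e) (om_nonneg_ch _)) (le_max_left _ _)
    · exact le_rfl
  · split_ifs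
    · exact mul_nonneg (hx e) (ps_nonneg_ch _)
    · exact le_rfl

/-- Requests are sparse. -/
theorem sparse_three {H : E → Finset V} {x : E → ℝ} (hx : ∀ e, 0 ≤ x e)
    (hdeg : ∀ v, ∑ f with v ∈ H f, x f ≤ 1) {F : Finset E} (hF : ∀ f ∈ F, (H f).card = 3)
    {π : E → ℝ} (hπ : ∀ e ∈ F, π e ≤ 23 / 100 * x e) {e : E} (he : e ∈ F) :
    ∑ f ∈ F with ¬ Disjoint (H e) (H f), π f ≤ 1 := by
  classical
  have h1 : ∑ f ∈ F with ¬ Disjoint (H e) (H f), π f ≤
      ∑ f ∈ F with ¬ Disjoint (H e) (H f), 23 / 100 * x f :=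
    sum_le_sum fun f hf => hπ f (mem_filter.1 hf).1
  have h2 : ∑ f ∈ F with ¬ Disjoint (H e) (H f), x f ≤ ∑ t ∈ H e, ∑ f with t ∈ H f, x f := by
    simp only [sum_filter]
    rw [sum_comm]
    refine le_trans (sum_le_sum (fun f _ => ?_)) (sum_le_sum_of_subset_of_nonneg (subset_univ F)
      fun f _ _ => sum_nonneg fun t _ => ?_)
    · by_cases h : Disjoint (H e) (H f)
      · rw [if_neg (not_not.2 h)]
        refine sum_nonneg fun t _ => ?_
        split_ifs
        · exact hx f
        · exact le_rfl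
      · rw [if_pos h]
        obtain ⟨t, ht1, ht2⟩ := not_disjoint_iff.1 h
        have h3 : ∀ s ∈ H e, 0 ≤ (if s ∈ H f then x f else 0) := by
          intro s _
          split_ifs
          · exact hx f
          · exact le_rfl
        have h4 := single_le_sum h3 ht1
        rwa [if_pos ht2] at h4
    · split_ifs
      · exact hx f
      · exact le_rfl
  have h3 := sum_le_card_nsmul (H e) (fun t => ∑ f with t ∈ H f, x f) 1 (fun t _ => hdeg t)
  rw [hF e he, nsmul_eq_mul] at h3
  rw [← mul_sum] at h1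
  norm_num at h3
  linarith

/-- The inflation of the edges of size four is admissible for the levels above. -/
theorem kap4_good {H : E → Finset V} {x : E → ℝ} (hx : ∀ e, 0 ≤ x e) {rep : E → V}
    (hrep : ∀ e, x e ≠ 0 → rep e ∈ H e)
    (hinj : ∀ e f, x e ≠ 0 → x f ≠ 0 → rep e = rep f → e = f) :
    ∀ g, (H g).card = 4 → 0 ≤ kap4 H x rep g ∧ kap4 H x rep g ≤ 1 / 36 ∧
      kap4 H x rep g ≤ 19 / 80 * bsm H x 4 g := by
  intro g hg
  have h0 := Phi4_nonneg hx rep (H := H) g
  have hb := bsm_nonneg (H := H) hx 4 g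
  unfold kap4
  split_ifs with h
  · exact ⟨le_rfl, by norm_num, by positivity⟩
  · have h1 := Phi4_le hx hrep hinj hg h
    have h2 := Phi4_le_mul hx hrep g
    refine ⟨by positivity, by linarith, ?_⟩
    nlinarith

end H70.FKS
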