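import Mathlib
import Pool.Agent.H34.FKS.Phase2

/-!
# Batch, then two rounds of requests
-/

set_option autoImplicit false
set_option linter.unusedSectionVars false
set_option linter.unusedVariables false

namespace H70.FKS

open Finset H4.FKS H34.FKS

variable {E : Type*} [DecidableEq E] [Fintype E]

/-- Batch with thinned demands `s` followed by two rounds of independent requests. -/
theorem real_two_step {r : E → E → Prop} [DecidableRel r]
    (hrefl : ∀ a, r a a) (hs : ∀ a b, r a b → r b a) {R' F : Finset E}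
    (hdisj : Disjoint R' F) {y1 s lam π1 π2 y : E → ℝ} (hR' : Real r R' y1)
    (hs0 : ∀ e ∈ F, 0 ≤ s e) (hlam : ∀ e ∈ F, 0 < s e → 0 < lam e)
    (hcl : ∀ C ⊆ F, (∀ a ∈ C, 0 < s a) → (∀ a ∈ C, ∀ b ∈ C, r a b) → ∑ a ∈ C, lam a ≤ 1)
    (hbud : ∀ e ∈ F, 0 < s e →
      ∑ f ∈ F with r e f, s f + s e / lam e ≤ 2 * (1 - ∑ f ∈ R' with r e f, y1 f))
    (hπ1 : ∀ e, 0 ≤ π1 e) (hπ1s : ∀ e ∈ F, ∑ f ∈ F with r e f, π1 f ≤ 1)
    (hπ2 : ∀ e, 0 ≤ π2 e) (hπ2s : ∀ e ∈ F, ∑ f ∈ F with r e f, π2 f ≤ 1)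
    (del1 del2 : E → E → Prop) [DecidableRel del1] [DecidableRel del2]
    (hy : ∀ e ∈ R' ∪ F, 0 ≤ y e)
    (hR0 : ∀ g ∈ R', 0 ≤ y1 g * (1 - ∑ e ∈ F with (r e g ∧ del1 e g), π1 e))
    (hR : ∀ g ∈ R', y g ≤ y1 g * (1 - ∑ e ∈ F with (r e g ∧ del1 e g), π1 e) *
      (1 - ∑ e ∈ F with (r e g ∧ del2 e g), π2 e))
    (hF1 : ∀ e ∈ F, 0 ≤ π1 e * (1 - ∑ f ∈ F with r e f, s f -
      ∑ f ∈ R' with (r e f ∧ ¬ del1 e f), y1 f))
    (hF2 : ∀ e ∈ F, 0 ≤ π2 e * (1 - ∑ f ∈ F with r e f, y f -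
      ∑ f ∈ R' with (r e f ∧ ¬ del2 e f), y1 f))
    (hF : ∀ e ∈ F, y e ≤ s e + π1 e * (1 - ∑ f ∈ F with r e f, s f -
      ∑ f ∈ R' with (r e f ∧ ¬ del1 e f), y1 f) + π2 e * (1 - ∑ f ∈ F with r e f, y f -
      ∑ f ∈ R' with (r e f ∧ ¬ del2 e f), y1 f)) :
    Real r (R' ∪ F) y := by
  classical
  have hnF : ∀ e ∈ R', e ∉ F := fun e he h => disjoint_left.1 hdisj he h
  set A1 : E → ℝ := fun e => 1 - ∑ f ∈ F with r e f, s f -
      ∑ f ∈ R' with (r e f ∧ ¬ del1 e f), y1 f with hA1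
  set A2 : E → ℝ := fun e => 1 - ∑ f ∈ F with r e f, y f -
      ∑ f ∈ R' with (r e f ∧ ¬ del2 e f), y1 f with hA2
  set ym : E → ℝ := fun e => if e ∈ F then min (y e) (s e + π1 e * A1 e) else
    y1 e * (1 - ∑ a ∈ F with (r a e ∧ del1 a e), π1 a) with hym
  have hymF : ∀ e ∈ F, ym e = min (y e) (s e + π1 e * A1 e) := by
    intro e he
    simp only [hym]
    rw [if_pos he]
  have hymR : ∀ e ∈ R', ym e = y1 e * (1 - ∑ a ∈ F with (r a e ∧ del1 a e), π1 a) := by
    intro e he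
    simp only [hym]
    rw [if_neg (hnF e he)]
  have hy10 : ∀ e ∈ R', 0 ≤ y1 e := fun e he => real_nonneg hR' he
  have hym0 : ∀ e ∈ R' ∪ F, 0 ≤ ym e := by
    intro e he
    rcases mem_union.1 he with h | h
    · rw [hymR e h]
      exact hR0 e h
    · rw [hymF e h]
      exact le_min (hy e he) (add_nonneg (hs0 e h) (hF1 e h))
  have hN : Real r (R' ∪ F) ym := by
    refine real_step hrefl hs hdisj (y1 := y1) (s := s) (lam := lam) (π := π1) hR' hs0 hlam hcl
      hbud hπ1 hπ1s del1 hym0 ?_ ?_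
    · intro g hg
      rw [hymR g hg]
    · intro e he
      rw [hymF e he]
      exact min_le_right _ _
  apply real_request hrefl hs hdisj hN (real_of_small hs hrefl hπ2 F hπ2s) del2 hy
  · intro g hg
    rw [hymR g hg]
    exact hR g hg
  · intro e he
    -- the actual acceptance is at least `A2`
    have h1 : A2 e ≤ 1 - ∑ f ∈ R' ∪ F with (r e f ∧ ¬ (f ∈ R' ∧ del2 e f)), ym f := by
      have h2 : ∑ f ∈ R' ∪ F with (r e f ∧ ¬ (f ∈ R' ∧ del2 e f)), ym f =
          ∑ f ∈ R' with (r e f ∧ ¬ del2 e f), ym f + ∑ f ∈ F with r e f, ym f := by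
        rw [filter_union, sum_union (disjoint_filter_filter hdisj)]
        congr 1
        · apply sum_congr _ fun _ _ => rfl
          ext f
          simp only [mem_filter]
          constructor
          · rintro ⟨h1, h2, h3⟩
            exact ⟨h1, h2, fun h => h3 ⟨h1, h⟩⟩
          · rintro ⟨h1, h2, h3⟩
            exact ⟨h1, h2, fun h => h3 h.2⟩
        · apply sum_congr _ fun _ _ => rfl
          ext f
          simp only [mem_filter]
          constructor
          · rintro ⟨h1, h2, h3⟩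
            exact ⟨h1, h2⟩
          · rintro ⟨h1, h2⟩
            exact ⟨h1, h2, fun h => hnF f h.1 h1⟩
      have h3 : ∑ f ∈ R' with (r e f ∧ ¬ del2 e f), ym f ≤
          ∑ f ∈ R' with (r e f ∧ ¬ del2 e f), y1 f := by
        refine sum_le_sum fun f hf => ?_
        have hfR := (mem_filter.1 hf).1
        rw [hymR f hfR]
        have h4 : 0 ≤ ∑ a ∈ F with (r a f ∧ del1 a f), π1 a := sum_nonneg fun a _ => hπ1 a
        have := mul_nonneg (hy10 f hfR) h4
        nlinarith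
      have h4 : ∑ f ∈ F with r e f, ym f ≤ ∑ f ∈ F with r e f, y f := by
        refine sum_le_sum fun f hf => ?_
        rw [hymF f (mem_filter.1 hf).1]
        exact min_le_left _ _
      rw [h2]
      simp only [hA2]
      linarith
    have h5 := mul_le_mul_of_nonneg_left h1 (hπ2 e)
    have h6 : 0 ≤ π2 e * A2 e := hF2 e he
    have h7 : y e ≤ ym e + π2 e * A2 e := by
      rw [hymF e he]
      have h8 : y e ≤ s e + π1 e * A1 e + π2 e * A2 e := hF e he
      rcases min_cases (y e) (s e + π1 e * A1 e) with ⟨h, _⟩ | ⟨h, _⟩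
      · rw [h]; linarith
      · rw [h]; exact h8
    linarith

end H70.FKS
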