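import Mathlib
import Pool.Agent.H70.FKS.CliqueDefs
import Pool.Agent.H70.FKS.TwoRounds
import Pool.Agent.H70.FKS.ThreeCharge
import Pool.Agent.H76.FKS.ThreeNum
import Pool.Agent.H34.FKS.StepFour

/-!
# The step from level four to level three
-/

set_option autoImplicit false
set_option linter.unusedSectionVars false
set_option linter.unusedVariables false

namespace H70.FKS

open Finset H4.FKS H34.FKS H90.FKS H76.FKS

variable {V E : Type} [Fintype V] [DecidableEq V] [DecidableEq E] [Fintype E]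

theorem ck5 : ck 5 = 21 / 5 := by unfold ck; norm_num

theorem ps_nonneg (t : ℝ) : 0 ≤ ps t := le_max_left _ _

theorem om_nonneg (t : ℝ) : 0 ≤ om t := mul_nonneg (by norm_num) (le_max_left _ _)

theorem ps_le {t : ℝ} (ht : 0 ≤ t) : ps t ≤ 3 / 50 := by
  unfold ps
  apply max_le (by norm_num)
  linarith

theorem om_le {t : ℝ} (ht : 0 ≤ t) : om t ≤ 23 / 100 := by
  unfold om
  have h1 : max 0 (1 - t / (9 / 100)) ≤ 1 := by
    apply max_le (by norm_num)
    have : 0 ≤ t / (9 / 100) := by positivity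
    linarith
  linarith

/-- **The step from level four to level three.** -/
theorem step_three (hclique : CliqueThree) {H : E → Finset V} (hne : ∀ e, (H e).Nonempty)
    {x : E → ℝ} (hx : ∀ e, 0 ≤ x e) (hdeg : ∀ v, ∑ f with v ∈ H f, x f ≤ 1) {rep : E → V}
    (hrep : ∀ e, x e ≠ 0 → rep e ∈ H e)
    (hinj : ∀ e f, x e ≠ 0 → x f ≠ 0 → rep e = rep f → e = f)
    (hlvl : Lvl H x (kap4 H x rep) 4) : Lvl H x (kap3 H x) 3 := by
  classical
  intro R0 hR0
  have hrefl : ∀ a, ¬ Disjoint (H a) (H a) := by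
    intro a h
    rw [disjoint_self] at h
    exact (hne a).ne_empty h
  have hsymm : ∀ a b, ¬ Disjoint (H a) (H b) → ¬ Disjoint (H b) (H a) :=
    fun a b h h' => h (disjoint_comm.1 h')
  have hckpos : ∀ e, 0 < ck (H e).card := fun e => ck_pos (card_pos.2 (hne e))
  have hdem0 : ∀ e, 0 ≤ dem H x (kap3 H x) 3 e := by
    intro e
    unfold dem
    split_ifs with h
    · exact mul_nonneg (by linarith [kap3_nonneg hx h]) (div_nonneg (hx e) (ck_pos (by norm_num)).le)
    · exact div_nonneg (hx e) (hckpos e).le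
  apply real_reduce hrefl hsymm hdem0 (fun e => 3 ≤ (H e).card) _ R0 hR0
  intro R hR hgr
  set F := R.filter (fun e => (H e).card = 3) with hFdef
  set R' := R.filter (fun e => 3 < (H e).card) with hR'def
  have hF : ∀ f ∈ F, (H f).card = 3 := fun f hf => (mem_filter.1 hf).2
  have hR' : ∀ f ∈ R', 3 < (H f).card := fun f hf => (mem_filter.1 hf).2
  have hRun : R' ∪ F = R := by
    ext e
    simp only [mem_union, hFdef, hR'def, mem_filter]
    constructor
    · rintro (h | h)
      · exact h.1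
      · exact h.1
    · intro h
      rcases lt_or_eq_of_le (hR e h) with h' | h'
      · exact Or.inl ⟨h, h'⟩
      · exact Or.inr ⟨h, h'.symm⟩
  have hdisj : Disjoint R' F := by
    rw [disjoint_left]
    intro f hf hf'
    have := hF f hf'
    have := hR' f hf
    omega
  have hgr' : ∀ e ∈ R, 1 < ∑ f ∈ R' with ¬ Disjoint (H e) (H f), dem H x (kap3 H x) 3 f +
      ∑ f ∈ F with ¬ Disjoint (H e) (H f), dem H x (kap3 H x) 3 f := by
    intro e he
    have h11 := hgr e he
    rw [← hRun, filter_union, sum_union (disjoint_filter_filter hdisj)] at h11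
    exact h11
  have hdF : ∀ f ∈ F, dem H x (kap3 H x) 3 f = (1 + kap3 H x f) * (x f / (7 / 3)) := by
    intro f hf
    rw [dem, if_pos (hF f hf), ck3]
  have hdR : ∀ f ∈ R', dem H x (kap3 H x) 3 f = x f / ck (H f).card := by
    intro f hf
    rw [dem, if_neg (hR' f hf).ne']
  -- level four
  have hgood := kap4_good hx hrep hinj
  have hκ'0 : ∀ g, 0 ≤ kap4 H x rep g := by
    intro g
    unfold kap4
    split_ifs
    · exact le_rfl
    · exact mul_nonneg (by norm_num) (Phi4_nonneg hx rep g)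
  set y1 : E → ℝ := dem H x (kap4 H x rep) 4 with hy1def
  have hy1C : ∀ f ∈ R', y1 f ≤ x f / (117 / 37) := by
    intro f hf
    simp only [hy1def, dem]
    split_ifs with h
    · rw [ck4]
      have h1 := (hgood f h).2.1
      have h2 := hx f
      have h3 : (1 + kap4 H x rep f) * (x f / (13 / 4)) ≤ (1 + 1 / 36) * (x f / (13 / 4)) :=
        mul_le_mul_of_nonneg_right (by linarith) (by positivity)
      refine h3.trans (le_of_eq ?_)
      ring
    · have h1 := hR' f hf
      have h2 : ck 5 ≤ ck (H f).card := ck_mono (by norm_num) (by omega)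
      rw [ck5] at h2
      have h3 := hckpos f
      rw [div_le_div_iff₀ h3 (by norm_num)]
      have := mul_le_mul_of_nonneg_left h2 (hx f)
      have := hx f
      linarith
  have hy1c2 : ∀ f ∈ R', 4 < (H f).card → y1 f ≤ x f / (21 / 5) := by
    intro f hf h
    simp only [hy1def, dem]
    rw [if_neg h.ne']
    have h2 : ck 5 ≤ ck (H f).card := ck_mono (by norm_num) (by omega)
    rw [ck5] at h2
    exact div_le_div_of_nonneg_left (hx f) (by norm_num) h2
  have hy1ge : ∀ f ∈ R', dem H x (kap3 H x) 3 f ≤ y1 f := by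
    intro f hf
    rw [hdR f hf]
    simp only [hy1def, dem]
    split_ifs with h
    · rw [h]
      have h11 : 0 ≤ x f / ck 4 := div_nonneg (hx f) (ck_pos (by norm_num)).le
      have := mul_nonneg (hκ'0 f) h11
      linarith
    · exact le_rfl
  have hy10 : ∀ f, 0 ≤ y1 f := fun f => dem_nonneg hne hx hκ'0 4 f
  set κ := kap3 H x with hκdef
  have hκF : ∀ f ∈ F, 0 ≤ κ f := fun f hf => kap3_nonneg hx (hF f hf)
  -- abbreviations
  set l : E → ℝ := fun e => 1 - ∑ f ∈ R' with ¬ Disjoint (H e) (H f), y1 f with hl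
  set Hh : E → ℝ := Hh3 H x F R' y1 with hHh
  set X : V → ℝ := XF H x F with hX
  set K : V → ℝ := KF H x F with hK
  have hH1 : ∀ e ∈ F, Hh e ≤ 1 := by
    intro e he
    have h11 := hgr' e ((mem_filter.1 he).1)
    have h12 : ∑ f ∈ R' with ¬ Disjoint (H e) (H f), dem H x κ 3 f ≤
        ∑ f ∈ R' with ¬ Disjoint (H e) (H f), y1 f :=
      sum_le_sum fun f hf => hy1ge f (mem_filter.1 hf).1
    have h13 : ∑ f ∈ F with ¬ Disjoint (H e) (H f), dem H x κ 3 f =
        ∑ f ∈ F with ¬ Disjoint (H e) (H f), (1 + κ f) * (x f / (7 / 3)) :=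
      sum_congr rfl fun f hf => hdF f (mem_filter.1 hf).1
    have h14 : 0 ≤ ∑ f ∈ R' with ¬ Disjoint (H e) (H f), y1 f := sum_nonneg fun f _ => hy10 f
    simp only [hHh, Hh3]
    linarith
  -- the three vertices
  have hthird : ∀ e v, ∃ w, e ∈ F → x e ≠ 0 → v ∈ H e → v ≠ rep e →
      rep e ≠ w ∧ v ≠ w ∧ H e = {rep e, v, w} := by
    intro e v
    by_cases h : e ∈ F ∧ x e ≠ 0 ∧ v ∈ H e ∧ v ≠ rep e
    · obtain ⟨w, h1, h2, h3⟩ := third (hF e h.1) (hrep e h.2.1) h.2.2.1 h.2.2.2.symm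
      exact ⟨w, fun _ _ _ _ => ⟨h1, h2, h3⟩⟩
    · exact ⟨v, fun h1 h2 h3 h4 => absurd ⟨h1, h2, h3, h4⟩ h⟩
  choose w0 hw0 using hthird
  -- domain and head
  have hdom : ∀ e ∈ F, x e ≠ 0 → ∀ v ∈ H e, v ≠ rep e →
      Dom (X v) (x e) (p3 H x (rep e) - x e) (p3 H x (w0 e v) - x e) (a2 H x (rep e))
        (a2 H x v) (a2 H x (w0 e v)) (T5 H x R' e v) (κ e) (K v) ∧
      hlow (X v) (x e) (p3 H x (rep e) - x e) (p3 H x (w0 e v) - x e) (a2 H x (rep e))
        (a2 H x v) (a2 H x (w0 e v)) (T5 H x R' e v) - K v ≤ 7 / 3 * Hh e := by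
    intro e he hxe v hv hvr
    obtain ⟨h1, h2, h3⟩ := hw0 e v he hxe hv hvr
    exact ⟨dom_three hx hdeg hF hR' he hxe hvr.symm h1 h2 h3,
      head_c hx hdeg hF hR' hy1C hy1c2 he hvr.symm h1 h2 h3⟩
  have hX0 : ∀ v, 0 ≤ X v := fun v => sum_nonneg fun f _ => hx f
  have hav0 : ∀ v, 0 ≤ av (X v) := fun v => mul_nonneg (by norm_num) (hX0 v)
  have hHpos : ∀ e ∈ F, x e ≠ 0 → 0 < Hh e := by
    intro e he hxe
    obtain ⟨v, hv, hvr⟩ : ∃ v ∈ H e, v ≠ rep e := by
      by_contra hcon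
      push Not at hcon
      have h1 : H e ⊆ {rep e} := fun v hv => mem_singleton.2 (hcon v hv)
      have h2 := card_le_card h1
      rw [hF e he, card_singleton] at h2
      omega
    obtain ⟨h1, h2⟩ := hdom e he hxe v hv hvr
    have h3 := H_pos h1
    linarith
  -- thinning
  set fz : E → V → ℝ := fun e v => num (X v) (κ e) (K v) (7 / 3 * Hh e) /
    (av (X v) + 7 / 3 * Hh e) with hfz
  choose z0 hz00 hz0le hz0eq using fun e => exists_top ((H e).erase (rep e)) (fz e)
  set z : E → ℝ := fun e => if e ∈ F ∧ x e ≠ 0 then z0 e else 0 with hz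
  have hzF : ∀ e ∈ F, x e ≠ 0 → z e = z0 e := by
    intro e he hxe
    simp only [hz]
    rw [if_pos ⟨he, hxe⟩]
  have hz0 : ∀ e, 0 ≤ z e := by
    intro e
    simp only [hz]
    split_ifs
    · exact hz00 e
    · exact le_rfl
  have hzx : ∀ e, x e = 0 → z e = 0 := by
    intro e h
    simp only [hz]
    rw [if_neg (fun h' => h'.2 h)]
  have hden : ∀ e ∈ F, x e ≠ 0 → ∀ v, 0 < av (X v) + 7 / 3 * Hh e := by
    intro e he hxe v
    have := hHpos e he hxe
    have := hav0 v
    linarith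
  have hz1 : ∀ e ∈ F, 0 ≤ z e ∧ z e ≤ 7 / 40 := by
    intro e he
    refine ⟨hz0 e, ?_⟩
    by_cases hxe : x e = 0
    · rw [hzx e hxe]; norm_num
    rw [hzF e he hxe]
    rcases hz0eq e with h | ⟨v, hv, h⟩
    · rw [h]; norm_num
    · obtain ⟨hvr, hv'⟩ := mem_erase.1 hv
      obtain ⟨h1, h2⟩ := hdom e he hxe v hv' hvr
      rw [h]
      simp only [hfz]
      rw [div_le_iff₀ (hden e he hxe v)]
      exact z_le h1 h2
  have hzle : ∀ e ∈ F, x e ≠ 0 → ∀ v ∈ H e, v ≠ rep e →
      num (X v) (κ e) (K v) (7 / 3 * Hh e) ≤ z e * (av (X v) + 7 / 3 * Hh e) := by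
    intro e he hxe v hv hvr
    rw [hzF e he hxe]
    have h1 := hz0le e v (mem_erase.2 ⟨hvr, hv⟩)
    simp only [hfz] at h1
    rwa [div_le_iff₀ (hden e he hxe v)] at h1
  -- the centre
  have hcentre : ∀ e, ∃ v, e ∈ F → x e ≠ 0 → v ∈ H e ∧ v ≠ rep e ∧
      (z e ≠ 0 → z e * (av (X v) + 7 / 3 * Hh e) = num (X v) (κ e) (K v) (7 / 3 * Hh e)) := by
    intro e
    by_cases hex : e ∈ F ∧ x e ≠ 0
    · obtain ⟨he, hxe⟩ := hex
      rcases hz0eq e with h | ⟨v, hv, h⟩
      · obtain ⟨v, hv, hvr⟩ : ∃ v ∈ H e, v ≠ rep e := by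
          by_contra hcon
          push Not at hcon
          have h1 : H e ⊆ {rep e} := fun v hv => mem_singleton.2 (hcon v hv)
          have h2 := card_le_card h1
          rw [hF e he, card_singleton] at h2
          omega
        refine ⟨v, fun _ _ => ⟨hv, hvr, fun h' => absurd ?_ h'⟩⟩
        rw [hzF e he hxe, h]
      · obtain ⟨hvr, hv'⟩ := mem_erase.1 hv
        refine ⟨v, fun _ _ => ⟨hv', hvr, fun _ => ?_⟩⟩
        rw [hzF e he hxe, h]
        simp only [hfz]
        rw [div_mul_cancel₀ _ (hden e he hxe v).ne']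
    · exact ⟨rep e, fun h1 h2 => absurd ⟨h1, h2⟩ hex⟩
  choose vc hvc using hcentre
  set wc : E → V := fun e => w0 e (vc e) with hwc
  have htri : ∀ e ∈ F, x e ≠ 0 → rep e ≠ vc e ∧ rep e ≠ wc e ∧ vc e ≠ wc e ∧
      H e = {rep e, vc e, wc e} := by
    intro e he hxe
    obtain ⟨h1, h2, h3⟩ := hvc e he hxe
    obtain ⟨h4, h5, h6⟩ := hw0 e (vc e) he hxe h1 h2
    exact ⟨h2.symm, h4, h5, h6⟩
  -- thinned demands
  set s : E → ℝ := s3 H x z with hs
  have hxc : ∀ e, 0 ≤ x e / (7 / 3) := fun e => div_nonneg (hx e) (by norm_num)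
  have hsdef : ∀ e, s e = (1 + κ e - z e) * (x e / (7 / 3)) := fun e => rfl
  have hs0 : ∀ e ∈ F, 0 ≤ s e := by
    intro e he
    rw [hsdef]
    exact mul_nonneg (by linarith [hκF e he, (hz1 e he).2]) (hxc e)
  have hsle : ∀ e, s e ≤ (1 + κ e) * (x e / (7 / 3)) := by
    intro e
    rw [hsdef]
    exact mul_le_mul_of_nonneg_right (by linarith [hz0 e]) (hxc e)
  have hsx : ∀ e, s e ≠ 0 → x e ≠ 0 := by
    intro e h h0
    apply h
    rw [hsdef, h0, zero_div, mul_zero]
  have hLpos : ∀ e ∈ F, x e ≠ 0 →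
      0 < 2 * l e - ∑ f ∈ F with ¬ Disjoint (H e) (H f), s f := by
    intro e he hxe
    have h1 := hHpos e he hxe
    have h2 : ∑ f ∈ F with ¬ Disjoint (H e) (H f), s f ≤
        ∑ f ∈ F with ¬ Disjoint (H e) (H f), (1 + κ f) * (x f / (7 / 3)) :=
      sum_le_sum fun f _ => hsle f
    have h3 : Hh e = 2 * l e -
        ∑ f ∈ F with ¬ Disjoint (H e) (H f), (1 + κ f) * (x f / (7 / 3)) := rfl
    linarith
  -- acceptances
  set Acc1 : E → ℝ := fun e => 1 - ∑ f ∈ F with ¬ Disjoint (H e) (H f), s f -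
      ∑ f ∈ R' with (¬ Disjoint (H e) (H f) ∧ ¬ ((H f).card = 4 ∧ H e ∩ H f = {rep e})), y1 f
    with hAcc1
  set Acc2 : E → ℝ := fun e => 1 - ∑ f ∈ F with ¬ Disjoint (H e) (H f), dem H x κ 3 f -
      ∑ f ∈ R' with (¬ Disjoint (H e) (H f) ∧ ¬ ((H f).card = 4 ∧ vc e ∉ H f)), y1 f
    with hAcc2
  set π1 : E → ℝ := fun e => if 0 < Acc1 e ∧ e ∈ F then
    x e * max 0 (om (x e) - ps (p3 H x (wc e))) else 0 with hπ1
  set π2 : E → ℝ := fun e => if 0 < Acc2 e ∧ e ∈ F then x e * ps (p3 H x (wc e)) else 0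
    with hπ2
  have hπ1b : ∀ e, 0 ≤ π1 e ∧ π1 e ≤ x e * max 0 (om (x e) - ps (p3 H x (wc e))) := by
    intro e
    have h1 : 0 ≤ x e * max 0 (om (x e) - ps (p3 H x (wc e))) :=
      mul_nonneg (hx e) (le_max_left _ _)
    simp only [hπ1]
    split_ifs
    · exact ⟨h1, le_rfl⟩
    · exact ⟨le_rfl, h1⟩
  have hπ2b : ∀ e, 0 ≤ π2 e ∧ π2 e ≤ x e * ps (p3 H x (wc e)) := by
    intro e
    have h1 : 0 ≤ x e * ps (p3 H x (wc e)) := mul_nonneg (hx e) (ps_nonneg _)
    simp only [hπ2]
    split_ifs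
    · exact ⟨h1, le_rfl⟩
    · exact ⟨le_rfl, h1⟩
  have hπ1x : ∀ e ∈ F, π1 e ≤ 23 / 100 * x e := by
    intro e he
    refine (hπ1b e).2.trans ?_
    have h1 : max 0 (om (x e) - ps (p3 H x (wc e))) ≤ 23 / 100 := by
      apply max_le (by norm_num)
      have := om_le (hx e)
      have := ps_nonneg (p3 H x (wc e))
      linarith
    have := mul_le_mul_of_nonneg_left h1 (hx e)
    linarith
  have hπ2x : ∀ e ∈ F, π2 e ≤ 23 / 100 * x e := by
    intro e he
    refine (hπ2b e).2.trans ?_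
    have h1 := ps_le (p3_nonneg (H := H) hx (wc e))
    have := mul_le_mul_of_nonneg_left h1 (hx e)
    have := hx e
    linarith
  have hcharge : ∀ g, ∑ e ∈ F with (¬ Disjoint (H e) (H g) ∧
      ((H g).card = 4 ∧ H e ∩ H g = {rep e})), π1 e +
      ∑ e ∈ F with (¬ Disjoint (H e) (H g) ∧ ((H g).card = 4 ∧ vc e ∉ H g)), π2 e ≤
      Phi4 H x rep g := by
    intro g
    refine charge_four hx hF (v := vc) (w := wc) ?_ (fun e _ => hπ1b e) (fun e _ => hπ2b e) g
    intro e he hxe
    obtain ⟨h1, h2, h3, h4⟩ := htri e he hxe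
    refine ⟨hrep e hxe, (hvc e he hxe).1, ?_, h2.symm, ?_⟩
    · rw [h4]; simp
    · intro t ht
      rw [h4] at ht
      simpa using ht
  rw [← hRun]
  refine real_two_step hrefl hsymm hdisj (y1 := y1) (s := s)
    (lam := fun e => s e / (2 * l e - ∑ f ∈ F with ¬ Disjoint (H e) (H f), s f))
    (π1 := π1) (π2 := π2) (hlvl R' (fun e he => hR' e he)) hs0
    (fun e he h => div_pos h (hLpos e he (hsx e h.ne'))) ?_ ?_ (fun e => (hπ1b e).1)
    (fun e he => sparse_three hx hdeg hF hπ1x he) (fun e => (hπ2b e).1)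
    (fun e he => sparse_three hx hdeg hF hπ2x he)
    (fun e f => (H f).card = 4 ∧ H e ∩ H f = {rep e})
    (fun e f => (H f).card = 4 ∧ vc e ∉ H f) (fun e _ => hdem0 e) ?_ ?_ ?_ ?_ ?_
  · -- cliques
    intro C hCF hCs hCc
    exact hclique hx hdeg hrep hinj hF hR' hy1C hy1c2 hz1 hzle hH1 hCF hCs hCc
  · -- budget
    intro e he h
    have h11 := (hLpos e he (hsx e h.ne')).ne'
    rw [div_div_cancel₀ h.ne']
    linarith
  · -- nonnegativity of the intermediate demands
    intro g hg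
    by_cases hxg : x g = 0
    · have : y1 g = 0 := by
        simp only [hy1def, dem]
        rw [hxg]
        simp
      rw [this, zero_mul]
    apply mul_nonneg (hy10 g)
    by_cases hcard : (H g).card = 4
    · have h1 := hcharge g
      have h2 : 0 ≤ ∑ e ∈ F with (¬ Disjoint (H e) (H g) ∧ ((H g).card = 4 ∧ vc e ∉ H g)),
        π2 e := sum_nonneg fun e _ => (hπ2b e).1
      have h3 := Phi4_le hx hrep hinj hcard hxg
      linarith
    · have h11 : ∑ e ∈ F with (¬ Disjoint (H e) (H g) ∧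
          ((H g).card = 4 ∧ H e ∩ H g = {rep e})), π1 e = 0 := by
        apply sum_eq_zero
        intro e he
        exact absurd (mem_filter.1 he).2.2.1 hcard
      rw [h11]
      norm_num
  · -- deletions
    intro g hg
    rw [hdR g hg]
    by_cases hxg : x g = 0
    · have : y1 g = 0 := by
        simp only [hy1def, dem]
        rw [hxg]
        simp
      rw [this, hxg]
      simp
    by_cases hcard : (H g).card = 4
    · have h1 := hcharge g
      have h2 : 0 ≤ ∑ e ∈ F with (¬ Disjoint (H e) (H g) ∧ ((H g).card = 4 ∧ vc e ∉ H g)),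
        π2 e := sum_nonneg fun e _ => (hπ2b e).1
      have h2' : 0 ≤ ∑ e ∈ F with (¬ Disjoint (H e) (H g) ∧
        ((H g).card = 4 ∧ H e ∩ H g = {rep e})), π1 e := sum_nonneg fun e _ => (hπ1b e).1
      have h3 := Phi4_le hx hrep hinj hcard hxg
      have h4 := Phi4_nonneg hx rep (H := H) g
      set S1 := ∑ e ∈ F with (¬ Disjoint (H e) (H g) ∧
        ((H g).card = 4 ∧ H e ∩ H g = {rep e})), π1 e
      set S2 := ∑ e ∈ F with (¬ Disjoint (H e) (H g) ∧ ((H g).card = 4 ∧ vc e ∉ H g)), π2 e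
      have hy : y1 g = (1 + 37 / 36 * Phi4 H x rep g) * (x g / ck 4) := by
        simp only [hy1def, dem]
        rw [if_pos hcard, kap4, if_neg hxg]
      rw [hy, hcard]
      have h5 : 0 ≤ x g / ck 4 := div_nonneg (hx g) (ck_pos (by norm_num)).le
      have h6 : 1 ≤ (1 + 37 / 36 * Phi4 H x rep g) * (1 - Phi4 H x rep g) := by nlinarith
      have h7 : 1 - Phi4 H x rep g ≤ (1 - S1) * (1 - S2) := by
        have := mul_nonneg h2' h2
        nlinarith
      have h8 : 1 ≤ (1 + 37 / 36 * Phi4 H x rep g) * ((1 - S1) * (1 - S2)) := by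
        refine h6.trans (mul_le_mul_of_nonneg_left h7 ?_)
        positivity
      have h9 := mul_le_mul_of_nonneg_left h8 h5
      linarith
    · have h11 : ∑ e ∈ F with (¬ Disjoint (H e) (H g) ∧
          ((H g).card = 4 ∧ H e ∩ H g = {rep e})), π1 e = 0 := by
        apply sum_eq_zero
        intro e he
        exact absurd (mem_filter.1 he).2.2.1 hcard
      have h12 : ∑ e ∈ F with (¬ Disjoint (H e) (H g) ∧
          ((H g).card = 4 ∧ vc e ∉ H g)), π2 e = 0 := by
        apply sum_eq_zero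
        intro e he
        exact absurd (mem_filter.1 he).2.2.1 hcard
      rw [h11, h12, sub_zero, mul_one, mul_one]
      simp only [hy1def, dem]
      rw [if_neg hcard]
  · -- first round
    intro e he
    change 0 ≤ π1 e * Acc1 e
    by_cases h : 0 < Acc1 e
    · exact mul_nonneg (hπ1b e).1 h.le
    · have : π1 e = 0 := by
        simp only [hπ1]
        rw [if_neg (fun h' => h h'.1)]
      rw [this, zero_mul]
  · -- second round
    intro e he
    change 0 ≤ π2 e * Acc2 e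
    by_cases h : 0 < Acc2 e
    · exact mul_nonneg (hπ2b e).1 h.le
    · have : π2 e = 0 := by
        simp only [hπ2]
        rw [if_neg (fun h' => h h'.1)]
      rw [this, zero_mul]
  · -- gains
    intro e he
    change dem H x κ 3 e ≤ s e + π1 e * Acc1 e + π2 e * Acc2 e
    rw [hdF e he]
    have e1 : s e = (1 + κ e) * (x e / (7 / 3)) - z e * (x e / (7 / 3)) := by
      rw [hsdef]; ring
    have hg1 : 0 ≤ π1 e * Acc1 e := by
      by_cases h : 0 < Acc1 e
      · exact mul_nonneg (hπ1b e).1 h.le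
      · have : π1 e = 0 := by
          simp only [hπ1]
          rw [if_neg (fun h' => h h'.1)]
        rw [this, zero_mul]
    have hg2 : 0 ≤ π2 e * Acc2 e := by
      by_cases h : 0 < Acc2 e
      · exact mul_nonneg (hπ2b e).1 h.le
      · have : π2 e = 0 := by
          simp only [hπ2]
          rw [if_neg (fun h' => h h'.1)]
        rw [this, zero_mul]
    by_cases hxe : x e = 0
    · rw [e1, hzx e hxe]
      linarith
    by_cases hze : z e = 0
    · rw [e1, hze]
      linarith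
    obtain ⟨hv1, hv2, hv3⟩ := hvc e he hxe
    obtain ⟨ht1, ht2, ht3, ht4⟩ := htri e he hxe
    have hzz := hv3 hze
    obtain ⟨hd1, hd2⟩ := hdom e he hxe (vc e) hv1 hv2
    have hzpos : 0 < z e := lt_of_le_of_ne (hz0 e) (Ne.symm hze)
    have hden' := hden e he hxe (vc e)
    have hnum0 : 0 < num (X (vc e)) (κ e) (K (vc e)) (7 / 3 * Hh e) := by
      rw [← hzz]
      exact mul_pos hzpos hden'
    have ha1 := acc1_c hx hdeg hF hR' (s := s) (fun f _ => hsle f) hy1C hy1c2 he ht1 ht2 ht3 ht4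
    have ha2 := acc2_c hx hdeg hF hR' (s := dem H x κ 3) (fun f hf => (hdF f hf).le) hy1C hy1c2
      he ht1 ht2 ht3 ht4
    have hMI := MI (A1 := 7 / 3 * Acc1 e) (A2 := 7 / 3 * Acc2 e) hd1 hd2 ha1 ha2 hnum0
    rw [← hzz] at hMI
    have hp : x e + (p3 H x (w0 e (vc e)) - x e) = p3 H x (wc e) := by
      simp only [hwc]
      ring
    rw [hp] at hMI
    have hzG := le_of_mul_le_mul_right hMI hden'
    -- gains
    have h1 : x e * max 0 (om (x e) - ps (p3 H x (wc e))) * max 0 (Acc1 e) = π1 e * Acc1 e := by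
      by_cases h : 0 < Acc1 e
      · have : π1 e = x e * max 0 (om (x e) - ps (p3 H x (wc e))) := by
          simp only [hπ1]
          rw [if_pos ⟨h, he⟩]
        rw [this, max_eq_right h.le]
      · have : π1 e = 0 := by
          simp only [hπ1]
          rw [if_neg (fun h' => h h'.1)]
        rw [this, max_eq_left (not_lt.1 h), zero_mul, mul_zero]
    have h2 : x e * ps (p3 H x (wc e)) * Acc2 e ≤ π2 e * Acc2 e := by
      by_cases h : 0 < Acc2 e
      · have : π2 e = x e * ps (p3 H x (wc e)) := by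
          simp only [hπ2]
          rw [if_pos ⟨h, he⟩]
        rw [this]
      · have : π2 e = 0 := by
          simp only [hπ2]
          rw [if_neg (fun h' => h h'.1)]
        rw [this, zero_mul]
        exact mul_nonpos_of_nonneg_of_nonpos (mul_nonneg (hx e) (ps_nonneg _)) (not_lt.1 h)
    have h3 : max 0 (7 / 3 * Acc1 e) = 7 / 3 * max 0 (Acc1 e) := by
      rw [mul_max_of_nonneg _ _ (by norm_num), mul_zero]
    rw [h3] at hzG
    have h4 := mul_le_mul_of_nonneg_right hzG (hxc e)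
    have h5 : (ps (p3 H x (wc e)) * (7 / 3 * Acc2 e) +
        max 0 (om (x e) - ps (p3 H x (wc e))) * (7 / 3 * max 0 (Acc1 e))) * (x e / (7 / 3)) =
        x e * ps (p3 H x (wc e)) * Acc2 e +
        x e * max 0 (om (x e) - ps (p3 H x (wc e))) * max 0 (Acc1 e) := by
      ring
    rw [h5, h1] at h4
    rw [e1]
    linarith

/-- **Level three.** -/
theorem lvl_three (hclique : CliqueThree) {H : E → Finset V} (hne : ∀ e, (H e).Nonempty)
    {x : E → ℝ} (hx : ∀ e, 0 ≤ x e) (hdeg : ∀ v, ∑ f with v ∈ H f, x f ≤ 1)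
    (hsdr : ∃ rep : E → V, (∀ e, x e ≠ 0 → rep e ∈ H e) ∧
      ∀ e f, x e ≠ 0 → x f ≠ 0 → rep e = rep f → e = f) : Lvl H x (kap3 H x) 3 := by
  obtain ⟨rep, hrep, hinj⟩ := hsdr
  apply step_three hclique hne hx hdeg hrep hinj
  apply lvl_of_good hne hx hdeg hrep hinj le_rfl
  intro g hg
  obtain ⟨h1, h2, h3⟩ := kap4_good hx hrep hinj g hg
  refine ⟨h1, h2.trans (le_of_eq ?_), h3.trans (le_of_eq ?_)⟩
  · unfold kbar; norm_num
  · unfold rbar; norm_num

end H70.FKS
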