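import Mathlib

/-!
# The base lemma for non-uniform fractional matchings

`H : E → Finset V` is a multi-hypergraph, `S` a set of edges, `t` a fractional matching on `S`,
`φ` an injection from `S` into the tight vertices with `φ e ∈ e`.  Under a numerical condition on
the coefficients `c`, some edge `e ∈ S` has `∑_{f ∈ S meets e} t f / c |f| ≤ 1`.
-/

namespace H70.FKS

open Finset

variable {V E : Type*}

/-- Weighted Chebyshev inequality. -/
lemma cheb {ι : Type*} (s : Finset ι) (w a b : ι → ℝ) (hw : ∀ i ∈ s, 0 ≤ w i)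
    (hab : ∀ i ∈ s, ∀ j ∈ s, 0 ≤ (a i - a j) * (b i - b j)) :
    (∑ i ∈ s, w i * a i) * (∑ i ∈ s, w i * b i) ≤
      (∑ i ∈ s, w i) * (∑ i ∈ s, w i * (a i * b i)) := by
  have h : 0 ≤ ∑ i ∈ s, ∑ j ∈ s, w i * w j * ((a i - a j) * (b i - b j)) :=
    sum_nonneg fun i hi => sum_nonneg fun j hj =>
      mul_nonneg (mul_nonneg (hw i hi) (hw j hj)) (hab i hi j hj)
  have e : ∑ i ∈ s, ∑ j ∈ s, w i * w j * ((a i - a j) * (b i - b j)) =
      2 * ((∑ i ∈ s, w i) * (∑ i ∈ s, w i * (a i * b i))) -
      2 * ((∑ i ∈ s, w i * a i) * (∑ i ∈ s, w i * b i)) := by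
    have e1 : ∀ i ∈ s, ∀ j ∈ s, w i * w j * ((a i - a j) * (b i - b j)) =
        (w i * (a i * b i)) * w j + w i * (w j * (a j * b j)) - (w i * a i) * (w j * b j)
          - (w i * b i) * (w j * a j) := by
      intro i _ j _; ring
    rw [sum_congr rfl fun i hi => sum_congr rfl fun j hj => e1 i hi j hj]
    simp only [sum_sub_distrib, sum_add_distrib, ← sum_mul_sum]
    ring
  linarith

/-- Covariance lower bound at a tight vertex. -/
lemma cov_lower {ι : Type*} [DecidableEq ι] (s : Finset ι) (w a b : ι → ℝ)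
    (hw : ∀ i ∈ s, 0 ≤ w i)
    (hab : ∀ i ∈ s, ∀ j ∈ s, 0 ≤ (a i - a j) * (b i - b j)) (h1 : ∑ i ∈ s, w i = 1)
    (e : ι) (he : e ∈ s) :
    w e * ∑ i ∈ s, w i * ((a i - a e) * (b i - b e)) ≤
      ∑ i ∈ s, w i * (a i * b i) - (∑ i ∈ s, w i * a i) * (∑ i ∈ s, w i * b i) := by
  have hrest : ∑ i ∈ s.erase e, w i = 1 - w e := by
    rw [← h1, ← add_sum_erase s w he]; ring
  have hch := cheb (s.erase e) w (fun i => a i - a e) (fun i => b i - b e)
    (fun i hi => hw i (mem_of_mem_erase hi)) (by
      intro i hi j hj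
      have := hab i (mem_of_mem_erase hi) j (mem_of_mem_erase hj)
      have e1 : (a i - a e - (a j - a e)) * (b i - b e - (b j - b e)) =
        (a i - a j) * (b i - b j) := by ring
      rw [e1]; exact this)
  have z : ∀ F : ι → ℝ, F e = 0 → ∑ i ∈ s.erase e, F i = ∑ i ∈ s, F i := by
    intro F hF
    rw [← add_sum_erase s F he, hF, zero_add]
  rw [z (fun i => w i * (a i - a e)) (by simp), z (fun i => w i * (b i - b e)) (by simp),
    z (fun i => w i * ((a i - a e) * (b i - b e))) (by simp), hrest] at hch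
  have ea : ∑ i ∈ s, w i * (a i - a e) = ∑ i ∈ s, w i * a i - a e := by
    simp only [mul_sub, sum_sub_distrib, ← sum_mul, h1, one_mul]
  have eb : ∑ i ∈ s, w i * (b i - b e) = ∑ i ∈ s, w i * b i - b e := by
    simp only [mul_sub, sum_sub_distrib, ← sum_mul, h1, one_mul]
  have eab : ∑ i ∈ s, w i * ((a i - a e) * (b i - b e)) =
      ∑ i ∈ s, w i * (a i * b i) - b e * ∑ i ∈ s, w i * a i - a e * ∑ i ∈ s, w i * b i
        + a e * b e := by
    have e1 : ∀ i ∈ s, w i * ((a i - a e) * (b i - b e)) =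
        w i * (a i * b i) - b e * (w i * a i) - a e * (w i * b i) + w i * (a e * b e) := by
      intro i _; ring
    rw [sum_congr rfl e1]
    simp only [sum_sub_distrib, sum_add_distrib, ← mul_sum, ← sum_mul, h1, one_mul]
  rw [ea, eb] at hch
  rw [eab] at hch ⊢
  nlinarith [hch]

/-- The numerical condition on the coefficients `c` with witnesses `G`, `P`. -/
structure Good (c G P : ℕ → ℝ) : Prop where
  c_one : ∀ k, 1 ≤ k → 1 ≤ c k
  c_mono : ∀ a b, 2 ≤ a → a ≤ b → c a ≤ c b
  G_pos : ∀ k, 2 ≤ k → 0 < G k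
  G_anti : ∀ a b, 2 ≤ a → a ≤ b → G b ≤ G a
  P_nonneg : ∀ k, 2 ≤ k → 0 ≤ P k
  main : ∀ a b : ℕ, 2 ≤ a → 2 ≤ b → ∀ t : ℝ, 0 < t → t ≤ 1 →
    t * (G a / c a * ((a - c a) - (a - 1) * t) + (a - 1) * P a) ≤
      (1 - t) * (P b + t * ((G a - G b) * (1 / c a - 1 / c b)))

variable [Fintype V] [DecidableEq V] [DecidableEq E]

lemma Good.pos {c G P : ℕ → ℝ} (h : Good c G P) {k : ℕ} (hk : 1 ≤ k) : 0 < c k :=
  lt_of_lt_of_le one_pos (h.c_one k hk)

lemma Good.sim {c G P : ℕ → ℝ} (h : Good c G P) {a b : ℕ} (ha : 2 ≤ a) (hb : 2 ≤ b) :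
    0 ≤ (G a - G b) * (1 / c a - 1 / c b) := by
  have pa := h.pos (k := a) (by omega)
  have pb := h.pos (k := b) (by omega)
  rcases le_total a b with hab | hab
  · exact mul_nonneg (sub_nonneg.2 (h.G_anti a b ha hab))
      (sub_nonneg.2 (one_div_le_one_div_of_le pa (h.c_mono a b ha hab)))
  · exact mul_nonneg_of_nonpos_of_nonpos (sub_nonpos.2 (h.G_anti b a hb hab))
      (sub_nonpos.2 (one_div_le_one_div_of_le pb (h.c_mono b a hb hab)))

/-- Base lemma, all sizes at least two. -/
lemma base_two {c G P : ℕ → ℝ} (hg : Good c G P) (H : E → Finset V) (S : Finset E)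
    (hS : S.Nonempty) (t : E → ℝ) (ht : ∀ e ∈ S, 0 < t e)
    (hload : ∀ v, ∑ f ∈ S with v ∈ H f, t f ≤ 1)
    (hcard : ∀ e ∈ S, 2 ≤ (H e).card)
    (φ : E → V) (hφm : ∀ e ∈ S, φ e ∈ H e)
    (hφt : ∀ e ∈ S, ∑ f ∈ S with φ e ∈ H f, t f = 1) (hφi : Set.InjOn φ S) :
    ∃ e ∈ S, ∑ f ∈ S with ¬ Disjoint (H e) (H f), t f / c (H f).card ≤ 1 := by
  classical
  by_contra hcon
  push Not at hcon
  -- abbreviations
  set C : E → ℝ := fun e => c (H e).card with hC
  set g : E → ℝ := fun e => G (H e).card with hgdef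
  set p : E → ℝ := fun e => P (H e).card with hp
  set k : E → ℝ := fun e => ((H e).card : ℝ) with hk
  set y : V → ℝ := fun v => ∑ f ∈ S with v ∈ H f, t f / C f with hy
  have hCpos : ∀ e ∈ S, 0 < C e := fun e he => hg.pos (by have := hcard e he; omega)
  have hgpos : ∀ e ∈ S, 0 < g e := fun e he => hg.G_pos _ (hcard e he)
  have hppos : ∀ e ∈ S, 0 ≤ p e := fun e he => hg.P_nonneg _ (hcard e he)
  have hsim : ∀ e ∈ S, ∀ f ∈ S, 0 ≤ (g e - g f) * (1 / C e - 1 / C f) :=
    fun e he f hf => hg.sim (hcard e he) (hcard f hf)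
  -- Step 1
  have step1 : ∀ e ∈ S, ∑ v ∈ H e, (1 - C e * y v) < k e - C e - (k e - 1) * t e := by
    intro e he
    have hA := hcon e he
    have hsum : ∑ v ∈ H e, y v = ∑ f ∈ S, ((H e ∩ H f).card : ℝ) * (t f / C f) := by
      simp only [hy, sum_filter]
      rw [sum_comm]
      refine sum_congr rfl fun f _ => ?_
      rw [← sum_filter, sum_const, nsmul_eq_mul]
      congr 3
    have hlow : ∑ f ∈ S with ¬ Disjoint (H e) (H f), t f / C f + (k e - 1) * (t e / C e) ≤
        ∑ f ∈ S, ((H e ∩ H f).card : ℝ) * (t f / C f) := by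
      rw [sum_filter, ← add_sum_erase S _ he, ← add_sum_erase S
        (fun f => ((H e ∩ H f).card : ℝ) * (t f / C f)) he]
      have hne : ¬ Disjoint (H e) (H e) := by
        rw [disjoint_self]
        intro h0
        have := hcard e he
        rw [bot_eq_empty] at h0
        rw [h0] at this; simp at this
      rw [if_pos hne, inter_self]
      have : ∑ x ∈ S.erase e, (if ¬ Disjoint (H e) (H x) then t x / C x else 0) ≤
          ∑ x ∈ S.erase e, ((H e ∩ H x).card : ℝ) * (t x / C x) := by
        refine sum_le_sum fun f hf => ?_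
        have hf' := mem_of_mem_erase hf
        have hq : 0 ≤ t f / C f := (div_pos (ht f hf') (hCpos f hf')).le
        by_cases hd : Disjoint (H e) (H f)
        · rw [if_neg (not_not.2 hd)]
          exact mul_nonneg (Nat.cast_nonneg _) hq
        · rw [if_pos hd]
          have : 1 ≤ ((H e ∩ H f).card : ℝ) := by
            have : 1 ≤ (H e ∩ H f).card := by
              rw [Nat.succ_le_iff, card_pos, ← not_disjoint_iff_nonempty_inter]
              exact hd
            exact_mod_cast this
          nlinarith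
      have hk' : ((H e).card : ℝ) = k e := rfl
      rw [hk']
      linarith
    have h1 : 1 + (k e - 1) * (t e / C e) < ∑ v ∈ H e, y v := by
      rw [hsum]; linarith
    have hc0 := hCpos e he
    have h2 : C e * (1 + (k e - 1) * (t e / C e)) < C e * ∑ v ∈ H e, y v :=
      mul_lt_mul_of_pos_left h1 hc0
    have h3 : C e * (1 + (k e - 1) * (t e / C e)) = C e + (k e - 1) * t e := by
      field_simp
    rw [h3] at h2
    rw [sum_sub_distrib, ← mul_sum, sum_const, nsmul_eq_mul, mul_one]
    linarith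
  -- covariance at a vertex
  set Cov : V → ℝ := fun v => ∑ e ∈ S with v ∈ H e, t e * (g e / C e) * (1 - C e * y v) with hCov
  have hCov_eq : ∀ v, Cov v = ∑ e ∈ S with v ∈ H e, t e * (g e * (1 / C e)) -
      (∑ e ∈ S with v ∈ H e, t e * g e) * (∑ e ∈ S with v ∈ H e, t e * (1 / C e)) := by
    intro v
    have hyv : y v = ∑ e ∈ S with v ∈ H e, t e * (1 / C e) := by
      simp only [hy, mul_one_div]
    simp only [hCov]
    rw [← hyv, sum_mul, ← sum_sub_distrib]
    refine sum_congr rfl fun e he => ?_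
    have := hCpos e (mem_filter.1 he).1
    field_simp
  have hCov_nonneg : ∀ v, 0 ≤ Cov v := by
    intro v
    rw [hCov_eq]
    have hch := cheb (S.filter (fun e => v ∈ H e)) t g (fun e => 1 / C e)
      (fun e he => (ht e (mem_filter.1 he).1).le)
      (fun e he f hf => hsim e (mem_filter.1 he).1 f (mem_filter.1 hf).1)
    have hnn : 0 ≤ ∑ e ∈ S with v ∈ H e, t e * (g e * (1 / C e)) := by
      refine sum_nonneg fun e he => ?_
      have he' := (mem_filter.1 he).1
      have h1 := ht e he'
      have h2 := hgpos e he'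
      have h3 := hCpos e he'
      positivity
    nlinarith [hload v]
  -- Step 2
  have step2 : ∑ v, Cov v <
      ∑ e ∈ S, t e * (g e / C e) * (k e - C e - (k e - 1) * t e) := by
    have : ∑ v, Cov v = ∑ e ∈ S, t e * (g e / C e) * ∑ v ∈ H e, (1 - C e * y v) := by
      simp only [hCov, sum_filter]
      rw [sum_comm]
      refine sum_congr rfl fun e _ => ?_
      rw [mul_sum, ← sum_filter]
      refine sum_congr ?_ fun _ _ => rfl
      ext v; simp
    rw [this]
    refine sum_lt_sum_of_nonempty hS fun e he => ?_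
    exact mul_lt_mul_of_pos_left (step1 e he)
      (mul_pos (ht e he) (div_pos (hgpos e he) (hCpos e he)))
  -- prices
  set pr : V → ℝ := fun v => ∑ f ∈ S with v ∈ H f, t f * p f with hpr
  have hpr_nonneg : ∀ v, 0 ≤ pr v := fun v => sum_nonneg fun f hf =>
    mul_nonneg (ht f (mem_filter.1 hf).1).le (hppos f (mem_filter.1 hf).1)
  have hpr_sum : ∑ v, pr v = ∑ e ∈ S, k e * (t e * p e) := by
    simp only [hpr, sum_filter]
    rw [sum_comm]
    refine sum_congr rfl fun e _ => ?_
    rw [← sum_filter, sum_const, nsmul_eq_mul]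
    congr 3
    ext v; simp
  -- Step 3
  have step3 : ∀ e ∈ S, t e * (g e / C e) * (k e - C e - (k e - 1) * t e) + k e * (t e * p e) ≤
      Cov (φ e) + pr (φ e) := by
    intro e he
    set s := S.filter (fun f => φ e ∈ H f) with hs
    have hes : e ∈ s := mem_filter.2 ⟨he, hφm e he⟩
    have hws : ∀ f ∈ s, 0 ≤ t f := fun f hf => (ht f (mem_filter.1 hf).1).le
    have hsS : ∀ f ∈ s, f ∈ S := fun f hf => (mem_filter.1 hf).1
    have h1 : ∑ f ∈ s, t f = 1 := hφt e he
    have hcov := cov_lower s t g (fun e => 1 / C e) hws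
      (fun i hi j hj => hsim i (hsS i hi) j (hsS j hj)) h1 e hes
    have hrest : ∑ i ∈ s.erase e, t i = 1 - t e := by
      rw [← h1, ← add_sum_erase s t hes]; ring
    have hte1 : t e ≤ 1 := by
      have : 0 ≤ ∑ i ∈ s.erase e, t i := sum_nonneg fun i hi => hws i (mem_of_mem_erase hi)
      linarith
    have hlow : t e * p e + t e * (g e / C e * ((k e - C e) - (k e - 1) * t e) + (k e - 1) * p e) ≤
        ∑ f ∈ s, t f * p f + t e * ∑ f ∈ s, t f * ((g f - g e) * (1 / C f - 1 / C e)) := by
      rw [← add_sum_erase s (fun f => t f * p f) hes,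
        ← add_sum_erase s (fun f => t f * ((g f - g e) * (1 / C f - 1 / C e))) hes]
      simp only [sub_self, mul_zero, zero_add]
      rw [mul_sum, add_assoc, ← sum_add_distrib]
      refine add_le_add le_rfl ?_
      by_cases h0 : (s.erase e).Nonempty
      · -- averaging
        have hpos : 0 < 1 - t e := by
          rw [← hrest]
          exact sum_pos (fun i hi => ht i (hsS i (mem_of_mem_erase hi))) h0
        set L := t e * (g e / C e * ((k e - C e) - (k e - 1) * t e) + (k e - 1) * p e) with hL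
        have hterm : ∀ f ∈ s.erase e, t f * (L / (1 - t e)) ≤
            t f * p f + t e * (t f * ((g f - g e) * (1 / C f - 1 / C e))) := by
          intro f hf
          have hf' := hsS f (mem_of_mem_erase hf)
          have hm := hg.main (H e).card (H f).card (hcard e he) (hcard f hf') (t e) (ht e he) hte1
          have hm' : L / (1 - t e) ≤ p f + t e * ((g e - g f) * (1 / C e - 1 / C f)) := by
            rw [div_le_iff₀ hpos]
            rw [mul_comm (p f + _)]
            exact hm
          have := mul_le_mul_of_nonneg_left hm' (ht f hf').le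
          refine this.trans (le_of_eq ?_)
          ring
        have := sum_le_sum hterm
        rw [← sum_mul, hrest] at this
        have e1 : (1 - t e) * (L / (1 - t e)) = L := by field_simp
        linarith
      · rw [not_nonempty_iff_eq_empty] at h0
        rw [h0, sum_empty] at hrest
        have hm := hg.main (H e).card (H e).card (hcard e he) (hcard e he) (t e) (ht e he) hte1
        rw [h0, sum_empty]
        refine hm.trans (le_of_eq ?_)
        rw [← hrest, zero_mul]
    have e2 : Cov (φ e) = ∑ i ∈ s, t i * (g i * (1 / C i)) -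
        (∑ i ∈ s, t i * g i) * (∑ i ∈ s, t i * (1 / C i)) := hCov_eq (φ e)
    have e3 : pr (φ e) = ∑ f ∈ s, t f * p f := rfl
    rw [e2, e3]
    have : t e * (g e / C e) * (k e - C e - (k e - 1) * t e) + k e * (t e * p e) =
        t e * p e + t e * (g e / C e * ((k e - C e) - (k e - 1) * t e) + (k e - 1) * p e) := by
      ring
    rw [this]
    linarith
  -- Step 4
  have step4 : ∑ e ∈ S, (Cov (φ e) + pr (φ e)) ≤ ∑ v, (Cov v + pr v) := by
    rw [← sum_image (f := fun v => Cov v + pr v) (g := φ) (s := S) hφi]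
    exact sum_le_sum_of_subset_of_nonneg (subset_univ _)
      (fun v _ _ => add_nonneg (hCov_nonneg v) (hpr_nonneg v))
  have step5 := sum_le_sum step3
  rw [sum_add_distrib] at step5 step4
  rw [sum_add_distrib] at step4
  rw [sum_add_distrib] at step5
  linarith [hpr_sum]

end H70.FKS
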