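import Mathlib
import Pool.Agent.H70.FKS.Base

/-!
# Local ratio: weighted matchings versus fractional matchings
-/

namespace H70.FKS

open Finset

variable {V E : Type*} [Fintype V] [DecidableEq V] [DecidableEq E]

/-- More unknowns than equations. -/
lemma exists_relation (H : E → Finset V) (A : Finset E) (B : Finset V) (hAB : B.card < A.card) :
    ∃ z : E → ℝ, (∀ e, e ∉ A → z e = 0) ∧ z ≠ 0 ∧
      ∀ v ∈ B, ∑ e ∈ A with v ∈ H e, z e = 0 := by
  classical
  let L : (A → ℝ) →ₗ[ℝ] (B → ℝ) :=
    { toFun := fun z v => ∑ e : A, if (v : V) ∈ H e then z e else 0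
      map_add' := by
        intro x y; funext v
        simp only [Pi.add_apply, ← sum_add_distrib]
        refine sum_congr rfl fun e _ => ?_
        split_ifs <;> simp
      map_smul' := by
        intro r x; funext v
        simp only [Pi.smul_apply, smul_eq_mul, RingHom.id_apply, mul_sum]
        refine sum_congr rfl fun e _ => ?_
        split_ifs <;> simp }
  have hker : LinearMap.ker L ≠ ⊥ := by
    apply LinearMap.ker_ne_bot_of_finrank_lt
    simpa using hAB
  obtain ⟨z, hz, hz0⟩ := (Submodule.ne_bot_iff _).1 hker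
  refine ⟨fun e => if h : e ∈ A then z ⟨e, h⟩ else 0, ?_, ?_, ?_⟩
  · intro e he; simp [he]
  · intro h
    apply hz0
    funext e
    have := congrFun h e
    simpa using this
  · intro v hv
    have h1 : L z ⟨v, hv⟩ = 0 := by
      rw [LinearMap.mem_ker] at hz
      rw [hz]; rfl
    have h2 : L z ⟨v, hv⟩ = ∑ e : A, if v ∈ H e then z e else 0 := rfl
    rw [h2] at h1
    refine Eq.trans ?_ h1
    rw [sum_filter, ← sum_coe_sort A]
    refine sum_congr rfl fun e _ => ?_
    simp

/-- Injection of the support into the tight vertices. -/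
lemma exists_inj (H : E → Finset V) (S : Finset E) (hS : S.Nonempty) (t : E → ℝ)
    (hext : ∀ z : E → ℝ, (∀ e, e ∉ S → z e = 0) →
      (∀ v, ∑ f ∈ S with v ∈ H f, t f = 1 → ∑ f ∈ S with v ∈ H f, z f = 0) → z = 0) :
    ∃ φ : E → V, (∀ e ∈ S, φ e ∈ H e) ∧ (∀ e ∈ S, ∑ f ∈ S with φ e ∈ H f, t f = 1) ∧
      Set.InjOn φ S := by
  classical
  let T : S → Finset V := fun e => (H e).filter (fun v => ∑ f ∈ S with v ∈ H f, t f = 1)
  have hall : ∀ s : Finset S, s.card ≤ (s.biUnion T).card := by
    intro s
    by_contra hlt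
    push Not at hlt
    set A : Finset E := s.map (Function.Embedding.subtype _) with hA
    have hAS : A ⊆ S := by
      intro e he
      simp only [hA, mem_map, Function.Embedding.subtype_apply] at he
      obtain ⟨x, _, rfl⟩ := he
      exact x.2
    have hAc : A.card = s.card := card_map _
    obtain ⟨z, hz1, hz2, hz3⟩ := exists_relation H A (s.biUnion T) (by omega)
    apply hz2
    apply hext z (fun e he => hz1 e (fun h => he (hAS h)))
    intro v hv
    have e1 : ∑ f ∈ S with v ∈ H f, z f = ∑ f ∈ A with v ∈ H f, z f := by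
      symm
      apply sum_subset (filter_subset_filter _ hAS)
      intro f hf hf'
      apply hz1
      intro h
      exact hf' (mem_filter.2 ⟨h, (mem_filter.1 hf).2⟩)
    rw [e1]
    by_cases hvB : v ∈ s.biUnion T
    · exact hz3 v hvB
    · apply sum_eq_zero
      intro f hf
      exfalso
      apply hvB
      have hf' := mem_filter.1 hf
      have hfA := hf'.1
      simp only [hA, mem_map, Function.Embedding.subtype_apply] at hfA
      obtain ⟨x, hx, rfl⟩ := hfA
      exact mem_biUnion.2 ⟨x, hx, mem_filter.2 ⟨hf'.2, hv⟩⟩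
  obtain ⟨f, hfi, hfm⟩ := (all_card_le_biUnion_card_iff_exists_injective T).1 hall
  obtain ⟨e0, he0⟩ := hS
  refine ⟨fun e => if h : e ∈ S then f ⟨e, h⟩ else f ⟨e0, he0⟩, ?_, ?_, ?_⟩
  · intro e he
    simp only [he, dif_pos]
    exact (mem_filter.1 (hfm ⟨e, he⟩)).1
  · intro e he
    simp only [he, dif_pos]
    exact (mem_filter.1 (hfm ⟨e, he⟩)).2
  · intro e he e' he' h
    have he1 : e ∈ S := he
    have he2 : e' ∈ S := he'
    simp only [he1, he2, dif_pos] at h
    have := hfi h
    simpa using this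

/-- Base lemma at an extreme point. -/
lemma base {c G P : ℕ → ℝ} (hg : Good c G P) (H : E → Finset V) (S : Finset E)
    (hS : S.Nonempty) (hne : ∀ e, (H e).Nonempty) (t : E → ℝ) (ht : ∀ e ∈ S, 0 < t e)
    (hload : ∀ v, ∑ f ∈ S with v ∈ H f, t f ≤ 1)
    (hext : ∀ z : E → ℝ, (∀ e, e ∉ S → z e = 0) →
      (∀ v, ∑ f ∈ S with v ∈ H f, t f = 1 → ∑ f ∈ S with v ∈ H f, z f = 0) → z = 0) :
    ∃ e ∈ S, ∑ f ∈ S with ¬ Disjoint (H e) (H f), t f / c (H f).card ≤ 1 := by
  classical
  by_cases h1 : ∃ e ∈ S, (H e).card = 1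
  · obtain ⟨e, he, hc⟩ := h1
    obtain ⟨v, hv⟩ := card_eq_one.1 hc
    refine ⟨e, he, ?_⟩
    rw [hv]
    have e1 : (S.filter fun f => ¬ Disjoint {v} (H f)) = S.filter fun f => v ∈ H f := by
      apply filter_congr
      intro f _
      simp
    rw [e1]
    refine (sum_le_sum fun f hf => ?_).trans (hload v)
    have hf' := (mem_filter.1 hf).1
    exact div_le_self (ht f hf').le (hg.c_one _ (card_pos.2 (hne f)))
  · push Not at h1
    obtain ⟨φ, a, b, d⟩ := exists_inj H S hS t hext
    refine base_two hg H S hS t ht hload ?_ φ a b d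
    intro e he
    have := card_pos.2 (hne e)
    have := h1 e he
    omega

/-- What the local ratio induction needs: positive coefficients and, for every fractional matching
with full support `S` that is extreme, an edge `e` with `∑_{f meets e} t f / c |f| ≤ 1`. -/
structure BaseHyp (c : ℕ → ℝ) (H : E → Finset V) : Prop where
  pos : ∀ e, 0 < c (H e).card
  base : ∀ (S : Finset E), S.Nonempty → ∀ (t : E → ℝ), (∀ e ∈ S, 0 < t e) →
    (∀ v, ∑ f ∈ S with v ∈ H f, t f ≤ 1) →
    (∀ z : E → ℝ, (∀ e, e ∉ S → z e = 0) →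
      (∀ v, ∑ f ∈ S with v ∈ H f, t f = 1 → ∑ f ∈ S with v ∈ H f, z f = 0) → z = 0) →
    ∃ e ∈ S, ∑ f ∈ S with ¬ Disjoint (H e) (H f), t f / c (H f).card ≤ 1

lemma Good.baseHyp {c G P : ℕ → ℝ} (hg : Good c G P) (H : E → Finset V)
    (hne : ∀ e, (H e).Nonempty) : BaseHyp c H where
  pos := fun e => hg.pos (card_pos.2 (hne e))
  base := fun S hS t ht hload hext => base hg H S hS hne t ht hload hext

/-- The fractional matchings supported on `S`. -/
def Poly (H : E → Finset V) (S : Finset E) : Set (E → ℝ) :=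
  {t | (∀ e, 0 ≤ t e) ∧ (∀ e, e ∉ S → t e = 0) ∧ ∀ v, ∑ f ∈ S with v ∈ H f, t f ≤ 1}

omit [Fintype V] in
lemma poly_compact [Fintype E] (H : E → Finset V) (hne : ∀ e, (H e).Nonempty) (S : Finset E) :
    IsCompact (Poly H S) := by
  have hcl : IsClosed (Poly H S) := by
    have e1 : Poly H S = (⋂ e, {t : E → ℝ | 0 ≤ t e}) ∩
        ((⋂ e, ⋂ (_ : e ∉ S), {t : E → ℝ | t e = 0}) ∩
          ⋂ v, {t : E → ℝ | ∑ f ∈ S with v ∈ H f, t f ≤ 1}) := by
      ext t; simp [Poly]
    rw [e1]
    refine IsClosed.inter ?_ (IsClosed.inter ?_ ?_)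
    · exact isClosed_iInter fun e => isClosed_le continuous_const (continuous_apply e)
    · exact isClosed_iInter fun e => isClosed_iInter fun _ =>
        isClosed_eq (continuous_apply e) continuous_const
    · exact isClosed_iInter fun v => isClosed_le
        (continuous_finsetSum _ fun f _ => continuous_apply f) continuous_const
  have hsub : Poly H S ⊆ Set.Icc (0 : E → ℝ) 1 := by
    intro t ht
    refine ⟨fun e => ht.1 e, fun e => ?_⟩
    by_cases he : e ∈ S
    · obtain ⟨v, hv⟩ := hne e
      have := ht.2.2 v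
      have h2 : t e ≤ ∑ f ∈ S with v ∈ H f, t f :=
        single_le_sum (f := t) (fun f _ => ht.1 f) (mem_filter.2 ⟨he, hv⟩)
      simpa using h2.trans this
    · rw [ht.2.1 e he]; simp
  exact isCompact_Icc.of_isClosed_subset hcl hsub

/-- An optimal fractional matching that is extreme. -/
lemma exists_extreme [Fintype E] (H : E → Finset V) (hne : ∀ e, (H e).Nonempty) (S : Finset E)
    (w : E → ℝ) :
    ∃ t ∈ Poly H S, (∀ s ∈ Poly H S, ∑ e ∈ S, w e * s e ≤ ∑ e ∈ S, w e * t e) ∧
      ((∀ e ∈ S, 0 < t e) → ∀ z : E → ℝ, (∀ e, e ∉ S → z e = 0) →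
      (∀ v, ∑ f ∈ S with v ∈ H f, t f = 1 → ∑ f ∈ S with v ∈ H f, z f = 0) → z = 0) := by
  classical
  have hc := poly_compact H hne S
  have hP0 : (Poly H S).Nonempty := ⟨0, by simp [Poly]⟩
  have hcont : Continuous fun t : E → ℝ => ∑ e ∈ S, w e * t e :=
    continuous_finsetSum _ fun e _ => continuous_const.mul (continuous_apply e)
  obtain ⟨t0, ht0, hmax⟩ := hc.exists_isMaxOn hP0 hcont.continuousOn
  set m := ∑ e ∈ S, w e * t0 e with hm
  set B : Set (E → ℝ) := Poly H S ∩ {t | ∑ e ∈ S, w e * t e = m} with hB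
  have hBc : IsCompact B := hc.inter_right (isClosed_eq hcont continuous_const)
  have hBn : B.Nonempty := ⟨t0, ht0, rfl⟩
  obtain ⟨t, ht⟩ := hBc.extremePoints_nonempty hBn
  rw [mem_extremePoints] at ht
  obtain ⟨⟨htP, htm⟩, hext⟩ := ht
  have htm' : ∑ e ∈ S, w e * t e = m := htm
  refine ⟨t, htP, fun s hs => ?_, ?_⟩
  · rw [htm']; exact hmax hs
  · intro hpos z hz1 hz2
    -- small perturbations stay in the polytope
    have key : ∀ y : E → ℝ, (∀ e, e ∉ S → y e = 0) →
        (∀ v, ∑ f ∈ S with v ∈ H f, t f = 1 → ∑ f ∈ S with v ∈ H f, y f = 0) →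
        ∀ᶠ ε in nhdsWithin (0 : ℝ) (Set.Ioi 0), (fun e => t e + ε * y e) ∈ Poly H S := by
      intro y hy1 hy2
      have a1 : ∀ e, ∀ᶠ ε in nhdsWithin (0 : ℝ) (Set.Ioi 0), 0 ≤ t e + ε * y e := by
        intro e
        by_cases he : e ∈ S
        · have hcon : Filter.Tendsto (fun ε : ℝ => t e + ε * y e) (nhds 0)
              (nhds (t e + 0 * y e)) := by
            apply Continuous.tendsto; fun_prop
          have : ∀ᶠ ε in nhds (0 : ℝ), 0 < t e + ε * y e := by
            apply hcon.eventually_const_lt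
            simpa using hpos e he
          exact (this.filter_mono nhdsWithin_le_nhds).mono fun ε h => h.le
        · refine Filter.Eventually.of_forall fun ε => ?_
          rw [hy1 e he, htP.2.1 e he]; simp
      have a2 : ∀ v, ∀ᶠ ε in nhdsWithin (0 : ℝ) (Set.Ioi 0),
          ∑ f ∈ S with v ∈ H f, (t f + ε * y f) ≤ 1 := by
        intro v
        have e1 : ∀ ε : ℝ, ∑ f ∈ S with v ∈ H f, (t f + ε * y f) =
            ∑ f ∈ S with v ∈ H f, t f + ε * ∑ f ∈ S with v ∈ H f, y f := by
          intro ε; rw [sum_add_distrib, mul_sum]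
        simp only [e1]
        rcases (htP.2.2 v).lt_or_eq with hlt | heq
        · have hcon : Filter.Tendsto (fun ε : ℝ => ∑ f ∈ S with v ∈ H f, t f +
              ε * ∑ f ∈ S with v ∈ H f, y f) (nhds 0)
              (nhds (∑ f ∈ S with v ∈ H f, t f + 0 * ∑ f ∈ S with v ∈ H f, y f)) := by
            apply Continuous.tendsto; fun_prop
          have : ∀ᶠ ε in nhds (0 : ℝ), ∑ f ∈ S with v ∈ H f, t f +
              ε * ∑ f ∈ S with v ∈ H f, y f < 1 := by
            apply hcon.eventually_lt_const
            simpa using hlt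
          exact (this.filter_mono nhdsWithin_le_nhds).mono fun ε h => h.le
        · refine Filter.Eventually.of_forall fun ε => ?_
          rw [hy2 v heq, heq]; simp
      have a1' := Filter.eventually_all.2 a1
      have a2' := Filter.eventually_all.2 a2
      filter_upwards [a1', a2'] with ε h1 h2
      refine ⟨h1, fun e he => ?_, h2⟩
      show t e + ε * y e = 0
      rw [hy1 e he, htP.2.1 e he]; simp
    have k1 := key z hz1 hz2
    have k2 := key (fun e => - z e) (fun e he => by rw [hz1 e he]; simp)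
      (fun v hv => by rw [sum_neg_distrib, hz2 v hv]; simp)
    have k3 : ∀ᶠ ε in nhdsWithin (0 : ℝ) (Set.Ioi 0), 0 < ε :=
      eventually_mem_nhdsWithin
    obtain ⟨ε, ⟨h1, h2⟩, h3⟩ := ((k1.and k2).and k3).exists
    set x1 : E → ℝ := fun e => t e + ε * z e with hx1
    set x2 : E → ℝ := fun e => t e + ε * (- z e) with hx2
    have m1 : ∑ e ∈ S, w e * x1 e ≤ m := hmax h1
    have m2 : ∑ e ∈ S, w e * x2 e ≤ m := hmax h2
    have msum : ∑ e ∈ S, w e * x1 e + ∑ e ∈ S, w e * x2 e = 2 * m := by
      rw [← sum_add_distrib, ← htm', mul_sum]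
      refine sum_congr rfl fun e _ => ?_
      simp only [hx1, hx2]; ring
    have hb1 : x1 ∈ B := ⟨h1, by
      show ∑ e ∈ S, w e * x1 e = m
      linarith⟩
    have hb2 : x2 ∈ B := ⟨h2, by
      show ∑ e ∈ S, w e * x2 e = m
      linarith⟩
    have hseg : t ∈ openSegment ℝ x1 x2 := by
      refine ⟨1 / 2, 1 / 2, by norm_num, by norm_num, by norm_num, ?_⟩
      funext e
      simp only [hx1, hx2, Pi.add_apply, Pi.smul_apply, smul_eq_mul]
      ring
    have := (hext x1 hb1 x2 hb2 hseg).1
    funext e
    have he := congrFun this e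
    simp only [hx1] at he
    have : ε * z e = 0 := by linarith
    rcases mul_eq_zero.1 this with h | h
    · exact absurd h h3.ne'
    · simpa using h

/-- The weighted matching theorem. -/
theorem weighted [Fintype E] {c : ℕ → ℝ} (H : E → Finset V)
    (hne : ∀ e, (H e).Nonempty) (hb : BaseHyp c H) (n : ℕ) : ∀ (S : Finset E), S.card = n → ∀ (w : E → ℝ),
    ∃ M ⊆ S, (∀ e ∈ M, ∀ f ∈ M, e ≠ f → Disjoint (H e) (H f)) ∧
      ∀ t ∈ Poly H S, ∑ e ∈ S, w e * t e ≤ ∑ e ∈ M, c (H e).card * w e := by
  classical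
  have hrestr : ∀ (S S' : Finset E), S' ⊆ S → ∀ t ∈ Poly H S,
      (fun e => if e ∈ S' then t e else 0) ∈ Poly H S' := by
    intro S S' hSS t ht
    refine ⟨fun e => ?_, fun e he => by simp [he], fun v => ?_⟩
    · by_cases h : e ∈ S'
      · simp only [h, if_true]; exact ht.1 e
      · simp [h]
    · refine le_trans ?_ (ht.2.2 v)
      have : ∑ f ∈ S' with v ∈ H f, (if f ∈ S' then t f else 0) = ∑ f ∈ S' with v ∈ H f, t f :=
        sum_congr rfl fun f hf => if_pos (mem_filter.1 hf).1
      rw [this]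
      exact sum_le_sum_of_subset_of_nonneg (filter_subset_filter _ hSS) fun f _ _ => ht.1 f
  induction n using Nat.strong_induction_on with
  | _ n ih =>
  intro S hSn w
  rcases S.eq_empty_or_nonempty with rfl | hS
  · exact ⟨∅, subset_rfl, by simp, fun t _ => by simp⟩
  obtain ⟨t, htP, hmax, hext⟩ := exists_extreme H hne S w
  by_cases hfull : ∀ e ∈ S, 0 < t e
  · -- all positive: apply the base lemma
    obtain ⟨e, he, hA⟩ := hb.base S hS t hfull htP.2.2 (hext hfull)
    by_cases hwe : w e ≤ 0
    · -- drop e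
      obtain ⟨M, hMS, hM, hMt⟩ := ih (S.erase e).card (by
        rw [card_erase_of_mem he]; have := card_pos.2 hS; omega) (S.erase e) rfl w
      refine ⟨M, hMS.trans (erase_subset _ _), hM, fun s hs => ?_⟩
      have h1 := hMt _ (hrestr S (S.erase e) (erase_subset _ _) s hs)
      have h2 : ∑ x ∈ S.erase e, w x * (if x ∈ S.erase e then s x else 0) =
          ∑ x ∈ S.erase e, w x * s x := sum_congr rfl fun x hx => by rw [if_pos hx]
      rw [h2] at h1
      rw [← add_sum_erase S _ he]
      have := mul_nonpos_of_nonpos_of_nonneg hwe (hs.1 e)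
      linarith
    push Not at hwe
    -- local ratio
    set C : E → ℝ := fun f => c (H f).card with hC
    have hCpos : ∀ f, 0 < C f := hb.pos
    set w2 : E → ℝ := fun f => w f - (if ¬ Disjoint (H e) (H f) then w e * C e / C f else 0)
      with hw2
    obtain ⟨M2, hM2S, hM2, hM2t⟩ := ih (S.erase e).card (by
        rw [card_erase_of_mem he]; have := card_pos.2 hS; omega) (S.erase e) rfl w2
    have heM2 : e ∉ M2 := fun h => (mem_erase.1 (hM2S h)).1 rfl
    have hee : ¬ Disjoint (H e) (H e) := by
      rw [disjoint_self, bot_eq_empty]; exact (hne e).ne_empty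
    have hw2e : w2 e = 0 := by
      simp only [hw2, if_pos hee]
      have := hCpos e
      field_simp
      ring
    -- value of t
    have hval : ∑ f ∈ S, w f * t f ≤ w e * C e + ∑ f ∈ M2, C f * w2 f := by
      have h1 := hM2t _ (hrestr S (S.erase e) (erase_subset _ _) t htP)
      have h2 : ∑ x ∈ S.erase e, w2 x * (if x ∈ S.erase e then t x else 0) =
          ∑ x ∈ S.erase e, w2 x * t x := sum_congr rfl fun x hx => by rw [if_pos hx]
      rw [h2] at h1
      have h3 : ∑ x ∈ S, w2 x * t x = ∑ x ∈ S.erase e, w2 x * t x := by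
        rw [← add_sum_erase S _ he, hw2e]; ring
      have h4 : ∑ x ∈ S, w2 x * t x = ∑ x ∈ S, w x * t x -
          w e * C e * ∑ f ∈ S with ¬ Disjoint (H e) (H f), t f / C f := by
        rw [mul_sum, sum_filter, ← sum_sub_distrib]
        refine sum_congr rfl fun f _ => ?_
        simp only [hw2]
        split_ifs
        · ring
        · ring
      have h5 : w e * C e * ∑ f ∈ S with ¬ Disjoint (H e) (H f), t f / C f ≤ w e * C e * 1 :=
        mul_le_mul_of_nonneg_left hA (mul_pos hwe (hCpos e)).le
      linarith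
    -- contribution of a matching
    have hcontr : ∀ M : Finset E, (∃ f ∈ M, ¬ Disjoint (H e) (H f)) →
        w e * C e + ∑ f ∈ M, C f * w2 f ≤ ∑ f ∈ M, C f * w f := by
      intro M ⟨f, hf, hd⟩
      have e1 : ∑ x ∈ M, C x * w x - ∑ x ∈ M, C x * w2 x =
          ∑ x ∈ M, (if ¬ Disjoint (H e) (H x) then w e * C e else 0) := by
        rw [← sum_sub_distrib]
        refine sum_congr rfl fun x _ => ?_
        simp only [hw2]
        have := hCpos x
        by_cases hd : Disjoint (H e) (H x)
        · rw [if_neg (not_not.2 hd), if_neg (not_not.2 hd)]; ring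
        · rw [if_pos hd, if_pos hd]; field_simp; ring
      have e2 : w e * C e ≤ ∑ x ∈ M, (if ¬ Disjoint (H e) (H x) then w e * C e else 0) := by
        have := single_le_sum (f := fun x => if ¬ Disjoint (H e) (H x) then w e * C e else 0)
          (s := M) (fun x _ => by
            have := (mul_pos hwe (hCpos e)).le
            by_cases hd : Disjoint (H e) (H x)
            · rw [if_neg (not_not.2 hd)]
            · rw [if_pos hd]; exact this) hf
        rwa [if_pos hd] at this
      linarith
    by_cases hadd : ∀ f ∈ M2, Disjoint (H e) (H f)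
    · refine ⟨insert e M2, ?_, ?_, fun s hs => ?_⟩
      · exact insert_subset he (hM2S.trans (erase_subset _ _))
      · intro a ha b hb hab
        rw [mem_insert] at ha hb
        rcases ha with rfl | ha <;> rcases hb with rfl | hb
        · exact absurd rfl hab
        · exact hadd b hb
        · exact (hadd a ha).symm
        · exact hM2 a ha b hb hab
      · have h1 := hcontr (insert e M2) ⟨e, mem_insert_self _ _, hee⟩
        rw [sum_insert heM2, hw2e] at h1
        have := hmax s hs
        linarith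
    · push Not at hadd
      refine ⟨M2, hM2S.trans (erase_subset _ _), hM2, fun s hs => ?_⟩
      have h1 := hcontr M2 hadd
      have := hmax s hs
      linarith
  · -- pass to the support
    push Not at hfull
    obtain ⟨e, he, hte⟩ := hfull
    have hte0 : t e = 0 := le_antisymm hte (htP.1 e)
    obtain ⟨M, hMS, hM, hMt⟩ := ih (S.erase e).card (by
        rw [card_erase_of_mem he]; have := card_pos.2 hS; omega) (S.erase e) rfl w
    refine ⟨M, hMS.trans (erase_subset _ _), hM, fun s hs => ?_⟩
    refine (hmax s hs).trans ?_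
    have h1 := hMt _ (hrestr S (S.erase e) (erase_subset _ _) t htP)
    have h2 : ∑ x ∈ S.erase e, w x * (if x ∈ S.erase e then t x else 0) =
        ∑ x ∈ S.erase e, w x * t x := sum_congr rfl fun x hx => by rw [if_pos hx]
    rw [h2] at h1
    rw [← add_sum_erase S _ he, hte0]
    linarith

end H70.FKS
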