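import Mathlib
import Pool.Agent.H70.FKS.Local

/-!
# Fractional chromatic index of multi-hypergraphs: definitions and LP duality
-/

namespace H70.FKS

open Finset

variable {V E : Type*} [DecidableEq V] [Fintype E] [DecidableEq E]

/-- A multi-hypergraph on `V` is a map `H : E → Finset V` (edge occurrences are the elements of
`E`).  A matching is a set of edge occurrences whose edges are pairwise disjoint. -/
def IsMatching (H : E → Finset V) (M : Finset E) : Prop :=
  ∀ e ∈ M, ∀ f ∈ M, e ≠ f → Disjoint (H e) (H f)

/-- A fractional edge colouring: nonnegative weights on the matchings such that every edge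
occurrence is covered with total weight at least one. -/
structure IsFracColoring (H : E → Finset V) (w : Finset E → ℝ) : Prop where
  nonneg : ∀ M, 0 ≤ w M
  support : ∀ M, w M ≠ 0 → IsMatching H M
  cover : ∀ e, 1 ≤ ∑ M with e ∈ M, w M

/-- The fractional chromatic index. -/
noncomputable def fracChromaticIndex (H : E → Finset V) : ℝ :=
  sInf {x : ℝ | ∃ w : Finset E → ℝ, IsFracColoring H w ∧ ∑ M, w M = x}

/-- Minimax: good matchings for all weights give a fractional colouring. -/
lemma exists_coloring (H : E → Finset V) (D : ℝ) (hD : 0 < D)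
    (hw : ∀ w : E → ℝ, (∀ e, 0 ≤ w e) → ∃ M, IsMatching H M ∧
      (∑ e, w e) / D ≤ ∑ e ∈ M, w e) :
    ∃ w : Finset E → ℝ, IsFracColoring H w ∧ ∑ M, w M ≤ D := by
  classical
  let Mt := {M : Finset E // IsMatching H M}
  let L : (Mt → ℝ) → (E → ℝ) := fun l e => ∑ M : Mt, if e ∈ (M : Finset E) then l M else 0
  have hL : IsLinearMap ℝ L := by
    refine ⟨fun x y => ?_, fun r x => ?_⟩
    · funext e
      simp only [L, Pi.add_apply, ← sum_add_distrib]
      refine sum_congr rfl fun M _ => ?_
      split_ifs <;> simp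
    · funext e
      simp only [L, Pi.smul_apply, smul_eq_mul, mul_sum]
      refine sum_congr rfl fun M _ => ?_
      split_ifs <;> simp
  have hLc : Continuous L := by
    refine continuous_pi fun e => continuous_finsetSum _ fun M _ => ?_
    split_ifs
    · exact continuous_apply M
    · exact continuous_const
  set K : Set (E → ℝ) := L '' stdSimplex ℝ Mt with hK
  have hKconv : Convex ℝ K := (convex_stdSimplex ℝ Mt).is_linear_image hL
  have hKcomp : IsCompact K := (isCompact_stdSimplex ℝ Mt).image hLc
  set U : Set (E → ℝ) := {x | ∀ e, 1 / D ≤ x e} with hU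
  have hUconv : Convex ℝ U := by
    intro x hx y hy a b ha hb hab e
    have h1 := hx e
    have h2 := hy e
    simp only [Pi.add_apply, Pi.smul_apply, smul_eq_mul]
    have h3 := mul_le_mul_of_nonneg_left h1 ha
    have h4 := mul_le_mul_of_nonneg_left h2 hb
    have h5 : 1 / D = a * (1 / D) + b * (1 / D) := by rw [← add_mul, hab, one_mul]
    linarith
  have hUcl : IsClosed U := by
    have : U = ⋂ e, {x : E → ℝ | 1 / D ≤ x e} := by ext x; simp [hU]
    rw [this]
    exact isClosed_iInter fun e => isClosed_le continuous_const (continuous_apply e)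
  have hint : (K ∩ U).Nonempty := by
    by_contra hemp
    rw [Set.not_nonempty_iff_eq_empty] at hemp
    obtain ⟨f, u, v, hf1, huv, hf2⟩ := geometric_hahn_banach_compact_closed hKconv hKcomp
      hUconv hUcl (Set.disjoint_iff_inter_eq_empty.2 hemp)
    set w : E → ℝ := fun e => f (Pi.single e 1) with hwdef
    have hfx : ∀ x : E → ℝ, f x = ∑ e, x e * w e := by
      intro x
      have : x = ∑ e, x e • (Pi.single e (1 : ℝ) : E → ℝ) := by
        funext e'
        simp [Finset.sum_apply, Pi.single_apply]
      conv_lhs => rw [this]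
      rw [map_sum]
      refine sum_congr rfl fun e _ => ?_
      rw [map_smul, smul_eq_mul]
    have hwn : ∀ e, 0 ≤ w e := by
      intro e
      by_contra hneg
      push Not at hneg
      -- go far in direction e
      set b : E → ℝ := fun _ => 1 / D with hb
      set lam : ℝ := max 0 ((f b - v) / (- w e)) with hlam
      have hlam0 : 0 ≤ lam := le_max_left _ _
      have hmem : b + lam • (Pi.single e (1 : ℝ) : E → ℝ) ∈ U := by
        intro e'
        simp only [hb, Pi.add_apply, Pi.smul_apply, smul_eq_mul, Pi.single_apply]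
        split_ifs
        · linarith
        · simp
      have h1 := hf2 _ hmem
      rw [map_add, map_smul, smul_eq_mul] at h1
      have h2 : (f b - v) / (- w e) ≤ lam := le_max_right _ _
      rw [div_le_iff₀ (by linarith)] at h2
      have h3 : f (Pi.single e 1) = w e := rfl
      rw [h3] at h1
      nlinarith
    obtain ⟨M, hM, hMw⟩ := hw w hwn
    have hMK : L (Pi.single ⟨M, hM⟩ 1) ∈ K :=
      ⟨_, single_mem_stdSimplex ℝ (⟨M, hM⟩ : Mt), rfl⟩
    have h1 := hf1 _ hMK
    have h2 : f (L (Pi.single ⟨M, hM⟩ 1)) = ∑ e ∈ M, w e := by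
      rw [hfx]
      have : ∀ e, L (Pi.single ⟨M, hM⟩ 1) e = if e ∈ M then 1 else 0 := by
        intro e
        simp only [L]
        rw [Finset.sum_eq_single (⟨M, hM⟩ : Mt)]
        · simp
        · intro b _ hb
          simp [hb]
        · intro h; exact absurd (mem_univ _) h
      simp only [this, ite_mul, one_mul, zero_mul]
      rw [← sum_filter]
      simp
    have h3 := hf2 (fun _ => 1 / D) (fun e => le_rfl)
    rw [hfx] at h3
    have h4 : ∑ e, 1 / D * w e = (∑ e, w e) / D := by
      rw [← mul_sum]; ring
    rw [h2] at h1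
    rw [h4] at h3
    linarith
  obtain ⟨x, ⟨l, hl, rfl⟩, hx⟩ := hint
  refine ⟨fun M => if h : IsMatching H M then D * l ⟨M, h⟩ else 0, ⟨fun M => ?_, fun M h => ?_,
    fun e => ?_⟩, ?_⟩
  · split_ifs with h
    · exact mul_nonneg hD.le (hl.1 _)
    · exact le_rfl
  · by_contra h'
    simp [h'] at h
  · have h1 := hx e
    have h2 : ∑ M with e ∈ M, (if h : IsMatching H M then D * l ⟨M, h⟩ else 0) = D * L l e := by
      simp only [L, mul_sum]
      rw [sum_filter]
      have e1 : ∀ M : Finset E, (if e ∈ M then (if h : IsMatching H M then D * l ⟨M, h⟩ else 0)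
          else 0) = if h : IsMatching H M then (if e ∈ M then D * l ⟨M, h⟩ else 0) else 0 := by
        intro M
        by_cases h : IsMatching H M <;> by_cases h' : e ∈ M <;> simp [h, h']
      simp only [e1]
      rw [← sum_filter_add_sum_filter_not univ (fun M : Finset E => IsMatching H M)]
      have e2 : ∑ M with ¬ IsMatching H M, (if h : IsMatching H M then
          (if e ∈ M then D * l ⟨M, h⟩ else 0) else 0) = 0 :=
        sum_eq_zero fun M hM => dif_neg (mem_filter.1 hM).2
      rw [e2, add_zero]
      rw [← Finset.sum_subtype_eq_sum_filter]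
      simp only [Finset.subtype_univ]
      refine sum_congr rfl fun M _ => ?_
      rw [dif_pos M.2]
      split_ifs <;> simp
    rw [h2]
    calc (1 : ℝ) = D * (1 / D) := by field_simp
      _ ≤ D * L l e := mul_le_mul_of_nonneg_left h1 hD.le
  · rw [← sum_filter_add_sum_filter_not univ (fun M : Finset E => IsMatching H M)]
    have e2 : ∑ M with ¬ IsMatching H M, (if h : IsMatching H M then
          D * l ⟨M, h⟩ else 0) = 0 :=
      sum_eq_zero fun M hM => dif_neg (mem_filter.1 hM).2
    rw [e2, add_zero, ← Finset.sum_subtype_eq_sum_filter]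
    simp only [Finset.subtype_univ]
    have e3 : ∑ M : Mt, (if h : IsMatching H (M : Finset E) then D * l ⟨M, h⟩ else 0) =
        ∑ M : Mt, D * l M := sum_congr rfl fun M _ => by rw [dif_pos M.2]
    rw [e3, ← mul_sum, hl.2, mul_one]

/-- The general bound from the base hypothesis. -/
theorem coloring_of_base [Fintype V] {c : ℕ → ℝ} (H : E → Finset V)
    (hne : ∀ e, (H e).Nonempty) (hb : BaseHyp c H) :
    ∃ w : Finset E → ℝ, IsFracColoring H w ∧
      ∑ M, w M ≤ ⨆ v, ∑ e with v ∈ H e, c (H e).card := by
  classical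
  rcases isEmpty_or_nonempty E with hE | ⟨⟨e0⟩⟩
  · refine ⟨0, ⟨fun _ => le_rfl, fun M h => absurd rfl h, fun e => hE.elim e⟩, ?_⟩
    simp only [Pi.zero_apply, sum_const_zero]
    exact Real.iSup_nonneg fun v => by simp
  set D : ℝ := ⨆ v, ∑ e with v ∈ H e, c (H e).card with hDdef
  have hle : ∀ v, ∑ e with v ∈ H e, c (H e).card ≤ D := fun v =>
    le_ciSup (f := fun v => ∑ e with v ∈ H e, c (H e).card) (Set.finite_range _).bddAbove v
  have hcpos : ∀ e, 0 < c (H e).card := hb.pos
  have hD : 0 < D := by
    obtain ⟨v, hv⟩ := hne e0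
    refine lt_of_lt_of_le ?_ (hle v)
    exact sum_pos (fun e _ => hcpos e) ⟨e0, by simp [hv]⟩
  refine exists_coloring H D hD fun w hw => ?_
  obtain ⟨M, _, hM, hMt⟩ := weighted H hne hb _ univ rfl (fun e => w e / c (H e).card)
  refine ⟨M, hM, ?_⟩
  have h1 := hMt (fun e => c (H e).card / D) ⟨fun e => (div_pos (hcpos e) hD).le,
    fun e he => absurd (mem_univ e) he, fun v => by
      rw [← sum_div, div_le_one hD]; exact hle v⟩
  have h2 : ∑ e, w e / c (H e).card * (c (H e).card / D) = (∑ e, w e) / D := by
    rw [sum_div]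
    refine sum_congr rfl fun e _ => ?_
    have := hcpos e
    field_simp
  have h3 : ∑ e ∈ M, c (H e).card * (w e / c (H e).card) = ∑ e ∈ M, w e := by
    refine sum_congr rfl fun e _ => ?_
    have := hcpos e
    field_simp
  rw [h2, h3] at h1
  exact h1

/-- The general bound from the numerical condition. -/
theorem coloring_of_good [Fintype V] {c G P : ℕ → ℝ} (hg : Good c G P) (H : E → Finset V)
    (hne : ∀ e, (H e).Nonempty) :
    ∃ w : Finset E → ℝ, IsFracColoring H w ∧
      ∑ M, w M ≤ ⨆ v, ∑ e with v ∈ H e, c (H e).card :=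
  coloring_of_base H hne (hg.baseHyp H hne)

omit [DecidableEq V] in
lemma index_le_of_coloring (H : E → Finset V) (w : Finset E → ℝ) (h : IsFracColoring H w) :
    fracChromaticIndex H ≤ ∑ M, w M := by
  refine csInf_le ⟨0, ?_⟩ ⟨w, h, rfl⟩
  rintro x ⟨w', h', rfl⟩
  exact sum_nonneg fun M _ => h'.nonneg M

end H70.FKS
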