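import Mathlib
import Pool.Agent.H70.FKS.Dual

/-!
# The exact bound for lacunary edge sizes
-/

namespace H70.FKS

open Finset

variable {V E : Type*} [Fintype V] [DecidableEq V] [DecidableEq E]

/-- The Füredi-Kahn-Seymour coefficient. -/
noncomputable def cf (k : ℕ) : ℝ := (k : ℝ) - 1 + 1 / k

lemma cf_one_le {k : ℕ} (hk : 1 ≤ k) : 1 ≤ cf k := by
  unfold cf
  have h : (1 : ℝ) ≤ k := by exact_mod_cast hk
  have h2 : (0 : ℝ) < k := by linarith
  have h3 : 1 ≤ (k : ℝ) - 1 + 1 / k ↔ 0 ≤ ((k : ℝ) - 1) ^ 2 / k := by
    constructor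
    · intro h; 
      have : ((k : ℝ) - 1) ^ 2 / k = (k : ℝ) - 1 + 1 / k - 1 := by field_simp; ring
      rw [this]; linarith
    · intro h
      have : ((k : ℝ) - 1) ^ 2 / k = (k : ℝ) - 1 + 1 / k - 1 := by field_simp; ring
      rw [this] at h; linarith
  rw [h3]; positivity

lemma base_lac (H : E → Finset V) (hne : ∀ e, (H e).Nonempty)
    (hlac : ∀ e f, 2 ≤ (H e).card → (H e).card < (H f).card →
      (H e).card ^ 2 + 2 ≤ (H f).card + (H e).card) : BaseHyp cf H where
  pos := fun e => lt_of_lt_of_le one_pos (cf_one_le (card_pos.2 (hne e)))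
  base := by
    classical
    intro S hS t ht hload hext
    by_cases h1 : ∃ e ∈ S, (H e).card = 1
    · obtain ⟨e, he, hc⟩ := h1
      obtain ⟨v, hv⟩ := card_eq_one.1 hc
      refine ⟨e, he, ?_⟩
      rw [hv]
      have e1 : (S.filter fun f => ¬ Disjoint {v} (H f)) = S.filter fun f => v ∈ H f := by
        apply filter_congr
        intro f _
        simp
      rw [e1]
      refine (sum_le_sum fun f hf => ?_).trans (hload v)
      have hf' := (mem_filter.1 hf).1
      exact div_le_self (ht f hf').le (cf_one_le (card_pos.2 (hne f)))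
    push Not at h1
    have hcard : ∀ e ∈ S, 2 ≤ (H e).card := by
      intro e he
      have := card_pos.2 (hne e)
      have := h1 e he
      omega
    obtain ⟨φ, hφm, _, hφi⟩ := exists_inj H S hS t hext
    obtain ⟨e0, he0, hmin⟩ := exists_min_image S (fun e => (H e).card) hS
    set a := (H e0).card with ha
    have ha2 : 2 ≤ a := hcard e0 he0
    by_contra hcon
    push Not at hcon
    set F := S.filter (fun e => (H e).card = a) with hF
    have hFS : F ⊆ S := filter_subset _ _
    have hFn : F.Nonempty := ⟨e0, mem_filter.2 ⟨he0, rfl⟩⟩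
    have haR : (2 : ℝ) ≤ a := by exact_mod_cast ha2
    have haR0 : (0 : ℝ) < a := by linarith
    -- coefficients
    set C : ℝ := cf a with hC
    have hCpos : 0 < C := lt_of_lt_of_le one_pos (cf_one_le (by omega))
    have hCa : (a : ℝ) * C = (a : ℝ) ^ 2 - a + 1 := by
      rw [hC]; unfold cf; field_simp
    have hcfpos : ∀ f ∈ S, 0 < cf (H f).card := fun f hf =>
      lt_of_lt_of_le one_pos (cf_one_le (card_pos.2 (hne f)))
    have hlarge : ∀ f ∈ S, f ∉ F → (a : ℝ) * C ≤ cf (H f).card := by
      intro f hf hfF
      have h2 : a ≤ (H f).card := hmin f hf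
      have h3 : (H f).card ≠ a := fun h => hfF (mem_filter.2 ⟨hf, h⟩)
      have h4 : a < (H f).card := by omega
      have h5 := hlac e0 f ha2 h4
      have h6 : (a : ℝ) ^ 2 + 2 ≤ (H f).card + a := by exact_mod_cast h5
      rw [hCa]; unfold cf
      have : (0 : ℝ) < 1 / (H f).card := by
        have : (0 : ℝ) < (H f).card := by exact_mod_cast card_pos.2 (hne f)
        positivity
      linarith
    -- the load of the smallest edges
    set p : V → ℝ := fun v => ∑ f ∈ F with v ∈ H f, t f with hp
    have hp0 : ∀ v, 0 ≤ p v := fun v => sum_nonneg fun f hf =>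
      (ht f (hFS (mem_filter.1 hf).1)).le
    have hp1 : ∀ v, p v ≤ 1 := fun v => le_trans
      (sum_le_sum_of_subset_of_nonneg (filter_subset_filter _ hFS)
        fun f hf _ => (ht f (mem_filter.1 hf).1).le) (hload v)
    set y : V → ℝ := fun v => ∑ f ∈ S with v ∈ H f, t f / cf (H f).card with hy
    have hyv : ∀ v, C * y v ≤ p v + (1 - p v) / a := by
      intro v
      have hsplit : ∑ f ∈ S with v ∈ H f, t f = p v + ∑ f ∈ (S \ F) with v ∈ H f, t f := by
        rw [hp]
        simp only [sum_filter]
        rw [add_comm, ← sum_sdiff hFS]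
      have hysplit : y v = ∑ f ∈ F with v ∈ H f, t f / cf (H f).card +
          ∑ f ∈ (S \ F) with v ∈ H f, t f / cf (H f).card := by
        rw [hy]
        simp only [sum_filter]
        rw [add_comm, ← sum_sdiff hFS]
      have h1 : ∑ f ∈ F with v ∈ H f, t f / cf (H f).card = p v / C := by
        rw [hp, sum_div]
        refine sum_congr rfl fun f hf => ?_
        rw [(mem_filter.1 (mem_filter.1 hf).1).2]
      have h2 : ∑ f ∈ (S \ F) with v ∈ H f, t f / cf (H f).card ≤
          (∑ f ∈ (S \ F) with v ∈ H f, t f) / (a * C) := by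
        rw [sum_div]
        refine sum_le_sum fun f hf => ?_
        have hf1 := mem_sdiff.1 (mem_filter.1 hf).1
        exact div_le_div_of_nonneg_left (ht f hf1.1).le (by positivity) (hlarge f hf1.1 hf1.2)
      have h3 : ∑ f ∈ (S \ F) with v ∈ H f, t f ≤ 1 - p v := by
        have := hload v
        rw [hsplit] at this
        linarith
      have h4 : (∑ f ∈ (S \ F) with v ∈ H f, t f) / (a * C) ≤ (1 - p v) / (a * C) :=
        div_le_div_of_nonneg_right h3 (by positivity)
      have h5 : y v ≤ p v / C + (1 - p v) / (a * C) := by rw [hysplit, h1]; linarith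
      calc C * y v ≤ C * (p v / C + (1 - p v) / (a * C)) := mul_le_mul_of_nonneg_left h5 hCpos.le
        _ = p v + (1 - p v) / a := by field_simp
    -- key inequality
    have key : ∀ e ∈ F, (a : ℝ) * t e < p (φ e) := by
      intro e he
      have heS := hFS he
      have hea : (H e).card = a := (mem_filter.1 he).2
      have hA := hcon e heS
      have hsum : ∑ v ∈ H e, y v = ∑ f ∈ S, ((H e ∩ H f).card : ℝ) * (t f / cf (H f).card) := by
        simp only [hy, sum_filter]
        rw [sum_comm]
        refine sum_congr rfl fun f _ => ?_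
        rw [← sum_filter, sum_const, nsmul_eq_mul]
        congr 3
      have hlow : ∑ f ∈ S with ¬ Disjoint (H e) (H f), t f / cf (H f).card +
          ((a : ℝ) - 1) * (t e / C) ≤
          ∑ f ∈ S, ((H e ∩ H f).card : ℝ) * (t f / cf (H f).card) := by
        rw [sum_filter, ← add_sum_erase S _ heS, ← add_sum_erase S
          (fun f => ((H e ∩ H f).card : ℝ) * (t f / cf (H f).card)) heS]
        have hne' : ¬ Disjoint (H e) (H e) := by
          rw [disjoint_self, bot_eq_empty]; exact (hne e).ne_empty
        rw [if_pos hne', inter_self, hea]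
        have : ∑ x ∈ S.erase e, (if ¬ Disjoint (H e) (H x) then t x / cf (H x).card else 0) ≤
            ∑ x ∈ S.erase e, ((H e ∩ H x).card : ℝ) * (t x / cf (H x).card) := by
          refine sum_le_sum fun f hf => ?_
          have hf' := mem_of_mem_erase hf
          have hq : 0 ≤ t f / cf (H f).card := (div_pos (ht f hf') (hcfpos f hf')).le
          by_cases hd : Disjoint (H e) (H f)
          · rw [if_neg (not_not.2 hd)]
            exact mul_nonneg (Nat.cast_nonneg _) hq
          · rw [if_pos hd]
            have : 1 ≤ ((H e ∩ H f).card : ℝ) := by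
              have : 1 ≤ (H e ∩ H f).card := by
                rw [Nat.succ_le_iff, card_pos, ← not_disjoint_iff_nonempty_inter]
                exact hd
              exact_mod_cast this
            nlinarith
        have hC' : cf a = C := rfl
        rw [hC']
        linarith
      have h1 : 1 + ((a : ℝ) - 1) * (t e / C) < ∑ v ∈ H e, y v := by
        rw [hsum]; linarith
      have h2 : C * (1 + ((a : ℝ) - 1) * (t e / C)) < C * ∑ v ∈ H e, y v :=
        mul_lt_mul_of_pos_left h1 hCpos
      have h3 : C * (1 + ((a : ℝ) - 1) * (t e / C)) = C + ((a : ℝ) - 1) * t e := by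
        field_simp
      rw [h3, mul_sum] at h2
      have h4 : ∑ v ∈ H e, C * y v ≤ ∑ v ∈ H e, (1 - (1 - p v) * ((a - 1) / a)) := by
        refine sum_le_sum fun v _ => (hyv v).trans (le_of_eq ?_)
        field_simp
        ring
      rw [sum_sub_distrib, sum_const, nsmul_eq_mul, mul_one, hea, ← sum_mul] at h4
      -- the sum over e of 1 - p is at least the single term at φ e
      have h5 : 1 - p (φ e) ≤ ∑ v ∈ H e, (1 - p v) :=
        single_le_sum (f := fun v => 1 - p v) (fun v _ => by linarith [hp1 v]) (hφm e heS)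
      have h6 : (∑ v ∈ H e, (1 - p v)) * ((a - 1) / a) <
          (a : ℝ) - C - ((a : ℝ) - 1) * t e := by linarith
      have h7 : (a : ℝ) - C = (a - 1) / a := by
        rw [hC]; unfold cf; field_simp; ring
      rw [h7] at h6
      have h8 : 0 < ((a : ℝ) - 1) / a := by
        apply div_pos <;> linarith
      have h9 : (∑ v ∈ H e, (1 - p v)) * ((a - 1) / a) < (1 - a * t e) * ((a - 1) / a) := by
        refine lt_of_lt_of_le h6 (le_of_eq ?_)
        field_simp
      have h10 := lt_of_mul_lt_mul_right h9 h8.le
      linarith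
    -- double counting
    have hdc : ∑ v, p v = ∑ e ∈ F, (a : ℝ) * t e := by
      simp only [hp, sum_filter]
      rw [sum_comm]
      refine sum_congr rfl fun e he => ?_
      rw [← sum_filter, sum_const, nsmul_eq_mul]
      congr 1
      have hea : (H e).card = a := (mem_filter.1 he).2
      rw [← hea]
      congr 2
      ext v; simp
    have h1 : ∑ e ∈ F, (a : ℝ) * t e < ∑ e ∈ F, p (φ e) := sum_lt_sum_of_nonempty hFn key
    have h2 : ∑ e ∈ F, p (φ e) ≤ ∑ v, p v := by
      rw [← sum_image (f := p) (g := φ) (s := F) (fun x hx y hy h => hφi (hFS hx) (hFS hy) h)]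
      exact sum_le_sum_of_subset_of_nonneg (subset_univ _) (fun v _ _ => hp0 v)
    linarith

end H70.FKS
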