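import Mathlib
import Pool.Agent.H70.FKS.Base

/-!
# The numerical condition for the coefficients `1, 8/5, k - 1/3`
-/

namespace H70.FKS

/-- The coefficients: `1` for `k ≤ 1`, `8/5` for `k = 2`, and `k - 1/3` for `k ≥ 3`. -/
noncomputable def cc (k : ℕ) : ℝ := if k ≤ 1 then 1 else if k = 2 then 8 / 5 else (k : ℝ) - 1 / 3

noncomputable def GG (k : ℕ) : ℝ := if k = 2 then 241 / 100 else 2 / (2 * (k : ℝ) - 3)

noncomputable def PP (k : ℕ) : ℝ :=
  if k = 2 then 1 / 8 else 2205 / (64 * (5 * (k : ℝ) - 4) ^ 3)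

lemma cc_ge {k : ℕ} (h : 3 ≤ k) : cc k = (k : ℝ) - 1 / 3 := by
  unfold cc; rw [if_neg (by omega), if_neg (by omega)]

lemma cc_two : cc 2 = 8 / 5 := by unfold cc; norm_num

lemma GG_ge {k : ℕ} (h : 3 ≤ k) : GG k = 2 / (2 * (k : ℝ) - 3) := by
  unfold GG; rw [if_neg (by omega)]

lemma GG_two : GG 2 = 241 / 100 := by unfold GG; norm_num

lemma PP_ge {k : ℕ} (h : 3 ≤ k) : PP k = 2205 / (64 * (5 * (k : ℝ) - 4) ^ 3) := by
  unfold PP; rw [if_neg (by omega)]

lemma PP_two : PP 2 = 1 / 8 := by unfold PP; norm_num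

lemma cc_one (k : ℕ) (_ : 1 ≤ k) : 1 ≤ cc k := by
  rcases Nat.lt_or_ge k 3 with h | h
  · unfold cc; interval_cases k <;> norm_num
  · rw [cc_ge h]
    have : (3 : ℝ) ≤ k := by exact_mod_cast h
    linarith

lemma cc_mono (a b : ℕ) (ha : 2 ≤ a) (hab : a ≤ b) : cc a ≤ cc b := by
  have hab' : (a : ℝ) ≤ b := by exact_mod_cast hab
  rcases eq_or_lt_of_le ha with rfl | ha
  · rcases eq_or_lt_of_le hab with rfl | hb
    · exact le_rfl
    · rw [cc_two, cc_ge hb]
      have : (3 : ℝ) ≤ b := by exact_mod_cast hb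
      linarith
  · rw [cc_ge ha, cc_ge (by omega)]; linarith

lemma GG_pos (k : ℕ) (hk : 2 ≤ k) : 0 < GG k := by
  rcases eq_or_lt_of_le hk with rfl | hk
  · rw [GG_two]; norm_num
  · rw [GG_ge hk]
    have : (3 : ℝ) ≤ k := by exact_mod_cast hk
    apply div_pos two_pos; linarith

lemma GG_anti (a b : ℕ) (ha : 2 ≤ a) (hab : a ≤ b) : GG b ≤ GG a := by
  have hab' : (a : ℝ) ≤ b := by exact_mod_cast hab
  rcases eq_or_lt_of_le ha with rfl | ha
  · rcases eq_or_lt_of_le hab with rfl | hb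
    · exact le_rfl
    · rw [GG_two, GG_ge hb]
      have : (3 : ℝ) ≤ b := by exact_mod_cast hb
      rw [div_le_iff₀ (by linarith)]; linarith
  · rw [GG_ge ha, GG_ge (by omega)]
    have : (3 : ℝ) ≤ a := by exact_mod_cast ha
    apply div_le_div_of_nonneg_left <;> linarith

lemma PP_pos (k : ℕ) (hk : 2 ≤ k) : 0 < PP k := by
  rcases eq_or_lt_of_le hk with rfl | hk
  · rw [PP_two]; norm_num
  · rw [PP_ge hk]
    have : (3 : ℝ) ≤ k := by exact_mod_cast hk
    have : 0 < 5 * (k : ℝ) - 4 := by linarith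
    positivity

lemma PP_anti (a b : ℕ) (ha : 2 ≤ a) (hab : a ≤ b) : PP b ≤ PP a := by
  have hab' : (a : ℝ) ≤ b := by exact_mod_cast hab
  rcases eq_or_lt_of_le ha with rfl | ha
  · rcases eq_or_lt_of_le hab with rfl | hb
    · exact le_rfl
    · rw [PP_two, PP_ge hb]
      have h3 : (3 : ℝ) ≤ b := by exact_mod_cast hb
      have h4 : (11 : ℝ) ≤ 5 * (b : ℝ) - 4 := by linarith
      have h5 : (11 : ℝ) ^ 3 ≤ (5 * (b : ℝ) - 4) ^ 3 := pow_le_pow_left₀ (by norm_num) h4 3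
      rw [div_le_iff₀ (by positivity)]
      nlinarith
  · rw [PP_ge ha, PP_ge (by omega)]
    have h3 : (3 : ℝ) ≤ a := by exact_mod_cast ha
    have h4 : (0 : ℝ) < 5 * (a : ℝ) - 4 := by linarith
    apply div_le_div_of_nonneg_left (by norm_num) (by positivity)
    have h5 : (5 * (a : ℝ) - 4) ^ 3 ≤ (5 * (b : ℝ) - 4) ^ 3 :=
      pow_le_pow_left₀ h4.le (by linarith) 3
    linarith

/-- the goal at `(a,b)` -/
def Ok (a b : ℕ) : Prop := ∀ t : ℝ, 0 < t → t ≤ 1 →
    t * (GG a / cc a * ((a - cc a) - (a - 1) * t) + (a - 1) * PP a) ≤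
      (1 - t) * (PP b + t * ((GG a - GG b) * (1 / cc a - 1 / cc b)))

/-- Quadratic criterion. -/
lemma ok_of_disc {a b : ℕ} (ha : 2 ≤ a) (hb : 2 ≤ b)
    (hM : 0 ≤ GG a / cc a * (a - 1) - (GG a - GG b) * (1 / cc a - 1 / cc b))
    (h : GG a / cc a * (a - cc a) + (a - 1) * PP a + PP b -
        (GG a - GG b) * (1 / cc a - 1 / cc b) ≤ 0 ∨
      (GG a / cc a * (a - cc a) + (a - 1) * PP a + PP b -
        (GG a - GG b) * (1 / cc a - 1 / cc b)) ^ 2 ≤
      4 * PP b * (GG a / cc a * (a - 1) - (GG a - GG b) * (1 / cc a - 1 / cc b))) :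
    Ok a b := by
  intro t ht0 ht1
  have hP := PP_pos b hb
  set q := (GG a - GG b) * (1 / cc a - 1 / cc b)
  set h1 := GG a / cc a
  set K := h1 * (a - cc a) + (a - 1) * PP a + PP b - q with hK
  set M := h1 * (a - 1) - q with hMd
  have key : 0 ≤ PP b - t * K + t ^ 2 * M := by
    rcases h with h | h
    · have e1 : 0 ≤ t ^ 2 * M := by positivity
      nlinarith [mul_nonneg ht0.le (neg_nonneg.2 h)]
    · have e1 : 4 * PP b * (PP b - t * K + t ^ 2 * M) =
        (2 * PP b - t * K) ^ 2 + t ^ 2 * (4 * PP b * M - K ^ 2) := by ring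
      have e2 : 0 ≤ 4 * PP b * (PP b - t * K + t ^ 2 * M) := by
        rw [e1]
        have : 0 ≤ 4 * PP b * M - K ^ 2 := by linarith
        positivity
      exact nonneg_of_mul_nonneg_right e2 (by positivity)
  have e3 : (1 - t) * (PP b + t * q) - t * (h1 * ((a - cc a) - (a - 1) * t) + (a - 1) * PP a) =
      PP b - t * K + t ^ 2 * M := by rw [hK, hMd]; ring
  linarith

/-- diagonal inequality in strong form -/
lemma diag {a : ℕ} (ha : 2 ≤ a) {t : ℝ} (ht : 0 < t) :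
    t * (GG a / cc a * ((a - cc a) - (a - 1) * t) + a * PP a) ≤ PP a := by
  rcases eq_or_lt_of_le ha with rfl | ha
  · rw [GG_two, cc_two, PP_two]
    push_cast
    nlinarith [sq_nonneg (t - 1 / 4), sq_nonneg (t - 28 / 100)]
  · rw [GG_ge ha, cc_ge ha, PP_ge ha]
    have h3 : (3 : ℝ) ≤ a := by exact_mod_cast ha
    set x : ℝ := (a : ℝ) with hx
    have h1 : 0 < 2 * x - 3 := by linarith
    have h2 : 0 < x - 1 / 3 := by linarith
    have h4 : 0 < 5 * x - 4 := by linarith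
    set D : ℝ := (2 * x - 3) * (x - 1 / 3) / 2 with hD
    have hD0 : 0 < D := by positivity
    have e1 : 2 / (2 * x - 3) / (x - 1 / 3) = 1 / D := by
      rw [hD]; field_simp
    set p : ℝ := 2205 / (64 * (5 * x - 4) ^ 3) with hp
    -- bounds for s = x * p * D
    have hs1 : 22 / 100 ≤ x * p * D := by
      rw [hp, hD]
      rw [show x * (2205 / (64 * (5 * x - 4) ^ 3)) * ((2 * x - 3) * (x - 1 / 3) / 2) =
        2205 * x * ((2 * x - 3) * (x - 1 / 3)) / (128 * (5 * x - 4) ^ 3) by field_simp; ring]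
      rw [le_div_iff₀ (by positivity)]
      obtain ⟨y, hy, hy0⟩ : ∃ y : ℝ, x = 3 + y ∧ 0 ≤ y := ⟨x - 3, by ring, by linarith⟩
      rw [hy]
      have : 0 ≤ y ^ 2 := by positivity
      have : 0 ≤ y ^ 3 := by positivity
      nlinarith
    have hs2 : x * p * D ≤ 33 / 100 := by
      rw [hp, hD]
      rw [show x * (2205 / (64 * (5 * x - 4) ^ 3)) * ((2 * x - 3) * (x - 1 / 3) / 2) =
        2205 * x * ((2 * x - 3) * (x - 1 / 3)) / (128 * (5 * x - 4) ^ 3) by field_simp; ring]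
      rw [div_le_iff₀ (by positivity)]
      obtain ⟨y, hy, hy0⟩ : ∃ y : ℝ, x = 3 + y ∧ 0 ≤ y := ⟨x - 3, by ring, by linarith⟩
      rw [hy]
      have : 0 ≤ y ^ 2 := by positivity
      have : 0 ≤ y ^ 3 := by positivity
      nlinarith
    set s := x * p * D with hs
    rw [e1]
    have key : t * ((x - (x - 1 / 3)) - (x - 1) * t + s) ≤ p * D := by
      have e2 : p * D = s / x := by rw [hs]; field_simp
      rw [e2, le_div_iff₀ (by linarith)]
      -- x t (1/3 + s - (x-1) t) ≤ s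
      have e3 : 0 ≤ (2 * x * (x - 1) * t - x * (1 / 3 + s)) ^ 2 := sq_nonneg _
      have e4 : x * (1 / 3 + s) ^ 2 ≤ 4 * (x - 1) * s := by
        nlinarith [mul_nonneg (sub_nonneg.2 hs1) (sub_nonneg.2 hs2)]
      have e5 : 0 ≤ 4 * x * (x - 1) * (s - t * ((x - (x - 1 / 3)) - (x - 1) * t + s) * x) := by
        nlinarith [mul_le_mul_of_nonneg_left e4 (show (0:ℝ) ≤ x by linarith)]
      have e6 : 0 < 4 * x * (x - 1) := by
        have : 0 < x - 1 := by linarith
        positivity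
      have := nonneg_of_mul_nonneg_right e5 e6
      linarith
    have e7 : t * (1 / D * ((x - (x - 1 / 3)) - (x - 1) * t) + x * p) =
        t * ((x - (x - 1 / 3)) - (x - 1) * t + s) / D := by
      rw [hs]; field_simp
    rw [e7, div_le_iff₀ hD0]
    exact key

lemma sim' {a b : ℕ} (ha : 2 ≤ a) (hb : 2 ≤ b) :
    0 ≤ (GG a - GG b) * (1 / cc a - 1 / cc b) := by
  have pa : 0 < cc a := lt_of_lt_of_le one_pos (cc_one a (by omega))
  have pb : 0 < cc b := lt_of_lt_of_le one_pos (cc_one b (by omega))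
  rcases le_total a b with hab | hab
  · exact mul_nonneg (sub_nonneg.2 (GG_anti a b ha hab))
      (sub_nonneg.2 (one_div_le_one_div_of_le pa (cc_mono a b ha hab)))
  · exact mul_nonneg_of_nonpos_of_nonpos (sub_nonpos.2 (GG_anti b a hb hab))
      (sub_nonpos.2 (one_div_le_one_div_of_le pb (cc_mono b a hb hab)))

/-- Unrefined criterion. -/
lemma ok_of_unref {a b : ℕ} (ha : 2 ≤ a)
    (h : ∀ t : ℝ, 0 < t → t ≤ 1 → t * (GG a / cc a * ((a - cc a) - (a - 1) * t) + a * PP a) ≤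
      PP b + t * ((GG a - GG b) * (1 / cc a - 1 / cc b))) : Ok a b := by
  intro t ht0 ht1
  have h1 := h t ht0 ht1
  have h2 := diag ha ht0
  set L := t * (GG a / cc a * ((a - cc a) - (a - 1) * t) + a * PP a) with hL
  have e1 : t * (GG a / cc a * ((a - cc a) - (a - 1) * t) + (a - 1) * PP a) = L - t * PP a := by
    rw [hL]; ring
  rw [e1]
  have h3 := mul_le_mul_of_nonneg_left h1 (show (0:ℝ) ≤ 1 - t by linarith)
  have h4 := mul_le_mul_of_nonneg_left h2 ht0.le
  nlinarith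

lemma ok_le {a b : ℕ} (hb : 2 ≤ b) (hba : b ≤ a) : Ok a b := by
  refine ok_of_unref (by omega) fun t ht0 ht1 => ?_
  have h2 := diag (a := a) (by omega) ht0
  have h3 := PP_anti b a hb hba
  have h4 := mul_nonneg ht0.le (sim' (a := a) (b := b) (by omega) hb)
  linarith

/-- The analytic region. -/
lemma quartic {w : ℝ} (hw : 0 ≤ w) : 613 / 1000 - (1 - w ^ 2) ^ 2 ≤ 1044 / 1000 * w ^ 3 := by
  nlinarith [mul_nonneg hw (sq_nonneg (w - 68 / 100)), sq_nonneg (w * (w - 68 / 100)),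
    sq_nonneg (w - 68 / 100)]

lemma ok_large {a b : ℕ} (ha : 40 ≤ a) (hab : a < b) : Ok a b := by
  refine ok_of_unref (by omega) fun t ht0 _ => ?_
  rw [GG_ge (k := a) (by omega), cc_ge (k := a) (by omega), PP_ge (k := a) (by omega),
    GG_ge (k := b) (by omega), cc_ge (k := b) (by omega), PP_ge (k := b) (by omega)]
  have hx : (40 : ℝ) ≤ a := by exact_mod_cast ha
  have hxy : (a : ℝ) < b := by exact_mod_cast hab
  generalize (a : ℝ) = x at *
  generalize (b : ℝ) = y at *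
  have h1 : 0 < 2 * x - 3 := by linarith
  have h2 : 0 < x - 1 / 3 := by linarith
  have h3 : 0 < 2 * y - 3 := by linarith
  have h4 : 0 < y - 1 / 3 := by linarith
  have h5 : 0 < 5 * x - 4 := by linarith
  have h6 : 0 < 5 * y - 4 := by linarith
  set D : ℝ := (2 * x - 3) * (x - 1 / 3) / 2 with hD
  have hD0 : 0 < D := by positivity
  -- bound for s
  have hs : x * (2205 / (64 * (5 * x - 4) ^ 3)) * D ≤ 2796 / 10000 := by
    rw [hD, show x * (2205 / (64 * (5 * x - 4) ^ 3)) * ((2 * x - 3) * (x - 1 / 3) / 2) =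
        2205 * x * ((2 * x - 3) * (x - 1 / 3)) / (128 * (5 * x - 4) ^ 3) by field_simp; ring]
    rw [div_le_iff₀ (by positivity)]
    obtain ⟨z, hz, hz0⟩ : ∃ z : ℝ, x = 40 + z ∧ 0 ≤ z := ⟨x - 40, by ring, by linarith⟩
    rw [hz]
    have : 0 ≤ z ^ 2 := by positivity
    have : 0 ≤ z ^ 3 := by positivity
    nlinarith
  set s := x * (2205 / (64 * (5 * x - 4) ^ 3)) * D with hsdef
  -- the ratio
  set w : ℝ := Real.sqrt ((5 * x - 4) / (5 * y - 4)) with hw
  have hw0 : 0 ≤ w := Real.sqrt_nonneg _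
  have hw2 : w ^ 2 = (5 * x - 4) / (5 * y - 4) := Real.sq_sqrt (by positivity)
  have hq : (1 - w ^ 2) ^ 2 ≤
      ((2 / (2 * x - 3) - 2 / (2 * y - 3)) * (1 / (x - 1 / 3) - 1 / (y - 1 / 3))) * D := by
    have e1 : ((2 / (2 * x - 3) - 2 / (2 * y - 3)) * (1 / (x - 1 / 3) - 1 / (y - 1 / 3))) * D =
        2 * (y - x) ^ 2 / ((2 * y - 3) * (y - 1 / 3)) := by
      have q1 : 2 / (2 * x - 3) - 2 / (2 * y - 3) = 4 * (y - x) / ((2 * x - 3) * (2 * y - 3)) := by
        rw [div_sub_div _ _ h1.ne' h3.ne']; congr 1; ring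
      have q2 : 1 / (x - 1 / 3) - 1 / (y - 1 / 3) = (y - x) / ((x - 1 / 3) * (y - 1 / 3)) := by
        rw [div_sub_div _ _ h2.ne' h4.ne']; congr 1; ring
      rw [q1, q2, hD]
      generalize x - 1 / 3 = u at h2
      generalize y - 1 / 3 = v at h4
      generalize 2 * x - 3 = u' at h1
      generalize 2 * y - 3 = v' at h3
      field_simp
      ring
    have e2 : (1 - w ^ 2) ^ 2 = 25 * (y - x) ^ 2 / (5 * y - 4) ^ 2 := by
      rw [hw2]; field_simp; ring
    rw [e1, e2, div_le_div_iff₀ (by positivity) (by positivity)]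
    have : 0 ≤ (y - x) ^ 2 := sq_nonneg _
    have e3 : 25 * ((2 * y - 3) * (y - 1 / 3)) ≤ 2 * (5 * y - 4) ^ 2 := by nlinarith
    nlinarith
  have hPD : (522 / 1000 * w ^ 3) ^ 2 ≤ (x - 1) * (2205 / (64 * (5 * y - 4) ^ 3) * D) := by
    have e1 : (522 / 1000 * w ^ 3) ^ 2 = (522 / 1000) ^ 2 * (w ^ 2) ^ 3 := by ring
    rw [e1, hw2, hD, div_pow (5 * x - 4) (5 * y - 4) 3]
    rw [show (x - 1) * (2205 / (64 * (5 * y - 4) ^ 3) * ((2 * x - 3) * (x - 1 / 3) / 2)) =
      (x - 1) * (2205 * ((2 * x - 3) * (x - 1 / 3)) / 128) / (5 * y - 4) ^ 3 by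
        field_simp; ring]
    rw [← mul_div_assoc]
    apply div_le_div_of_nonneg_right _ (by positivity)
    obtain ⟨z, hz, hz0⟩ : ∃ z : ℝ, x = 40 + z ∧ 0 ≤ z := ⟨x - 40, by ring, by linarith⟩
    rw [hz]
    have : 0 ≤ z ^ 2 := by positivity
    have : 0 ≤ z ^ 3 := by positivity
    nlinarith
  have hquart := quartic hw0
  set q := (2 / (2 * x - 3) - 2 / (2 * y - 3)) * (1 / (x - 1 / 3) - 1 / (y - 1 / 3)) with hqdef
  set Pb := 2205 / (64 * (5 * y - 4) ^ 3) with hPb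
  set Pa := 2205 / (64 * (5 * x - 4) ^ 3) with hPa
  have e6 : 2 / (2 * x - 3) / (x - 1 / 3) = 1 / D := by
    rw [hD]; field_simp
  have e7 : t * (2 / (2 * x - 3) / (x - 1 / 3) * ((x - (x - 1 / 3)) - (x - 1) * t) + x * Pa) =
      t * (1 / 3 - (x - 1) * t + s) / D := by
    rw [e6, hsdef]
    have e8 : x - (x - 1 / 3) = 1 / 3 := by ring
    rw [e8]
    field_simp
  rw [e7, div_le_iff₀ hD0]
  -- AM-GM
  set W := 522 / 1000 * w ^ 3 with hW
  have hW0 : 0 ≤ W := by positivity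
  have h10 : 1 / 3 + s - q * D ≤ 2 * W := by
    have : 2 * W = 1044 / 1000 * w ^ 3 := by rw [hW]; ring
    linarith
  have h11 : (x - 1) * (2 * W * t - (x - 1) * t ^ 2) ≤ (x - 1) * (Pb * D) := by
    nlinarith [sq_nonneg ((x - 1) * t - W)]
  have h12 : 2 * W * t - (x - 1) * t ^ 2 ≤ Pb * D :=
    le_of_mul_le_mul_left h11 (by linarith)
  have h13 := mul_le_mul_of_nonneg_left h10 ht0.le
  nlinarith

/-! ### The finite region -/

/-- `m_a = (2a-3)(3a-1)` and so on; integer form of the discriminant test. -/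
def chk (a b : ℤ) : Bool :=
  let x := 5 * a - 4
  let y := 5 * b - 4
  let ma := (2 * a - 3) * (3 * a - 1)
  let mb := (2 * b - 3) * (3 * b - 1)
  let N := 128 * mb * x ^ 3 * y ^ 3 + 2205 * (a - 1) * ma * mb * y ^ 3 + 2205 * ma * mb * x ^ 3
    - 2304 * (b - a) ^ 2 * x ^ 3 * y ^ 3
  decide (N ≤ 0) || decide (N ^ 2 ≤ 564480 * (ma * mb) * x ^ 6 * y ^ 3 *
    (6 * (a - 1) * mb - 36 * (b - a) ^ 2))

def chkAll : Bool :=
  (List.range 40).all fun a => (List.range (5 * a + 11)).all fun b =>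
    decide (a < 3) || decide (b ≤ a) || chk a b

def chkFar : Bool :=
  (List.range 40).all fun a => decide (a < 3) ||
    (let A : ℤ := a
     let b : ℤ := 5 * A + 10
     let x := 5 * A - 4
     let y := 5 * b - 4
     let ma := (2 * A - 3) * (3 * A - 1)
     let mb := (2 * b - 3) * (3 * b - 1)
     decide (128 * mb * x ^ 3 * y ^ 3 + 2205 * (A - 1) * ma * mb * y ^ 3 + 2205 * ma * mb * x ^ 3
      - 2304 * (b - A) ^ 2 * x ^ 3 * y ^ 3 ≤ 0))

set_option maxRecDepth 100000 in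
lemma chkAll_true : chkAll = true := by decide +kernel

set_option maxRecDepth 100000 in
lemma chkFar_true : chkFar = true := by decide +kernel

lemma hM_of_lt {a b : ℕ} (ha : 2 ≤ a) (hab : a < b) :
    0 ≤ GG a / cc a * (a - 1) - (GG a - GG b) * (1 / cc a - 1 / cc b) := by
  have pa : 0 < cc a := lt_of_lt_of_le one_pos (cc_one a (by omega))
  have pb : 0 < cc b := lt_of_lt_of_le one_pos (cc_one b (by omega))
  have h1 : 0 ≤ 1 / cc a - 1 / cc b :=
    sub_nonneg.2 (one_div_le_one_div_of_le pa (cc_mono a b ha hab.le))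
  have h2 : 1 / cc a - 1 / cc b ≤ 1 / cc a := by
    have : 0 < 1 / cc b := by positivity
    linarith
  have h3 : GG a - GG b ≤ GG a := by linarith [GG_pos b (by omega)]
  have h4 : (GG a - GG b) * (1 / cc a - 1 / cc b) ≤ GG a * (1 / cc a) :=
    mul_le_mul h3 h2 h1 (GG_pos a ha).le
  have h5 : (2 : ℝ) ≤ a := by exact_mod_cast ha
  have h6 : 0 < GG a / cc a := div_pos (GG_pos a ha) pa
  have h7 : GG a * (1 / cc a) = GG a / cc a := by ring
  rw [h7] at h4
  nlinarith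

/-- Rational form of the test. -/
lemma ok_of_real {a b : ℕ} (ha : 3 ≤ a) (hab : a < b)
    (h : 128 * ((2 * (b : ℝ) - 3) * (3 * b - 1)) * (5 * (a : ℝ) - 4) ^ 3 * (5 * (b : ℝ) - 4) ^ 3
      + 2205 * ((a : ℝ) - 1) * ((2 * (a : ℝ) - 3) * (3 * a - 1)) *
        ((2 * (b : ℝ) - 3) * (3 * b - 1)) * (5 * (b : ℝ) - 4) ^ 3
      + 2205 * ((2 * (a : ℝ) - 3) * (3 * a - 1)) * ((2 * (b : ℝ) - 3) * (3 * b - 1)) *
        (5 * (a : ℝ) - 4) ^ 3
      - 2304 * ((b : ℝ) - a) ^ 2 * (5 * (a : ℝ) - 4) ^ 3 * (5 * (b : ℝ) - 4) ^ 3 ≤ 0 ∨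
      (128 * ((2 * (b : ℝ) - 3) * (3 * b - 1)) * (5 * (a : ℝ) - 4) ^ 3 * (5 * (b : ℝ) - 4) ^ 3
      + 2205 * ((a : ℝ) - 1) * ((2 * (a : ℝ) - 3) * (3 * a - 1)) *
        ((2 * (b : ℝ) - 3) * (3 * b - 1)) * (5 * (b : ℝ) - 4) ^ 3
      + 2205 * ((2 * (a : ℝ) - 3) * (3 * a - 1)) * ((2 * (b : ℝ) - 3) * (3 * b - 1)) *
        (5 * (a : ℝ) - 4) ^ 3
      - 2304 * ((b : ℝ) - a) ^ 2 * (5 * (a : ℝ) - 4) ^ 3 * (5 * (b : ℝ) - 4) ^ 3) ^ 2 ≤
      564480 * (((2 * (a : ℝ) - 3) * (3 * a - 1)) * ((2 * (b : ℝ) - 3) * (3 * b - 1))) *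
        (5 * (a : ℝ) - 4) ^ 6 * (5 * (b : ℝ) - 4) ^ 3 *
        (6 * ((a : ℝ) - 1) * ((2 * (b : ℝ) - 3) * (3 * b - 1)) - 36 * ((b : ℝ) - a) ^ 2)) :
    Ok a b := by
  refine ok_of_disc (by omega) (by omega) (hM_of_lt (by omega) hab) ?_
  rw [GG_ge (k := a) (by omega), cc_ge (k := a) (by omega), PP_ge (k := a) (by omega),
    GG_ge (k := b) (by omega), cc_ge (k := b) (by omega), PP_ge (k := b) (by omega)]
  have hx : (3 : ℝ) ≤ a := by exact_mod_cast ha
  have hxy : (a : ℝ) < b := by exact_mod_cast hab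
  generalize (a : ℝ) = x at *
  generalize (b : ℝ) = y at *
  have h1 : 0 < 2 * x - 3 := by linarith
  have h2 : 0 < 3 * x - 1 := by linarith
  have h3 : 0 < 2 * y - 3 := by linarith
  have h4 : 0 < 3 * y - 1 := by linarith
  have h5 : 0 < 5 * x - 4 := by linarith
  have h6 : 0 < 5 * y - 4 := by linarith
  set ma := (2 * x - 3) * (3 * x - 1) with hma
  set mb := (2 * y - 3) * (3 * y - 1) with hmb
  have hma0 : 0 < ma := by positivity
  have hmb0 : 0 < mb := by positivity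
  have e1 : 2 / (2 * x - 3) / (x - 1 / 3) = 6 / ma := by
    have : x - 1 / 3 = (3 * x - 1) / 3 := by ring
    rw [this, hma, div_div, div_eq_div_iff (by positivity) (by positivity)]
    ring
  have e2 : (2 / (2 * x - 3) - 2 / (2 * y - 3)) * (1 / (x - 1 / 3) - 1 / (y - 1 / 3)) =
      36 * (y - x) ^ 2 / (ma * mb) := by
    have q1 : 2 / (2 * x - 3) - 2 / (2 * y - 3) = 4 * (y - x) / ((2 * x - 3) * (2 * y - 3)) := by
      rw [div_sub_div _ _ h1.ne' h3.ne']; congr 1; ring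
    have q2 : 1 / (x - 1 / 3) - 1 / (y - 1 / 3) = 9 * (y - x) / ((3 * x - 1) * (3 * y - 1)) := by
      have hx3 : x - 1 / 3 = (3 * x - 1) / 3 := by ring
      have hy3 : y - 1 / 3 = (3 * y - 1) / 3 := by ring
      rw [hx3, hy3, one_div_div, one_div_div, div_sub_div _ _ h2.ne' h4.ne']; congr 1; ring
    rw [q1, q2, div_mul_div_comm, hma, hmb]
    congr 1 <;> ring
  have e3 : x - (x - 1 / 3) = 1 / 3 := by ring
  rw [e1, e2, e3]
  set X := 5 * x - 4 with hX
  set Y := 5 * y - 4 with hY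
  set N := 128 * mb * X ^ 3 * Y ^ 3 + 2205 * (x - 1) * ma * mb * Y ^ 3 + 2205 * ma * mb * X ^ 3
    - 2304 * (y - x) ^ 2 * X ^ 3 * Y ^ 3 with hN
  have e4 : 6 / ma * (1 / 3) + (x - 1) * (2205 / (64 * X ^ 3)) + 2205 / (64 * Y ^ 3) -
      36 * (y - x) ^ 2 / (ma * mb) = N / (64 * ma * mb * X ^ 3 * Y ^ 3) := by
    rw [eq_div_iff (by positivity), hN]
    clear_value X Y ma mb
    field_simp
    ring
  have e5 : 6 / ma * (x - 1) - 36 * (y - x) ^ 2 / (ma * mb) =
      (6 * (x - 1) * mb - 36 * (y - x) ^ 2) / (ma * mb) := by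
    clear_value X Y ma mb
    field_simp
  rw [e4, e5]
  rcases h with h | h
  · left
    exact div_nonpos_of_nonpos_of_nonneg h (by positivity)
  · right
    rw [div_pow, div_le_iff₀ (by positivity)]
    refine h.trans (le_of_eq ?_)
    clear_value X Y ma mb
    field_simp
    ring

lemma ok_of_chk {a b : ℕ} (ha : 3 ≤ a) (hab : a < b) (h : chk a b = true) : Ok a b := by
  apply ok_of_real ha hab
  unfold chk at h
  simp only [Bool.or_eq_true, decide_eq_true_eq] at h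
  rcases h with h | h
  · left; exact_mod_cast h
  · right; exact_mod_cast h

lemma ok_of_far {a b : ℕ} (ha : 3 ≤ a) (ha' : a < 40) (hab : 5 * a + 10 ≤ b) : Ok a b := by
  refine ok_of_disc (by omega) (by omega) (hM_of_lt (by omega) (by omega)) (Or.inl ?_)
  -- first at `b = 5 a + 10`
  have h0 := chkFar_true
  unfold chkFar at h0
  rw [List.all_eq_true] at h0
  have h1 := h0 a (List.mem_range.2 ha')
  simp only [Bool.or_eq_true, decide_eq_true_eq] at h1
  have h2 := h1.resolve_left (by omega)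
  set B := 5 * a + 10 with hB
  have hK : GG a / cc a * (a - cc a) + (a - 1) * PP a + PP B -
        (GG a - GG B) * (1 / cc a - 1 / cc B) ≤ 0 := by
    rw [GG_ge (k := a) (by omega), cc_ge (k := a) (by omega), PP_ge (k := a) (by omega),
      GG_ge (k := B) (by omega), cc_ge (k := B) (by omega), PP_ge (k := B) (by omega)]
    have hx : (3 : ℝ) ≤ a := by exact_mod_cast ha
    have hBy : (B : ℝ) = 5 * a + 10 := by rw [hB]; push_cast; ring
    have h2' : (128 * ((2 * (5 * (a:ℝ) + 10) - 3) * (3 * (5 * (a:ℝ) + 10) - 1)) * (5 * a - 4) ^ 3 *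
        (5 * (5 * (a:ℝ) + 10) - 4) ^ 3 + 2205 * (a - 1) * ((2 * a - 3) * (3 * a - 1)) *
        ((2 * (5 * (a:ℝ) + 10) - 3) * (3 * (5 * (a:ℝ) + 10) - 1)) *
        (5 * (5 * (a:ℝ) + 10) - 4) ^ 3 + 2205 * ((2 * a - 3) * (3 * a - 1)) *
        ((2 * (5 * (a:ℝ) + 10) - 3) * (3 * (5 * (a:ℝ) + 10) - 1)) * (5 * a - 4) ^ 3
      - 2304 * ((5 * (a:ℝ) + 10) - a) ^ 2 * (5 * a - 4) ^ 3 * (5 * (5 * (a:ℝ) + 10) - 4) ^ 3 ≤
        0) := by
      exact_mod_cast h2
    rw [← hBy] at h2'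
    have hxy : (a : ℝ) < B := by rw [hBy]; linarith
    clear hBy
    generalize (a : ℝ) = x at *
    generalize (B : ℝ) = y at *
    have h1 : 0 < 2 * x - 3 := by linarith
    have h2 : 0 < 3 * x - 1 := by linarith
    have h3 : 0 < 2 * y - 3 := by linarith
    have h4 : 0 < 3 * y - 1 := by linarith
    have h5 : 0 < 5 * x - 4 := by linarith
    have h6 : 0 < 5 * y - 4 := by linarith
    set ma := (2 * x - 3) * (3 * x - 1) with hma
    set mb := (2 * y - 3) * (3 * y - 1) with hmb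
    have hma0 : 0 < ma := by positivity
    have hmb0 : 0 < mb := by positivity
    have e1 : 2 / (2 * x - 3) / (x - 1 / 3) = 6 / ma := by
      have : x - 1 / 3 = (3 * x - 1) / 3 := by ring
      rw [this, hma, div_div, div_eq_div_iff (by positivity) (by positivity)]
      ring
    have e2 : (2 / (2 * x - 3) - 2 / (2 * y - 3)) * (1 / (x - 1 / 3) - 1 / (y - 1 / 3)) =
        36 * (y - x) ^ 2 / (ma * mb) := by
      have q1 : 2 / (2 * x - 3) - 2 / (2 * y - 3) =
          4 * (y - x) / ((2 * x - 3) * (2 * y - 3)) := by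
        rw [div_sub_div _ _ h1.ne' h3.ne']; congr 1; ring
      have q2 : 1 / (x - 1 / 3) - 1 / (y - 1 / 3) =
          9 * (y - x) / ((3 * x - 1) * (3 * y - 1)) := by
        have hx3 : x - 1 / 3 = (3 * x - 1) / 3 := by ring
        have hy3 : y - 1 / 3 = (3 * y - 1) / 3 := by ring
        rw [hx3, hy3, one_div_div, one_div_div, div_sub_div _ _ h2.ne' h4.ne']; congr 1; ring
      rw [q1, q2, div_mul_div_comm, hma, hmb]
      congr 1 <;> ring
    have e3 : x - (x - 1 / 3) = 1 / 3 := by ring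
    rw [e1, e2, e3]
    set X := 5 * x - 4 with hX
    set Y := 5 * y - 4 with hY
    have e4 : 6 / ma * (1 / 3) + (x - 1) * (2205 / (64 * X ^ 3)) + 2205 / (64 * Y ^ 3) -
        36 * (y - x) ^ 2 / (ma * mb) = (128 * mb * X ^ 3 * Y ^ 3 + 2205 * (x - 1) * ma * mb * Y ^ 3
          + 2205 * ma * mb * X ^ 3 - 2304 * (y - x) ^ 2 * X ^ 3 * Y ^ 3) /
            (64 * ma * mb * X ^ 3 * Y ^ 3) := by
      rw [eq_div_iff (by positivity)]
      clear_value X Y ma mb
      field_simp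
      ring
    rw [e4]
    exact div_nonpos_of_nonpos_of_nonneg h2' (by positivity)
  -- monotonicity
  have pa : 0 < cc a := lt_of_lt_of_le one_pos (cc_one a (by omega))
  have pB : 0 < cc B := lt_of_lt_of_le one_pos (cc_one B (by omega))
  have g1 := GG_anti B b (by omega) hab
  have g2 := GG_anti a B (by omega) (by omega)
  have g3 := PP_anti B b (by omega) hab
  have g4 : 1 / cc b ≤ 1 / cc B := one_div_le_one_div_of_le pB (cc_mono B b (by omega) hab)
  have g5 : 1 / cc B ≤ 1 / cc a :=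
    one_div_le_one_div_of_le pa (cc_mono a B (by omega) (by omega))
  have g6 : (GG a - GG B) * (1 / cc a - 1 / cc B) ≤ (GG a - GG b) * (1 / cc a - 1 / cc b) :=
    mul_le_mul (by linarith) (by linarith) (by linarith) (by linarith)
  linarith

lemma ok_two {b : ℕ} (hb : 3 ≤ b) : Ok 2 b := by
  refine ok_of_disc le_rfl (by omega) (hM_of_lt le_rfl (by omega)) ?_
  rcases Nat.lt_or_ge b 5 with h5 | h5
  · right
    interval_cases b
    · rw [GG_two, cc_two, PP_two, GG_ge (k := 3) (by omega), cc_ge (k := 3) (by omega),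
        PP_ge (k := 3) (by omega)]
      norm_num
    · rw [GG_two, cc_two, PP_two, GG_ge (k := 4) (by omega), cc_ge (k := 4) (by omega),
        PP_ge (k := 4) (by omega)]
      norm_num
  · left
    have hK : GG 2 / cc 2 * ((2 : ℕ) - cc 2) + ((2 : ℕ) - 1) * PP 2 + PP 5 -
        (GG 2 - GG 5) * (1 / cc 2 - 1 / cc 5) ≤ 0 := by
      rw [GG_two, cc_two, PP_two, GG_ge (k := 5) (by omega), cc_ge (k := 5) (by omega),
        PP_ge (k := 5) (by omega)]
      norm_num
    have pa : 0 < cc 2 := lt_of_lt_of_le one_pos (cc_one 2 (by omega))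
    have pB : 0 < cc 5 := lt_of_lt_of_le one_pos (cc_one 5 (by omega))
    have g1 := GG_anti 5 b (by omega) h5
    have g2 := GG_anti 2 5 (by omega) (by omega)
    have g3 := PP_anti 5 b (by omega) h5
    have g4 : 1 / cc b ≤ 1 / cc 5 := one_div_le_one_div_of_le pB (cc_mono 5 b (by omega) h5)
    have g5 : 1 / cc 5 ≤ 1 / cc 2 :=
      one_div_le_one_div_of_le pa (cc_mono 2 5 (by omega) (by omega))
    have g6 : (GG 2 - GG 5) * (1 / cc 2 - 1 / cc 5) ≤ (GG 2 - GG b) * (1 / cc 2 - 1 / cc b) :=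
      mul_le_mul (by linarith) (by linarith) (by linarith) (by linarith)
    linarith

lemma ok_all (a b : ℕ) (ha : 2 ≤ a) (hb : 2 ≤ b) : Ok a b := by
  rcases Nat.lt_or_ge a b with hab | hab
  · rcases eq_or_lt_of_le ha with rfl | ha
    · exact ok_two hab
    · rcases Nat.lt_or_ge a 40 with h40 | h40
      · rcases Nat.lt_or_ge b (5 * a + 11) with hB | hB
        · have h0 := chkAll_true
          unfold chkAll at h0
          rw [List.all_eq_true] at h0
          have h1 := h0 a (List.mem_range.2 h40)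
          rw [List.all_eq_true] at h1
          have h2 := h1 b (List.mem_range.2 hB)
          simp only [Bool.or_eq_true, decide_eq_true_eq] at h2
          rcases h2 with (h2 | h2) | h2
          · omega
          · omega
          · exact ok_of_chk ha hab h2
        · exact ok_of_far ha h40 (by omega)
      · exact ok_large h40 hab
  · exact ok_le hb hab

/-- The coefficients `1, 8/5, k - 1/3` are good. -/
theorem good_cc : Good cc GG PP where
  c_one := cc_one
  c_mono := cc_mono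
  G_pos := GG_pos
  G_anti := GG_anti
  P_nonneg := fun k hk => (PP_pos k hk).le
  main := fun a b ha hb t h0 h1 => ok_all a b ha hb t h0 h1

end H70.FKS
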