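import Mathlib

/-!
# The star lemma

`C` is a star, `s e` the demand served by the batch, `y e ≤ yh e` the true and the nominal demand,
`h e` the nominal budget `2 l_e - yh(N[e])`, `D` (at least) the total deficit `∑ (yh - s)` over the
star, `O` the set of edges of the star that are not thinned for this star. With `yh = y` the number
`D` may be negative.
-/

set_option autoImplicit false
set_option linter.unusedSectionVars false
set_option linter.unusedVariables false

namespace H70.FKS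

open Finset

theorem star_sum {E : Type*} [DecidableEq E] {C O : Finset E} {s y yh h : E → ℝ} {a D : ℝ}
    (ha : 0 < a + D) (hpos : ∀ e ∈ C, 0 < h e + D)
    (hD : ∑ e ∈ C, (yh e - s e) ≤ D)
    (hstar : ∀ e ∈ C, e ∉ O → s e * (a + D) ≤ (y e + yh e - s e) * (h e + D))
    (hO : ∑ e ∈ C with e ∉ O, y e + ∑ e ∈ C with e ∈ O, s e * (a + D) / (h e + D) ≤
      a + ∑ e ∈ C with e ∈ O, (yh e - s e)) :
    ∑ e ∈ C, s e / (h e + D) ≤ 1 := by
  have h1 : ∑ e ∈ C with e ∉ O, s e / (h e + D) ≤
      (∑ e ∈ C with e ∉ O, (y e + (yh e - s e))) / (a + D) := by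
    rw [sum_div]
    refine sum_le_sum fun e he => ?_
    obtain ⟨he, heO⟩ := mem_filter.1 he
    rw [div_le_div_iff₀ (hpos e he) ha]
    have := hstar e he heO
    linarith
  have h2 : ∑ e ∈ C with e ∈ O, s e / (h e + D) =
      (∑ e ∈ C with e ∈ O, s e * (a + D) / (h e + D)) / (a + D) := by
    rw [sum_div]
    refine sum_congr rfl fun e he => ?_
    have := hpos e (mem_filter.1 he).1
    field_simp
  have h3 : ∑ e ∈ C, s e / (h e + D) =
      ∑ e ∈ C with e ∈ O, s e / (h e + D) + ∑ e ∈ C with e ∉ O, s e / (h e + D) :=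
    (sum_filter_add_sum_filter_not C (fun e => e ∈ O) _).symm
  have h4 : ∑ e ∈ C, (yh e - s e) =
      ∑ e ∈ C with e ∈ O, (yh e - s e) + ∑ e ∈ C with e ∉ O, (yh e - s e) :=
    (sum_filter_add_sum_filter_not C (fun e => e ∈ O) _).symm
  rw [h3, h2]
  calc (∑ e ∈ C with e ∈ O, s e * (a + D) / (h e + D)) / (a + D) +
        ∑ e ∈ C with e ∉ O, s e / (h e + D) ≤
      (∑ e ∈ C with e ∈ O, s e * (a + D) / (h e + D)) / (a + D) +
        (∑ e ∈ C with e ∉ O, (y e + (yh e - s e))) / (a + D) := by linarith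
    _ = (∑ e ∈ C with e ∈ O, s e * (a + D) / (h e + D) +
        ∑ e ∈ C with e ∉ O, (y e + (yh e - s e))) / (a + D) := by rw [add_div]
    _ ≤ 1 := by
      rw [div_le_one ha, sum_add_distrib]
      linarith

/-- No orphans. -/
theorem star_sum' {E : Type*} [DecidableEq E] {C : Finset E} {s y yh h : E → ℝ} {a D : ℝ}
    (ha : 0 < a + D) (hpos : ∀ e ∈ C, 0 < h e + D)
    (hD : ∑ e ∈ C, (yh e - s e) ≤ D)
    (hstar : ∀ e ∈ C, s e * (a + D) ≤ (y e + yh e - s e) * (h e + D))
    (hO : ∑ e ∈ C, y e ≤ a) :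
    ∑ e ∈ C, s e / (h e + D) ≤ 1 := by
  apply star_sum (O := ∅) (yh := yh) (y := y) ha hpos hD (fun e he _ => hstar e he)
  simpa using hO

/-- One edge `o` that is not thinned. -/
theorem star_sum_orphan {E : Type*} [DecidableEq E] {C : Finset E} {s y yh h : E → ℝ}
    {a D : ℝ} {o : E} (ho : o ∈ C)
    (ha : 0 < a + D) (hpos : ∀ e ∈ C, 0 < h e + D)
    (hD : ∑ e ∈ C, (yh e - s e) ≤ D)
    (hstar : ∀ e ∈ C, e ≠ o → s e * (a + D) ≤ (y e + yh e - s e) * (h e + D))
    (hO : ∑ e ∈ C, y e + (s o * (a + D) / (h o + D) - y o) ≤ a + (yh o - s o)) :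
    ∑ e ∈ C, s e / (h e + D) ≤ 1 := by
  have hf1 : C.filter (fun e => e ∈ ({o} : Finset E)) = {o} := by
    ext e
    simp only [mem_filter, mem_singleton]
    constructor
    · exact fun h => h.2
    · rintro rfl; exact ⟨ho, rfl⟩
  have hf2 : C.filter (fun e => e ∉ ({o} : Finset E)) = C.erase o := by
    ext e
    simp only [mem_filter, mem_singleton, mem_erase]
    tauto
  apply star_sum (O := {o}) (yh := yh) (y := y) ha hpos hD
    (fun e he h => hstar e he (by simpa using h))
  rw [hf1, hf2, sum_singleton, sum_singleton]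
  have := add_sum_erase C y ho
  linarith

end H70.FKS
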